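import Mathlib
import Pool.Agent.W289.SL.Defs

/-!
# Definitions
-/

set_option autoImplicit false

namespace Pool.Agent.K7.H76.SL

open NumberField IsDedekindDomain Module Pool.Agent.W289.SL

section loc

variable (p : ℕ) [hpf : Fact p.Prime]

/-- The completion of `K` at the place given by `σ : K → ℂ_p`, as the subfield `ℚ_p(σ(K))` of
`ℂ_p`. -/
noncomputable def Loc {K : Type} [Field K] (σ : K →+* ℂ_[p]) : IntermediateField ℚ_[p] ℂ_[p] :=
  IntermediateField.adjoin ℚ_[p] (Set.range σ)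

end loc

section defs

variable {p : ℕ} [hpf : Fact p.Prime]

section local_

variable {K : Type} [Field K]

/-- no roots of unity of order `p` in the completion -/
def NoTor (σ : K →+* ℂ_[p]) : Prop := ∀ z ∈ Loc p σ, z ^ p = 1 → z = 1

/-- `x` is a `p`-th power in the completion of `K` at `σ` -/
def LocPow (σ : K →+* ℂ_[p]) (x : K) : Prop := ∃ z ∈ Loc p σ, z ^ p = σ x

end local_

/-- the prime `v` of `K` is the prime of the place given by `σ : K → ℂ_p` -/
def Induced {K : Type} [Field K] [NumberField K] (v : HeightOneSpectrum (𝓞 K))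
    (σ : K →+* ℂ_[p]) : Prop :=
  ∀ x : 𝓞 K, x ∈ v.asIdeal ↔ ‖σ (x : K)‖ < 1

/-- The group `V(K)` of the elements of `Kˣ` which are `p`-th powers in the completions of `K` at
the places of `S`, and whose valuations at the primes which are neither in `S₀` nor induced by `S`
are divisible by `p`. -/
def VS {K : Type} [Field K] [NumberField K] (S : Set (K →+* ℂ_[p]))
    (S₀ : Set (HeightOneSpectrum (𝓞 K))) : Subgroup Kˣ where
  carrier := {x | (∀ σ ∈ S, LocPow σ (x : K)) ∧ ∀ v : HeightOneSpectrum (𝓞 K), v ∉ S₀ →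
    (∀ σ ∈ S, ¬ Induced v σ) → ∃ j : ℤ, v.valuation K (x : K) = WithZero.exp ((p : ℤ) * j)}
  one_mem' := by
    refine ⟨fun σ _ => ⟨1, one_mem _, by simp⟩, fun v _ _ => ⟨0, by simp⟩⟩
  mul_mem' := by
    rintro x y ⟨hx1, hx2⟩ ⟨hy1, hy2⟩
    refine ⟨fun σ hσ => ?_, fun v hv hv' => ?_⟩
    · obtain ⟨z, hz, hzx⟩ := hx1 σ hσ
      obtain ⟨z', hz', hzy⟩ := hy1 σ hσ
      refine ⟨z * z', mul_mem hz hz', ?_⟩
      rw [mul_pow, hzx, hzy, ← map_mul]
      rfl
    · obtain ⟨i, hi⟩ := hx2 v hv hv'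
      obtain ⟨j, hj⟩ := hy2 v hv hv'
      refine ⟨i + j, ?_⟩
      rw [Units.val_mul, map_mul, hi, hj, ← WithZero.exp_add, mul_add]
  inv_mem' := by
    rintro x ⟨hx1, hx2⟩
    refine ⟨fun σ hσ => ?_, fun v hv hv' => ?_⟩
    · obtain ⟨z, hz, hzx⟩ := hx1 σ hσ
      refine ⟨z⁻¹, inv_mem hz, ?_⟩
      rw [inv_pow, hzx, ← map_inv₀, Units.val_inv_eq_inv_val]
    · obtain ⟨i, hi⟩ := hx2 v hv hv'
      refine ⟨-i, ?_⟩
      rw [Units.val_inv_eq_inv_val, map_inv₀, hi, ← WithZero.exp_neg, mul_neg]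

/-- `V(K)` has at most `p ^ v` classes modulo `p`-th powers -/
def VBound {K : Type} [Field K] [NumberField K] (S : Set (K →+* ℂ_[p]))
    (S₀ : Set (HeightOneSpectrum (𝓞 K))) (v : ℕ) : Prop :=
  ∃ T : Finset Kˣ, T.card ≤ p ^ v ∧ ∀ x ∈ VS S S₀, ∃ t ∈ T, ∃ y : Kˣ, x = t * y ^ p

/-- all elements of `V(K)` are `p`-th powers -/
def VTriv {K : Type} [Field K] [NumberField K] (S : Set (K →+* ℂ_[p]))
    (S₀ : Set (HeightOneSpectrum (𝓞 K))) : Prop :=
  ∀ x ∈ VS S S₀, ∃ y : Kˣ, x = y ^ p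

/-- The set `S` is a union of classes of embeddings which give the same place. -/
def PlaceStable {K : Type} [Field K] (S : Set (K →+* ℂ_[p])) : Prop :=
  ∀ σ ∈ S, ∀ σ' : K →+* ℂ_[p], (∀ x : 𝓞 K, ‖σ (x : K)‖ < 1 ↔ ‖σ' (x : K)‖ < 1) → σ' ∈ S

section up

variable {K H : Type} [Field K] [NumberField K] [Field H] [NumberField H] [Algebra K H]

/-- the embeddings of `H` above `S` -/
def upS (H : Type) [Field H] [Algebra K H] (S : Set (K →+* ℂ_[p])) : Set (H →+* ℂ_[p]) :=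
  {τ | τ.comp (algebraMap K H) ∈ S}

/-- the prime `w` of `H` is above the prime `v` of `K` -/
def Above (v : HeightOneSpectrum (𝓞 K)) (w : HeightOneSpectrum (𝓞 H)) : Prop :=
  ∀ x : 𝓞 K, algebraMap (𝓞 K) (𝓞 H) x ∈ w.asIdeal ↔ x ∈ v.asIdeal

/-- the primes of `H` above the primes of `S₀` -/
def up0 (H : Type) [Field H] [NumberField H] [Algebra K H]
    (S₀ : Set (HeightOneSpectrum (𝓞 K))) : Set (HeightOneSpectrum (𝓞 H)) :=
  {w | ∃ v ∈ S₀, Above v w}

/-- some prime of `H` above `v` is unramified over `v` (for a Galois extension: all of them) -/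
def Unr (H : Type) [Field H] [NumberField H] [Algebra K H] (v : HeightOneSpectrum (𝓞 K)) : Prop :=
  ∃ w : HeightOneSpectrum (𝓞 H), ∀ x : K, w.valuation H (algebraMap K H x) = v.valuation K x

end up

end defs

/-- The kernel of `log_{S,p}` on the `χ`-part of `ℂ_p ⊗ 𝓞_H^×` has dimension at most `t`: there
are no `t + 1` linearly independent elements in the kernel. -/
def DefectLE (p : ℕ) [Fact p.Prime] (K H : Type) [Field K] [Field H] [NumberField H] [Algebra K H]
    (S : Set (K →+* ℂ_[p])) (χ : (H ≃ₐ[K] H) →* ℂ_[p]ˣ) (t : ℕ) : Prop :=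
  ∀ (L : ℂ_[p] → ℂ_[p]) (hL : IsIwasawaLog p L) (x : Fin (t + 1) → UM p H),
    (∀ i, ∀ g : H ≃ₐ[K] H, actLin p (g : H →+* H) (x i) = ((χ g : ℂ_[p]ˣ) : ℂ_[p]) • x i) →
    (∀ i, ∀ σ : H →+* ℂ_[p], σ.comp (algebraMap K H) ∈ S → logLin hL σ (x i) = 0) →
    ¬ LinearIndependent ℂ_[p] x

/-- For every Galois extension `H/K` of degree a power of `p`, every finite set `T` of primes of `K`
such that `H/K` is unramified outside `R`, `T` and the primes induced by `S`, and every character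
`χ` of `Gal(H/K)`: the kernel of `log_{S,p}` on the `χ`-part has dimension at most `#T`, and it is
zero if `T` is empty. -/
def Bounded (p : ℕ) [Fact p.Prime] (K : Type) [Field K] [NumberField K] (S : Set (K →+* ℂ_[p]))
    (R : Set (HeightOneSpectrum (𝓞 K))) : Prop :=
  ∀ (H : Type) [Field H] [NumberField H] [Algebra K H] [IsGalois K H],
    (∃ n : ℕ, finrank K H = p ^ n) → ∀ T : Finset (HeightOneSpectrum (𝓞 K)),
    (∀ w : HeightOneSpectrum (𝓞 K), w ∉ R → w ∉ T → (∀ σ ∈ S, ¬ Induced w σ) → Unr H w) →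
    ∀ χ : (H ≃ₐ[K] H) →* ℂ_[p]ˣ, DefectLE p K H S χ T.card ∧ (T = ∅ → SigmaLeopoldt p K H S χ)

/-- the data of the CM fields -/
structure CMData (p : ℕ) (K : Type) [Field K] [NumberField K] (F : IntermediateField ℚ K)
    (n : ℕ) : Prop where
  /-- `F / ℚ` is Galois -/
  gal : IsGalois ℚ F
  /-- of degree `p ^ n` -/
  deg : finrank ℚ F = p ^ n
  /-- `F` is totally real -/
  real : IsTotallyReal F
  /-- `K` is totally complex -/
  cpx : IsTotallyComplex K
  /-- `K / F` is quadratic -/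
  quad : finrank F K = 2

end Pool.Agent.K7.H76.SL
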