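import Mathlib
import Pool.Agent.Y419.LC.LCP

/-!
# Coordinates of units
-/

set_option autoImplicit false

namespace Pool.Agent.K7.H76.SL

open NumberField Module TensorProduct
open Pool.Agent.W289.SL Pool.Agent.Y419.LC.LcpP

variable {p : ℕ} [hpf : Fact p.Prime]

variable (H : Type) [Field H] [NumberField H]

variable {H} in
/-- the exponents of a unit with respect to the fundamental system -/
noncomputable def cfv (u : (𝓞 H)ˣ) : Fin (Units.rank H) → ℤ :=
  (Units.exist_unique_eq_mul_prod H u).choose.2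

variable {H} in
lemma cfv_decomp (u : (𝓞 H)ˣ) : ∃ ζ ∈ Units.torsion H,
    u = ζ * ∏ i, Units.fundSystem H i ^ cfv u i :=
  ⟨(Units.exist_unique_eq_mul_prod H u).choose.1, (Units.exist_unique_eq_mul_prod H u).choose.1.2,
    (Units.exist_unique_eq_mul_prod H u).choose_spec.1⟩

variable {H} in
lemma cfv_unique (u ζ : (𝓞 H)ˣ) (hζ : ζ ∈ Units.torsion H) (e : Fin (Units.rank H) → ℤ)
    (h : u = ζ * ∏ i, Units.fundSystem H i ^ e i) : cfv u = e := by
  have h1 := (Units.exist_unique_eq_mul_prod H u).choose_spec.2 (⟨ζ, hζ⟩, e) h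
  exact (congrArg Prod.snd h1).symm

/-- the exponents of a unit with respect to the fundamental system, as a homomorphism -/
noncomputable def cf (i : Fin (Units.rank H)) : Additive (𝓞 H)ˣ →+ ℤ where
  toFun u := cfv (Additive.toMul u) i
  map_zero' := by
    have h1 : cfv (1 : (𝓞 H)ˣ) = 0 := cfv_unique 1 1 (one_mem _) 0 (by simp)
    exact congrFun h1 i
  map_add' u v := by
    obtain ⟨ζ, hζ, hu⟩ := cfv_decomp (Additive.toMul u)
    obtain ⟨ξ, hξ, hv⟩ := cfv_decomp (Additive.toMul v)
    have h1 : cfv (Additive.toMul u * Additive.toMul v) =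
        cfv (Additive.toMul u) + cfv (Additive.toMul v) := by
      apply cfv_unique _ (ζ * ξ) (mul_mem hζ hξ)
      conv_lhs => rw [hu, hv]
      simp only [Pi.add_apply, zpow_add, Finset.prod_mul_distrib]
      exact mul_mul_mul_comm _ _ _ _
    exact congrFun h1 i

variable {H}

lemma cf_decomp (u : (𝓞 H)ˣ) : ∃ ζ ∈ Units.torsion H,
    u = ζ * ∏ i, Units.fundSystem H i ^ cf H i (Additive.ofMul u) := cfv_decomp u

lemma cf_torsion (i : Fin (Units.rank H)) {ζ : (𝓞 H)ˣ} (hζ : ζ ∈ Units.torsion H) :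
    cf H i (Additive.ofMul ζ) = 0 :=
  congrFun (cfv_unique ζ ζ hζ 0 (by simp)) i

lemma cf_prod (i : Fin (Units.rank H)) (m : Fin (Units.rank H) → ℤ) :
    cf H i (Additive.ofMul (∏ j, Units.fundSystem H j ^ m j)) = m i :=
  congrFun (cfv_unique _ 1 (one_mem _) m (by simp)) i

lemma cf_fund (i j : Fin (Units.rank H)) :
    cf H i (Additive.ofMul (Units.fundSystem H j)) = if j = i then 1 else 0 := by
  have h1 := cf_prod i (Pi.single j 1)
  have h2 : ∏ k, Units.fundSystem H k ^ (Pi.single j 1 : Fin (Units.rank H) → ℤ) k =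
      Units.fundSystem H j := by
    rw [Finset.prod_eq_single j]
    · simp
    · intro k _ hk
      rw [Pi.single_eq_of_ne hk, zpow_zero]
    · intro h
      exact absurd (Finset.mem_univ j) h
  rw [h2, Pi.single_apply] at h1
  rw [h1]
  simp only [eq_comm]

/-- the `ℂ_p`-linear extension of the coordinates -/
noncomputable def coordLin (i : Fin (Units.rank H)) : UM p H →ₗ[ℂ_[p]] ℂ_[p] :=
  ((Int.castAddHom ℂ_[p]).comp (cf H i)).toIntLinearMap.liftBaseChange ℂ_[p]

lemma coordLin_tmul (i : Fin (Units.rank H)) (c : ℂ_[p]) (u : Additive (𝓞 H)ˣ) :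
    coordLin i (c ⊗ₜ u : UM p H) = c * ((cf H i u : ℤ) : ℂ_[p]) := rfl

/-- the element with given coordinates -/
noncomputable def Th (p : ℕ) [Fact p.Prime] (H : Type) [Field H] [NumberField H] :
    (Fin (Units.rank H) → ℂ_[p]) →ₗ[ℂ_[p]] UM p H :=
  ∑ i, (LinearMap.toSpanSingleton ℂ_[p] (UM p H)
    ((1 : ℂ_[p]) ⊗ₜ[ℤ] Additive.ofMul (Units.fundSystem H i))).comp (LinearMap.proj i)

lemma Th_apply (w : Fin (Units.rank H) → ℂ_[p]) :
    Th p H w = ∑ i, (w i) ⊗ₜ[ℤ] Additive.ofMul (Units.fundSystem H i) := by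
  unfold Th
  rw [LinearMap.sum_apply]
  refine Finset.sum_congr rfl fun i _ => ?_
  rw [LinearMap.comp_apply, LinearMap.proj_apply, LinearMap.toSpanSingleton_apply,
    TensorProduct.smul_tmul', smul_eq_mul, mul_one]

lemma coord_Th (i : Fin (Units.rank H)) (w : Fin (Units.rank H) → ℂ_[p]) :
    coordLin i (Th p H w) = w i := by
  rw [Th_apply, map_sum]
  simp only [coordLin_tmul, cf_fund]
  push_cast
  simp

lemma Th_coord (x : UM p H) : Th p H (fun i => coordLin i x) = x := by
  induction x using TensorProduct.induction_on with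
  | zero =>
    have : (fun i => coordLin i (0 : UM p H)) = (0 : Fin (Units.rank H) → ℂ_[p]) := by
      funext i
      exact map_zero _
    rw [this, map_zero]
  | add x y hx hy =>
    have : (fun i => coordLin i (x + y)) = (fun i => coordLin i x) + fun i => coordLin i y := by
      funext i
      exact map_add _ _ _
    rw [this, map_add, hx, hy]
  | tmul c u =>
    rw [Th_apply]
    obtain ⟨ζ, hζ, hu⟩ := cf_decomp (Additive.toMul u)
    have h1 : u = Additive.ofMul ζ +
        ∑ i, (cf H i u) • Additive.ofMul (Units.fundSystem H i) := by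
      have h2 : u = Additive.ofMul (Additive.toMul u) := rfl
      conv_lhs => rw [h2, hu, ofMul_mul, ofMul_prod]
      rfl
    obtain ⟨k, hk, hk1⟩ := isOfFinOrder_iff_pow_eq_one.1 (show IsOfFinOrder (ζ : (𝓞 H)ˣ) from hζ)
    conv_rhs => rw [h1]
    rw [TensorProduct.tmul_add, tmul_torsion c (Additive.ofMul (ζ : (𝓞 H)ˣ)) k hk.ne'
      (by rw [← ofMul_pow, hk1, ofMul_one]), zero_add, TensorProduct.tmul_sum]
    refine Finset.sum_congr rfl fun i _ => ?_
    rw [tmul_zsmul]
    rfl

lemma Th_injective : Function.Injective (Th p H) := by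
  intro w w' h
  funext i
  rw [← coord_Th i w, h, coord_Th]

/-- the action of an endomorphism in coordinates -/
lemma coord_act (f : H →+* H) (w : Fin (Units.rank H) → ℂ_[p]) (k : Fin (Units.rank H)) :
    coordLin k (actLin p f (Th p H w)) =
      ∑ i, w i * ((cf H k (unitHom f (Additive.ofMul (Units.fundSystem H i))) : ℤ) : ℂ_[p]) := by
  rw [Th_apply, map_sum, map_sum]
  refine Finset.sum_congr rfl fun i _ => ?_
  rw [actLin_tmul, coordLin_tmul]

lemma log_Th {L : ℂ_[p] → ℂ_[p]} (hL : IsIwasawaLog p L) (σ : H →+* ℂ_[p])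
    (w : Fin (Units.rank H) → ℂ_[p]) : logLin hL σ (Th p H w) =
      ∑ i, w i * L (σ ((Units.fundSystem H i : 𝓞 H) : H)) := by
  rw [Th_apply, map_sum]
  refine Finset.sum_congr rfl fun i _ => ?_
  rw [logLin_tmul]
  rfl

/-- exponents of the image of a product -/
lemma cf_unitHom (f : H →+* H) (m : Fin (Units.rank H) → ℤ) (k : Fin (Units.rank H)) :
    cf H k (unitHom f (Additive.ofMul (∏ i, Units.fundSystem H i ^ m i))) =
      ∑ i, m i * cf H k (unitHom f (Additive.ofMul (Units.fundSystem H i))) := by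
  rw [ofMul_prod, map_sum, map_sum]
  refine Finset.sum_congr rfl fun i _ => ?_
  rw [ofMul_zpow, map_zsmul, map_zsmul, smul_eq_mul]

end Pool.Agent.K7.H76.SL
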