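import Mathlib

/-!
# Integral echelon bases over `ℂ_p`
-/

set_option autoImplicit false

namespace Pool.Agent.K7.H76.SL

open Module

variable {p : ℕ} [hpf : Fact p.Prime]

theorem echelon {r : ℕ} (W : Submodule ℂ_[p] (Fin r → ℂ_[p])) (v : ℕ)
    (hv : v ≤ finrank ℂ_[p] W) :
    ∃ (ι : Fin v → Fin r) (w : Fin v → Fin r → ℂ_[p]), (∀ j, w j ∈ W) ∧
      (∀ j i, ‖w j i‖ ≤ 1) ∧ ∀ j k, w j (ι k) = if j = k then 1 else 0 := by
  classical
  induction v with
  | zero => exact ⟨Fin.elim0, Fin.elim0, fun j => j.elim0, fun j => j.elim0, fun j => j.elim0⟩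
  | succ v ih =>
    obtain ⟨ι, w, hwW, hw1, hwι⟩ := ih (by omega)
    obtain ⟨x, hxW, hxs⟩ : ∃ x ∈ W, x ∉ Submodule.span ℂ_[p] (Set.range w) := by
      by_contra hcon
      push Not at hcon
      have h1 : W ≤ Submodule.span ℂ_[p] (Set.range w) := fun x hx => hcon x hx
      have h2 := Submodule.finrank_mono h1
      have h3 : finrank ℂ_[p] (Submodule.span ℂ_[p] (Set.range w)) ≤ v := by
        have := finrank_range_le_card (R := ℂ_[p]) w
        rw [Fintype.card_fin] at this
        exact this
      omega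
    set x' : Fin r → ℂ_[p] := x - ∑ j, x (ι j) • w j with hx'
    have hsum : ∑ j, x (ι j) • w j ∈ Submodule.span ℂ_[p] (Set.range w) :=
      Submodule.sum_mem _ fun j _ => Submodule.smul_mem _ _ (Submodule.subset_span ⟨j, rfl⟩)
    have hx'W : x' ∈ W :=
      Submodule.sub_mem _ hxW (Submodule.sum_mem _ fun j _ => Submodule.smul_mem _ _ (hwW j))
    have hx'0 : x' ≠ 0 := by
      intro h
      rw [hx', sub_eq_zero] at h
      exact hxs (h ▸ hsum)
    have hx'ι : ∀ k, x' (ι k) = 0 := by
      intro k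
      simp only [hx', Pi.sub_apply, Finset.sum_apply, Pi.smul_apply, smul_eq_mul, hwι]
      simp
    have hne : Nonempty (Fin r) := by
      by_contra hcon
      rw [not_nonempty_iff] at hcon
      exact hx'0 (Subsingleton.elim _ _)
    obtain ⟨i₀, hi₀⟩ := Finite.exists_max (fun i => ‖x' i‖)
    have hc : x' i₀ ≠ 0 := by
      intro h0
      apply hx'0
      funext i
      have h5 := hi₀ i
      rw [h0, norm_zero] at h5
      exact norm_le_zero_iff.1 h5
    set y : Fin r → ℂ_[p] := (x' i₀)⁻¹ • x' with hy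
    have hyW : y ∈ W := Submodule.smul_mem _ _ hx'W
    have hy1 : ∀ i, ‖y i‖ ≤ 1 := by
      intro i
      rw [hy, Pi.smul_apply, smul_eq_mul, norm_mul, norm_inv, inv_mul_le_one₀ (norm_pos_iff.2 hc)]
      exact hi₀ i
    have hyi₀ : y i₀ = 1 := by
      rw [hy, Pi.smul_apply, smul_eq_mul, inv_mul_cancel₀ hc]
    have hyι : ∀ k, y (ι k) = 0 := by
      intro k
      rw [hy, Pi.smul_apply, smul_eq_mul, hx'ι, mul_zero]
    refine ⟨Fin.snoc ι i₀, Fin.snoc (fun j => w j - w j i₀ • y) y, ?_, ?_, ?_⟩
    · intro j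
      refine Fin.lastCases ?_ (fun j => ?_) j
      · rw [Fin.snoc_last]
        exact hyW
      · rw [Fin.snoc_castSucc]
        exact Submodule.sub_mem _ (hwW j) (Submodule.smul_mem _ _ hyW)
    · intro j i
      refine Fin.lastCases ?_ (fun j => ?_) j
      · rw [Fin.snoc_last]
        exact hy1 i
      · rw [Fin.snoc_castSucc, Pi.sub_apply, Pi.smul_apply, smul_eq_mul, sub_eq_add_neg]
        refine (IsUltrametricDist.norm_add_le_max _ _).trans (max_le (hw1 j i) ?_)
        rw [norm_neg, norm_mul]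
        calc ‖w j i₀‖ * ‖y i‖ ≤ 1 * 1 := by
              gcongr
              · exact hw1 j i₀
              · exact hy1 i
          _ = 1 := one_mul 1
    · intro j k
      refine Fin.lastCases ?_ (fun j => ?_) j
      · refine Fin.lastCases ?_ (fun k => ?_) k
        · rw [Fin.snoc_last, Fin.snoc_last, hyi₀, if_pos rfl]
        · rw [Fin.snoc_last, Fin.snoc_castSucc, hyι, if_neg]
          exact (Fin.castSucc_lt_last k).ne'
      · refine Fin.lastCases ?_ (fun k => ?_) k
        · rw [Fin.snoc_last, Fin.snoc_castSucc, Pi.sub_apply, Pi.smul_apply, smul_eq_mul, hyi₀,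
            mul_one, sub_self, if_neg]
          exact (Fin.castSucc_lt_last j).ne
        · rw [Fin.snoc_castSucc, Fin.snoc_castSucc, Pi.sub_apply, Pi.smul_apply, smul_eq_mul, hyι,
            mul_zero, sub_zero, hwι]
          by_cases h : j = k
          · rw [if_pos h, if_pos (by rw [h])]
          · rw [if_neg h, if_neg]
            intro h'
            exact h (Fin.castSucc_injective _ h')

end Pool.Agent.K7.H76.SL
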