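import Mathlib
import Pool.Agent.K7.H76.SL.Defs

/-!
# The completions of a number field inside `ℂ_p` and `p`-th powers
-/

set_option autoImplicit false

namespace Pool.Agent.K7.H76.SL

open IntermediateField Polynomial

variable (p : ℕ) [hpf : Fact p.Prime]

variable {p}

lemma mem_Loc {K : Type} [Field K] (σ : K →+* ℂ_[p]) (x : K) : σ x ∈ Loc p σ :=
  IntermediateField.subset_adjoin _ _ ⟨x, rfl⟩

lemma Loc_mono {K H : Type} [Field K] [Field H] [Algebra K H] (τ : H →+* ℂ_[p]) :
    Loc p (τ.comp (algebraMap K H)) ≤ Loc p τ := by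
  apply IntermediateField.adjoin.mono
  rintro _ ⟨x, rfl⟩
  exact ⟨algebraMap K H x, rfl⟩

section galois

variable {K H : Type} [Field K] [Field H] [CharZero K] [Algebra K H] [FiniteDimensional K H]
  [IsGalois K H]

/-- the compositum is a Galois extension with a group of exponent dividing that of
`Gal(H/K)` -/
theorem gal_aux {C : Type} [Field C] [IsAlgClosed C] [CharZero C] (τ : H →+* C) (R : Subfield C)
    (hR : ∀ x : K, τ (algebraMap K H x) ∈ R) :
    ∃ M : IntermediateField R C, IsGalois R M ∧ (∀ x : H, τ x ∈ M) ∧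
      (∀ E : IntermediateField R C, (∀ x : H, τ x ∈ E) → M ≤ E) ∧
      FiniteDimensional R M ∧
      ∀ g : M ≃ₐ[R] M, ∃ γ : H ≃ₐ[K] H, ∀ (x : H) (hx : τ x ∈ M), ((g ⟨τ x, hx⟩ : M) : C) = τ (γ x) := by
  classical
  let _ : Algebra K C := (τ.comp (algebraMap K H)).toAlgebra
  let _ : Algebra H C := τ.toAlgebra
  have : IsScalarTower K H C := IsScalarTower.of_algebraMap_eq' rfl
  let _ : Algebra K R := ((τ.comp (algebraMap K H)).codRestrict R hR).toAlgebra
  have : IsScalarTower K R C := IsScalarTower.of_algebraMap_eq' rfl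
  obtain ⟨θ, hθ⟩ := Field.exists_primitive_element K H
  set f : Polynomial K := minpoly K θ with hf
  set fR : Polynomial R := f.map (algebraMap K R) with hfR
  have hint : IsIntegral K θ := Algebra.IsIntegral.isIntegral θ
  have hf0 : f ≠ 0 := minpoly.ne_zero hint
  have hfR0 : fR ≠ 0 := by
    rw [hfR, Ne, Polynomial.map_eq_zero]
    exact hf0
  have hsplit : (f.map (algebraMap K H)).Splits := Normal.splits (inferInstance : Normal K H) θ
  have hfRC : fR.map (algebraMap R C) = (f.map (algebraMap K H)).map τ := by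
    rw [hfR, Polynomial.map_map, Polynomial.map_map, ← IsScalarTower.algebraMap_eq]
    rfl
  have hroots : ∀ z ∈ fR.rootSet C, ∃ x : H, τ x = z := by
    intro z hz
    rw [Polynomial.mem_rootSet] at hz
    have h1 : ((f.map (algebraMap K H)).map τ).eval z = 0 := by
      rw [← hfRC, Polynomial.eval_map_algebraMap]
      exact hz.2
    have h2 : z ∈ ((f.map (algebraMap K H)).map τ).roots := by
      rw [Polynomial.mem_roots']
      refine ⟨?_, h1⟩
      rw [← hfRC, Ne, Polynomial.map_eq_zero]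
      exact hfR0
    rw [hsplit.roots_map τ, Multiset.mem_map] at h2
    obtain ⟨x, -, hx⟩ := h2
    exact ⟨x, hx⟩
  set M : IntermediateField R C := IntermediateField.adjoin R (fR.rootSet C) with hM
  have hsf : fR.IsSplittingField R M :=
    IntermediateField.adjoin_rootSet_isSplittingField (IsAlgClosed.splits _)
  have hsep : fR.Separable := by
    rw [hfR]
    exact (Irreducible.separable (minpoly.irreducible hint)).map
  have hgal : IsGalois R M := IsGalois.of_separable_splitting_field (p := fR) hsep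
  have hfd : FiniteDimensional R M := Polynomial.IsSplittingField.finiteDimensional M fR
  have hθM : τ θ ∈ M := by
    apply IntermediateField.subset_adjoin
    rw [Polynomial.mem_rootSet]
    refine ⟨hfR0, ?_⟩
    rw [← Polynomial.eval_map_algebraMap, hfRC, Polynomial.eval_map, Polynomial.eval₂_hom,
      Polynomial.eval_map_algebraMap]
    rw [hf, minpoly.aeval, map_zero]
  have hall : ∀ E : IntermediateField R C, τ θ ∈ E → ∀ x : H, τ x ∈ E := by
    intro E hE x
    have h1 : x ∈ IntermediateField.adjoin K {θ} := by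
      rw [hθ]
      trivial
    have h2 : IntermediateField.adjoin K {θ} ≤
        (E.restrictScalars K).comap (IsScalarTower.toAlgHom K H C) := by
      rw [IntermediateField.adjoin_simple_le_iff]
      exact hE
    exact h2 h1
  refine ⟨M, hgal, hall M hθM, ?_, hfd, ?_⟩
  · intro E hE
    rw [hM, IntermediateField.adjoin_le_iff]
    intro z hz
    obtain ⟨x, rfl⟩ := hroots z hz
    exact hE x
  · intro g
    let φ : H →ₐ[K] C :=
      { toFun := fun x => ((g ⟨τ x, hall M hθM x⟩ : M) : C)
        map_one' := by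
          have : (⟨τ 1, hall M hθM 1⟩ : M) = 1 := Subtype.ext (map_one τ)
          rw [this, map_one]
          rfl
        map_mul' := by
          intro x y
          have : (⟨τ (x * y), hall M hθM (x * y)⟩ : M) =
              ⟨τ x, hall M hθM x⟩ * ⟨τ y, hall M hθM y⟩ := Subtype.ext (map_mul τ x y)
          rw [this, map_mul]
          rfl
        map_zero' := by
          have : (⟨τ 0, hall M hθM 0⟩ : M) = 0 := Subtype.ext (map_zero τ)
          rw [this, map_zero]
          rfl
        map_add' := by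
          intro x y
          have : (⟨τ (x + y), hall M hθM (x + y)⟩ : M) =
              ⟨τ x, hall M hθM x⟩ + ⟨τ y, hall M hθM y⟩ := Subtype.ext (map_add τ x y)
          rw [this, map_add]
          rfl
        commutes' := by
          intro x
          have : (⟨τ (algebraMap K H x), hall M hθM (algebraMap K H x)⟩ : M) =
              algebraMap R M (algebraMap K R x) := Subtype.ext rfl
          rw [this, AlgEquiv.commutes]
          rfl }
    refine ⟨Normal.algHomEquivAut K C H φ, fun x hx => ?_⟩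
    have h1 : (Normal.algHomEquivAut K C H).symm (Normal.algHomEquivAut K C H φ) = φ :=
      Equiv.symm_apply_apply _ _
    have h2 := congrArg (fun ψ : H →ₐ[K] C => ψ x) h1
    rw [Normal.algHomEquivAut_symm_apply] at h2
    exact h2.symm

/-- roots of unity of order `p` do not appear in the compositum -/
theorem no_torsion_aux {C : Type} [Field C] [IsAlgClosed C] [CharZero C] (τ : H →+* C)
    (R : Subfield C) (hR : ∀ x : K, τ (algebraMap K H x) ∈ R) (p : ℕ) [hpf : Fact p.Prime]
    (hH : ∃ n : ℕ, ∀ g : H ≃ₐ[K] H, g ^ p ^ n = 1) (hz : ∀ z ∈ R, z ^ p = 1 → z = 1)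
    (M' : Subfield C) (hM' : ∀ E : IntermediateField R C, (∀ x : H, τ x ∈ E) → M' ≤ E.toSubfield) :
    (∀ z ∈ M', z ^ p = 1 → z = 1) ∧ ∀ z ∈ M', z ^ p ∈ R → z ∈ R := by
  obtain ⟨M, hgal, hMH, hMmin, hfd, hg⟩ := gal_aux τ R hR
  obtain ⟨n, hn⟩ := hH
  have hle := hM' M hMH
  have hpow : ∀ (g : M ≃ₐ[R] M) (γ : H ≃ₐ[K] H),
      (∀ (x : H) (hx : τ x ∈ M), ((g ⟨τ x, hx⟩ : M) : C) = τ (γ x)) → ∀ (k : ℕ) (x : H)
      (hx : τ x ∈ M), (((g ^ k : M ≃ₐ[R] M) ⟨τ x, hx⟩ : M) : C) = τ ((γ ^ k : H ≃ₐ[K] H) x) := by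
    intro g γ hγ k
    induction k with
    | zero =>
      intro x hx
      rw [pow_zero, pow_zero]
      rfl
    | succ k ih =>
      intro x hx
      rw [pow_succ', pow_succ']
      have h1 : (g ^ k : M ≃ₐ[R] M) ⟨τ x, hx⟩ = ⟨τ ((γ ^ k : H ≃ₐ[K] H) x), hMH _⟩ :=
        Subtype.ext (ih x hx)
      rw [AlgEquiv.mul_apply, h1, hγ]
      rfl
  have hgp : ∀ g : M ≃ₐ[R] M, g ^ p ^ n = 1 := by
    intro g
    obtain ⟨γ, hγ⟩ := hg g
    have hfix : ∀ (x : H) (hx : τ x ∈ M), (((g ^ p ^ n : M ≃ₐ[R] M) ⟨τ x, hx⟩ : M) : C) = τ x := by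
      intro x hx
      rw [hpow g γ hγ, hn γ]
      rfl
    -- the fixed field
    let E : IntermediateField R C :=
      (IntermediateField.fixedField (Subgroup.zpowers (g ^ p ^ n))).map M.val
    have hE : ∀ x : H, τ x ∈ E := by
      intro x
      refine ⟨⟨τ x, hMH x⟩, ?_, rfl⟩
      intro h
      obtain ⟨h, k, rfl⟩ := h
      have h3 : (g ^ p ^ n : M ≃ₐ[R] M) ⟨τ x, hMH x⟩ = ⟨τ x, hMH x⟩ := Subtype.ext (hfix x (hMH x))
      have h4 : (g ^ p ^ n : M ≃ₐ[R] M) ∈ MulAction.stabilizer (M ≃ₐ[R] M) (⟨τ x, hMH x⟩ : M) := h3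
      exact Subgroup.zpow_mem _ h4 k
    have h2 := hMmin E hE
    apply AlgEquiv.ext
    intro y
    obtain ⟨y', hy', hyy⟩ := h2 y.2
    have h3 : y' = y := Subtype.ext hyy
    subst h3
    exact hy' ⟨g ^ p ^ n, Subgroup.mem_zpowers _⟩
  have hp : p.Prime := hpf.out
  have hzM : ∀ z : M, z ^ p = 1 → z = 1 := by
    intro z hz1
    by_contra hne
    have hprim : IsPrimitiveRoot z p := by
      apply IsPrimitiveRoot.mk_of_lt z hp.pos hz1
      intro l hl0 hlp hl1
      have h1 := orderOf_dvd_of_pow_eq_one hz1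
      have h2 := orderOf_dvd_of_pow_eq_one hl1
      rcases (Nat.dvd_prime hp).1 h1 with h | h
      · exact hne (orderOf_eq_one_iff.1 h)
      · rw [h] at h2
        exact absurd (Nat.le_of_dvd hl0 h2) (by omega)
    have hfixz : ∀ g : M ≃ₐ[R] M, g z = z := by
      intro g
      have h1 : (hprim.autToPow R g) ^ p ^ n = 1 := by
        rw [← map_pow, hgp g, map_one]
      have h2 : ∀ (a : ZMod p) (k : ℕ), a ^ p ^ k = a := by
        intro a k
        induction k with
        | zero => rw [pow_zero, pow_one]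
        | succ k ih => rw [pow_succ, pow_mul, ih, ZMod.pow_card]
      have h3 : ((hprim.autToPow R g : (ZMod p)ˣ) : ZMod p) = 1 := by
        have h4 := congrArg (fun u : (ZMod p)ˣ => (u : ZMod p)) h1
        simp only [Units.val_pow_eq_pow_val, Units.val_one] at h4
        rw [h2] at h4
        exact h4
      have h5 := hprim.autToPow_spec R g
      rw [h3] at h5
      rw [← h5]
      have : Fact (1 < p) := ⟨hp.one_lt⟩
      rw [ZMod.val_one, pow_one]
    have h1 : z ∈ (⊥ : IntermediateField R M) := by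
      rw [IsGalois.mem_bot_iff_fixed]
      exact hfixz
    obtain ⟨r, hr⟩ := IntermediateField.mem_bot.1 h1
    have h2 : (r : C) ^ p = 1 := by
      have h3 : (algebraMap R M r) ^ p = 1 := by rw [hr, hz1]
      have h4 := congrArg (fun t : M => (t : C)) h3
      exact h4
    have h3 := hz r r.2 h2
    apply hne
    rw [← hr]
    have h4 : r = 1 := Subtype.ext h3
    rw [h4, map_one]
  refine ⟨?_, ?_⟩
  · intro z hzM' hz1
    have h1 : (⟨z, hle hzM'⟩ : M) ^ p = 1 := Subtype.ext hz1
    exact congrArg (fun t : M => (t : C)) (hzM _ h1)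
  · intro z hzM' hzR
    by_cases hz0 : z = 0
    · rw [hz0]
      exact R.zero_mem
    set z' : M := ⟨z, hle hzM'⟩ with hz'
    have hz'0 : z' ≠ 0 := fun h => hz0 (congrArg (fun t : M => (t : C)) h)
    have h1 : z' ∈ (⊥ : IntermediateField R M) := by
      rw [IsGalois.mem_bot_iff_fixed]
      intro g
      have h2 : z' ^ p = algebraMap R M ⟨z ^ p, hzR⟩ := Subtype.ext rfl
      have h3 : (g z') ^ p = z' ^ p := by
        rw [← map_pow, h2, AlgEquiv.commutes]
      have h4 : (g z' / z') ^ p = 1 := by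
        rw [div_pow, h3, div_self (pow_ne_zero _ hz'0)]
      have h5 := hzM _ h4
      exact (div_eq_one_iff_eq hz'0).1 h5
    obtain ⟨r, hr⟩ := IntermediateField.mem_bot.1 h1
    have h2 : (r : C) = z := congrArg (fun t : M => (t : C)) hr
    rw [← h2]
    exact r.2

end galois

section local_

variable {K H : Type} [Field K] [NumberField K] [Field H] [NumberField H] [Algebra K H]
  [IsGalois K H]

theorem loc_aux (hH : ∃ n : ℕ, ∀ g : H ≃ₐ[K] H, g ^ p ^ n = 1) (τ : H →+* ℂ_[p])
    (hz : NoTor (τ.comp (algebraMap K H))) :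
    NoTor τ ∧ ∀ z ∈ Loc p τ, z ^ p ∈ Loc p (τ.comp (algebraMap K H)) →
      z ∈ Loc p (τ.comp (algebraMap K H)) := by
  have h := no_torsion_aux τ (Loc p (τ.comp (algebraMap K H))).toSubfield
    (fun x => mem_Loc (τ.comp (algebraMap K H)) x) p hH hz (Loc p τ).toSubfield ?_
  · exact h
  · let _ : Algebra ℚ_[p] (Loc p (τ.comp (algebraMap K H))).toSubfield :=
      (inferInstance : Algebra ℚ_[p] (Loc p (τ.comp (algebraMap K H))))
    have : IsScalarTower ℚ_[p] (Loc p (τ.comp (algebraMap K H))).toSubfield ℂ_[p] :=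
      (inferInstance : IsScalarTower ℚ_[p] (Loc p (τ.comp (algebraMap K H))) ℂ_[p])
    intro E hE
    have h1 : Loc p τ ≤ (E.restrictScalars ℚ_[p]) := by
      unfold Loc
      rw [IntermediateField.adjoin_le_iff]
      rintro _ ⟨x, rfl⟩
      exact hE x
    exact h1

theorem locPow_desc (hH : ∃ n : ℕ, ∀ g : H ≃ₐ[K] H, g ^ p ^ n = 1) (τ : H →+* ℂ_[p])
    (hz : NoTor (τ.comp (algebraMap K H))) (a : K) (h : LocPow τ (algebraMap K H a)) :
    LocPow (τ.comp (algebraMap K H)) a := by
  obtain ⟨z, hz1, hz2⟩ := h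
  refine ⟨z, (loc_aux hH τ hz).2 z hz1 ?_, hz2⟩
  rw [hz2]
  exact mem_Loc (τ.comp (algebraMap K H)) a

end local_

end Pool.Agent.K7.H76.SL
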