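import Mathlib
import Pool.Agent.K7.H76.SL.Loc

/-!
# Going up
-/

set_option autoImplicit false

namespace Pool.Agent.K7.H76.SL

open NumberField IsDedekindDomain

variable {p : ℕ} [hpf : Fact p.Prime]

section up

variable {K H : Type} [Field K] [NumberField K] [Field H] [NumberField H] [Algebra K H]

lemma above_of_val {v : HeightOneSpectrum (𝓞 K)} {w : HeightOneSpectrum (𝓞 H)}
    (h : ∀ x : K, w.valuation H (algebraMap K H x) = v.valuation K x) : Above v w := by
  intro x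
  rw [← w.valuation_lt_one_iff_mem (K := H), ← v.valuation_lt_one_iff_mem (K := K), ← h]
  rfl

lemma above_unique {v v' : HeightOneSpectrum (𝓞 K)} {w : HeightOneSpectrum (𝓞 H)}
    (h : Above v w) (h' : Above v' w) : v = v' := by
  apply HeightOneSpectrum.ext
  ext x
  rw [← h x, ← h' x]

lemma induced_of_above {v : HeightOneSpectrum (𝓞 K)} {w : HeightOneSpectrum (𝓞 H)}
    (h : Above v w) {τ : H →+* ℂ_[p]} (hw : Induced w τ) :
    Induced v (τ.comp (algebraMap K H)) := by
  intro x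
  rw [← h x, hw]
  rfl

/-- no `p`-torsion in `H` -/
lemma no_torsion {τ : H →+* ℂ_[p]} (hz : NoTor τ) (y : H) (hy : y ^ p = 1) : y = 1 := by
  apply τ.injective
  rw [map_one]
  apply hz _ (mem_Loc τ y)
  rw [← map_pow, hy, map_one]

variable [IsGalois K H]

/-- **Going up.** An element of `V(H)` whose class modulo `p`-th powers is fixed by `Gal(H/K)`
comes from `V(K)`. -/
theorem going_up (hG : ∃ n : ℕ, ∀ g : H ≃ₐ[K] H, g ^ p ^ n = 1) {S : Set (K →+* ℂ_[p])}
    {S₀ : Set (HeightOneSpectrum (𝓞 K))} (hSne : (upS H S).Nonempty)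
    (hS : ∀ σ ∈ S, NoTor σ)
    (hext : ∀ σ ∈ S, ∃ τ : H →+* ℂ_[p], τ.comp (algebraMap K H) = σ)
    (hunr : ∀ v : HeightOneSpectrum (𝓞 K), v ∉ S₀ → (∀ σ ∈ S, ¬ Induced v σ) → Unr H v)
    {x : Hˣ} (hx : x ∈ VS (upS H S) (up0 H S₀))
    (hinv : ∀ g : H ≃ₐ[K] H, ∃ y : Hˣ, g • x / x = y ^ p) :
    ∃ a ∈ VS S S₀, ∃ c : Hˣ, x = Units.map (algebraMap K H).toMonoidHom a * c ^ p := by
  obtain ⟨τ₀, hτ₀⟩ := hSne
  have htor : ∀ y : H, y ^ p = 1 → y = 1 :=
    fun y hy => no_torsion (loc_aux hG τ₀ (hS _ hτ₀)).1 y hy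
  have huniq : ∀ y z : Hˣ, y ^ p = z ^ p → y = z := by
    intro y z hyz
    have h1 : (y / z) ^ p = 1 := by rw [div_pow, hyz, div_self']
    have h2 : ((y / z : Hˣ) : H) = 1 := htor _ (by
      rw [← Units.val_pow_eq_pow_val, h1, Units.val_one])
    exact div_eq_one.1 (Units.ext h2)
  choose y hy using hinv
  have hcoc : groupCohomology.IsMulCocycle₁ y := by
    intro g h
    apply huniq
    rw [← hy, mul_pow, ← smul_pow', ← hy, ← hy, smul_div', mul_smul, div_mul_div_cancel]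
  obtain ⟨c, hc⟩ := groupCohomology.isMulCoboundary₁_of_isMulCocycle₁_of_aut_to_units y hcoc
  have hfix : ∀ g : H ≃ₐ[K] H, g • (x / c ^ p) = x / c ^ p := by
    intro g
    have h1 : g • c = y g * c := by rw [← hc g, div_mul_cancel]
    have h2 : g • x = y g ^ p * x := by rw [← hy g, div_mul_cancel]
    rw [smul_div', smul_pow', h1, h2, mul_pow, mul_div_mul_left_eq_div]
  have hmem : ((x / c ^ p : Hˣ) : H) ∈ Set.range (algebraMap K H) := by
    rw [IsGalois.mem_range_algebraMap_iff_fixed]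
    intro g
    exact congrArg (fun t : Hˣ => (t : H)) (hfix g)
  obtain ⟨a, ha⟩ := hmem
  have ha0 : a ≠ 0 := by
    rintro rfl
    rw [map_zero] at ha
    exact (x / c ^ p : Hˣ).ne_zero ha.symm
  have hac : algebraMap K H a * (c : H) ^ p = x := by
    rw [ha]
    have : ((x / c ^ p * c ^ p : Hˣ) : H) = x := by rw [div_mul_cancel]
    rw [← this]
    simp
  have hxc : (x : H) / (c : H) ^ p = algebraMap K H a := by
    rw [← hac, mul_div_assoc, div_self (pow_ne_zero _ c.ne_zero), mul_one]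
  refine ⟨Units.mk0 a ha0, ⟨?_, ?_⟩, c, ?_⟩
  · intro σ hσ
    obtain ⟨τ, rfl⟩ := hext σ hσ
    apply locPow_desc hG τ (hS _ hσ)
    obtain ⟨z, hz, hzx⟩ := hx.1 τ hσ
    refine ⟨z / τ c, div_mem hz (mem_Loc τ c), ?_⟩
    rw [div_pow, hzx, ← map_pow, ← map_div₀, hxc]
    rfl
  · intro v hv hv'
    obtain ⟨w, hw⟩ := hunr v hv hv'
    have hab := above_of_val hw
    obtain ⟨j, hj⟩ := hx.2 w (by
      rintro ⟨v', hv'1, hv'2⟩
      rw [above_unique hab hv'2] at hv
      exact hv hv'1) (by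
      intro τ hτ hwτ
      exact hv' _ hτ (induced_of_above hab hwτ))
    have hc0 : w.valuation H (c : H) ≠ 0 := (Valuation.ne_zero_iff _).2 c.ne_zero
    refine ⟨j - WithZero.log (w.valuation H (c : H)), ?_⟩
    change v.valuation K a = _
    rw [← hw a, ← hxc, map_div₀, hj, map_pow]
    have h2 : w.valuation H (c : H) ^ p =
        WithZero.exp ((p : ℤ) * WithZero.log (w.valuation H (c : H))) := by
      conv_lhs => rw [← WithZero.exp_log hc0]
      rw [← WithZero.exp_nsmul]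
      simp
    rw [h2, ← WithZero.exp_sub, mul_sub]
  · ext
    simp only [Units.val_mul, Units.val_pow_eq_pow_val]
    exact hac.symm

end up

end Pool.Agent.K7.H76.SL
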