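import Mathlib
import Pool.Agent.K7.H76.SL.Kum

/-!
# Going up: the trivial case
-/

set_option autoImplicit false

namespace Pool.Agent.K7.H76.SL

open NumberField IsDedekindDomain

/-- a `p`-group which acts on an abelian group has nontrivial invariants modulo a subgroup
containing the `p`-th powers -/
theorem exists_fixed {p : ℕ} [hpf : Fact p.Prime] {G M : Type} [Group G] [Finite G] [CommGroup M]
    [MulDistribMulAction G M] (hG : IsPGroup p G) (P : Subgroup M)
    (hP : ∀ (g : G), ∀ m ∈ P, g • m ∈ P) (hPp : ∀ m : M, m ^ p ∈ P) (V : Subgroup M)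
    (hV : ∀ (g : G), ∀ m ∈ V, g • m ∈ V) (x : M) (hx : x ∈ V) (hxP : x ∉ P) :
    ∃ z ∈ V, z ∉ P ∧ ∀ g : G, g • z / z ∈ P := by
  classical
  let act : G → M ⧸ P → M ⧸ P := fun g =>
    QuotientGroup.map P P (MulDistribMulAction.toMonoidHom M g) (fun m hm => hP g m hm)
  have hact : ∀ (g : G) (m : M), act g (m : M ⧸ P) = ((g • m : M) : M ⧸ P) := fun g m => rfl
  let _ : MulAction G (M ⧸ P) :=
    { smul := act
      one_smul := by
        intro q
        induction q using QuotientGroup.induction_on with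
        | H m =>
          change act 1 (m : M ⧸ P) = _
          rw [hact, one_smul]
      mul_smul := by
        intro g h q
        induction q using QuotientGroup.induction_on with
        | H m =>
          change act (g * h) (m : M ⧸ P) = act g (act h (m : M ⧸ P))
          rw [hact, hact, hact, mul_smul] }
  have hsm : ∀ (g : G) (m : M), g • (m : M ⧸ P) = ((g • m : M) : M ⧸ P) := fun g m => rfl
  set A : Subgroup M := Subgroup.closure (Set.range fun g : G => g • x) with hA
  have hAV : A ≤ V := by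
    rw [hA, Subgroup.closure_le]
    rintro _ ⟨g, rfl⟩
    exact hV g x hx
  have hAG : ∀ (g : G), ∀ m ∈ A, g • m ∈ A := by
    intro g m hm
    have h1 : A ≤ A.comap (MulDistribMulAction.toMonoidHom M g) := by
      conv_lhs => rw [hA]
      rw [Subgroup.closure_le]
      rintro _ ⟨h, rfl⟩
      refine Subgroup.subset_closure ⟨g * h, ?_⟩
      simp only [mul_smul]
      rfl
    exact h1 hm
  have hxA : x ∈ A := Subgroup.subset_closure ⟨1, one_smul _ _⟩
  set B : Subgroup (M ⧸ P) := A.map (QuotientGroup.mk' P) with hB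
  have hBfin : Finite B := by
    have h1 : Group.FG B := by
      rw [Group.fg_iff_subgroup_fg, hB, hA, MonoidHom.map_closure]
      have hf : (⇑(QuotientGroup.mk' P) '' Set.range fun g : G => g • x).Finite :=
        (Set.finite_range _).image _
      refine ⟨hf.toFinset, ?_⟩
      rw [Set.Finite.coe_toFinset]
    refine CommGroup.finite_of_fg_isMulTorsion B ?_
    rintro ⟨q, m, hm, rfl⟩
    rw [isOfFinOrder_iff_pow_eq_one]
    refine ⟨p, hpf.out.pos, ?_⟩
    apply Subtype.ext
    change (QuotientGroup.mk' P m) ^ p = 1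
    rw [← map_pow]
    exact (QuotientGroup.eq_one_iff _).2 (hPp m)
  let _ : MulAction G B :=
    { smul := fun g b => ⟨g • (b : M ⧸ P), by
        obtain ⟨b, m, hm, rfl⟩ := b
        exact ⟨g • m, hAG g m hm, rfl⟩⟩
      one_smul := fun b => Subtype.ext (one_smul G (b : M ⧸ P))
      mul_smul := fun g h b => Subtype.ext (mul_smul g h (b : M ⧸ P)) }
  have hBs : ∀ (g : G) (b : B), ((g • b : B) : M ⧸ P) = g • (b : M ⧸ P) := fun g b => rfl
  have hcard := hG.card_modEq_card_fixedPoints (α := B)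
  have hpB : p ∣ Nat.card B := by
    set b : B := ⟨(x : M ⧸ P), x, hxA, rfl⟩ with hb
    have hb1 : b ≠ 1 := by
      intro h
      apply hxP
      have h2 := congrArg (fun t : B => (t : M ⧸ P)) h
      exact (QuotientGroup.eq_one_iff _).1 h2
    have hbp : b ^ p = 1 := by
      apply Subtype.ext
      change ((x : M ⧸ P)) ^ p = 1
      rw [← QuotientGroup.mk_pow]
      exact (QuotientGroup.eq_one_iff _).2 (hPp x)
    rw [← orderOf_eq_prime hbp hb1]
    exact orderOf_dvd_natCard b
  have hpF : p ∣ Nat.card (MulAction.fixedPoints G B) :=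
    (Nat.modEq_zero_iff_dvd.1 ((hcard.symm.trans (Nat.modEq_zero_iff_dvd.2 hpB))))
  have h1fix : (1 : B) ∈ MulAction.fixedPoints G B := by
    intro g
    apply Subtype.ext
    rw [hBs]
    change g • ((1 : M) : M ⧸ P) = ((1 : M) : M ⧸ P)
    rw [hsm, smul_one]
  have hcard2 : 1 < Nat.card (MulAction.fixedPoints G B) := by
    have hpos : 0 < Nat.card (MulAction.fixedPoints G B) :=
      Nat.card_pos_iff.2 ⟨⟨⟨1, h1fix⟩⟩, inferInstance⟩
    exact lt_of_lt_of_le hpf.out.one_lt (Nat.le_of_dvd hpos hpF)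
  have : Finite (MulAction.fixedPoints G B) := inferInstance
  obtain ⟨⟨b, hb⟩, hbne⟩ : ∃ b : MulAction.fixedPoints G B, b ≠ ⟨1, h1fix⟩ := by
    by_contra hcon
    push Not at hcon
    have : Subsingleton (MulAction.fixedPoints G B) := ⟨fun a b => by rw [hcon a, hcon b]⟩
    have h2 : Nat.card (MulAction.fixedPoints G B) ≤ 1 := by
      rw [Finite.card_le_one_iff_subsingleton]
      exact this
    omega
  obtain ⟨⟨q, m, hm, rfl⟩, rfl⟩ : ∃ b' : B, b' = b := ⟨b, rfl⟩
  refine ⟨m, hAV hm, ?_, ?_⟩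
  · intro hmP
    apply hbne
    apply Subtype.ext
    apply Subtype.ext
    exact (QuotientGroup.eq_one_iff _).2 hmP
  · intro g
    have h1 := congrArg (fun t : B => (t : M ⧸ P)) (hb g)
    have h2 : ((g • m : M) : M ⧸ P) = (m : M ⧸ P) := h1
    rw [QuotientGroup.eq] at h2
    have h3 := P.inv_mem h2
    rw [mul_inv_rev, inv_inv] at h3
    rw [div_eq_mul_inv, mul_comm]
    exact h3

variable {p : ℕ} [hpf : Fact p.Prime]

section up

/-- the valuation of the conjugate prime -/
lemma int_val_comap {R : Type} [CommRing R] [IsDedekindDomain R] (e : R ≃+* R)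
    (w : HeightOneSpectrum R) (r : R) :
    (HeightOneSpectrum.comap (e : R →+* R) e.surjective w).intValuation r =
      w.intValuation (e r) := by
  set w' := HeightOneSpectrum.comap (e : R →+* R) e.surjective w with hw'
  by_cases hr : r = 0
  · rw [hr, map_zero, map_zero, map_zero]
  have her : e r ≠ 0 := by
    rw [Ne, EmbeddingLike.map_eq_zero_iff]
    exact hr
  have key : ∀ n : ℕ, r ∈ w'.asIdeal ^ n ↔ e r ∈ w.asIdeal ^ n := by
    intro n
    have h1 : w'.asIdeal = Ideal.map (e.symm : R →+* R) w.asIdeal :=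
      (Ideal.map_symm e).symm
    rw [h1, ← Ideal.map_pow]
    have h2 : Ideal.map (e.symm : R →+* R) (w.asIdeal ^ n) =
        Ideal.comap (e : R →+* R) (w.asIdeal ^ n) := Ideal.map_symm e
    rw [h2]
    exact Iff.rfl
  rw [w'.intValuation_eq_exp_neg_multiplicity hr, w.intValuation_eq_exp_neg_multiplicity her]
  congr 2
  have h1 : ∀ n : ℕ, n ≤ emultiplicity w'.asIdeal (Ideal.span {r}) ↔
      n ≤ emultiplicity w.asIdeal (Ideal.span {e r}) := by
    intro n
    rw [← pow_dvd_iff_le_emultiplicity, ← pow_dvd_iff_le_emultiplicity, Ideal.dvd_span_singleton,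
      Ideal.dvd_span_singleton]
    exact key n
  have h2 : emultiplicity w'.asIdeal (Ideal.span {r}) =
      emultiplicity w.asIdeal (Ideal.span {e r}) := by
    apply le_antisymm
    · apply ENat.forall_natCast_le_iff_le.1
      intro n hn
      exact (h1 n).1 hn
    · apply ENat.forall_natCast_le_iff_le.1
      intro n hn
      exact (h1 n).2 hn
  unfold multiplicity
  rw [h2]

/-- the image of a prime under an automorphism -/
lemma above_map {K H : Type} [Field K] [NumberField K] [Field H] [NumberField H] [Algebra K H]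
    (g : H ≃ₐ[K] H) (w : HeightOneSpectrum (𝓞 H)) : ∃ w' : HeightOneSpectrum (𝓞 H),
      (∀ x : H, w'.valuation H x = w.valuation H (g x)) ∧
      (∀ y : 𝓞 H, y ∈ w'.asIdeal ↔ RingOfIntegers.mapRingEquiv (g : H ≃+* H) y ∈ w.asIdeal) ∧
      ∀ v : HeightOneSpectrum (𝓞 K), Above v w' → Above v w := by
  set e : 𝓞 H ≃+* 𝓞 H := RingOfIntegers.mapRingEquiv (g : H ≃+* H) with he
  refine ⟨HeightOneSpectrum.comap (e : 𝓞 H →+* 𝓞 H) e.surjective w, ?_, fun y => Iff.rfl, ?_⟩
  · intro x
    obtain ⟨a, b, hb, rfl⟩ := IsFractionRing.div_surjective (A := 𝓞 H) x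
    rw [map_div₀, map_div₀, map_div₀, HeightOneSpectrum.valuation_of_algebraMap,
      HeightOneSpectrum.valuation_of_algebraMap, int_val_comap, int_val_comap,
      ← HeightOneSpectrum.valuation_of_algebraMap (K := H),
      ← HeightOneSpectrum.valuation_of_algebraMap (K := H)]
    rfl
  · intro v hv x
    rw [← hv x]
    have h1 : e (algebraMap (𝓞 K) (𝓞 H) x) = algebraMap (𝓞 K) (𝓞 H) x := by
      apply RingOfIntegers.ext
      exact g.commutes x
    change _ ↔ e (algebraMap (𝓞 K) (𝓞 H) x) ∈ w.asIdeal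
    rw [h1]

variable {K H : Type} [Field K] [NumberField K] [Field H] [NumberField H] [Algebra K H]

/-- `V(H)` is stable under the Galois group -/
lemma VS_stable {S : Set (K →+* ℂ_[p])} {S₀ : Set (HeightOneSpectrum (𝓞 K))} (g : H ≃ₐ[K] H)
    {x : Hˣ} (hx : x ∈ VS (upS H S) (up0 H S₀)) : g • x ∈ VS (upS H S) (up0 H S₀) := by
  refine ⟨?_, ?_⟩
  · intro τ hτ
    have h1 : τ.comp (g : H →+* H) ∈ upS H S := by
      have h2 : (τ.comp (g : H →+* H)).comp (algebraMap K H) = τ.comp (algebraMap K H) := by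
        ext y
        simp
      unfold upS
      rw [Set.mem_ofPred_eq, h2]
      exact hτ
    obtain ⟨z, hz, hzx⟩ := hx.1 _ h1
    refine ⟨z, ?_, hzx⟩
    have h3 : Loc p (τ.comp (g : H →+* H)) ≤ Loc p τ := by
      apply IntermediateField.adjoin.mono
      rintro _ ⟨y, rfl⟩
      exact ⟨g y, rfl⟩
    exact h3 hz
  · intro w hw hw'
    obtain ⟨w', h1, h2, h3⟩ := above_map g w
    obtain ⟨j, hj⟩ := hx.2 w' (by
      rintro ⟨v, hv, hvw⟩
      exact hw ⟨v, hv, h3 v hvw⟩) (by
      intro τ hτ hind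
      apply hw' (τ.comp (g.symm : H →+* H))
      · have h4 : (τ.comp (g.symm : H →+* H)).comp (algebraMap K H) = τ.comp (algebraMap K H) := by
          ext y
          simp
        unfold upS
        rw [Set.mem_ofPred_eq, h4]
        exact hτ
      · intro y
        have h5 := hind (RingOfIntegers.mapRingEquiv (g.symm : H ≃+* H) y)
        rw [h2] at h5
        have h6 : RingOfIntegers.mapRingEquiv (g : H ≃+* H)
            (RingOfIntegers.mapRingEquiv (g.symm : H ≃+* H) y) = y := by
          apply RingOfIntegers.ext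
          exact g.apply_symm_apply (y : H)
        rw [h6] at h5
        exact h5)
    refine ⟨j, ?_⟩
    rw [← hj, h1]
    rfl

variable [IsGalois K H]

/-- **Going up**, the trivial case. -/
theorem going_up_triv (hG : ∃ n : ℕ, Nat.card (H ≃ₐ[K] H) = p ^ n) {S : Set (K →+* ℂ_[p])}
    {S₀ : Set (HeightOneSpectrum (𝓞 K))} (hSne : (upS H S).Nonempty)
    (hS : ∀ σ ∈ S, NoTor σ)
    (hext : ∀ σ ∈ S, ∃ τ : H →+* ℂ_[p], τ.comp (algebraMap K H) = σ)
    (hunr : ∀ v : HeightOneSpectrum (𝓞 K), v ∉ S₀ → (∀ σ ∈ S, ¬ Induced v σ) → Unr H v)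
    (hV : VTriv S S₀) : VTriv (upS H S) (up0 H S₀) := by
  classical
  have hG' : IsPGroup p (H ≃ₐ[K] H) := by
    obtain ⟨n, hn⟩ := hG
    exact IsPGroup.of_card hn
  have hG2 : ∃ n : ℕ, ∀ g : H ≃ₐ[K] H, g ^ p ^ n = 1 := by
    obtain ⟨n, hn⟩ := hG
    exact ⟨n, fun g => by rw [← hn]; exact pow_card_eq_one'⟩
  intro x hx
  by_contra hcon
  obtain ⟨z, hz, hzP, hzg⟩ := exists_fixed hG' (powMonoidHom p : Hˣ →* Hˣ).range
    (by
      rintro g _ ⟨y, rfl⟩
      exact ⟨g • y, by simp [smul_pow']⟩)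
    (fun m => ⟨m, rfl⟩) (VS (upS H S) (up0 H S₀)) (fun g m hm => VS_stable g hm) x hx
    (by
      rintro ⟨y, hy⟩
      exact hcon ⟨y, hy.symm⟩)
  obtain ⟨a, ha, c, hac⟩ := going_up hG2 hSne hS hext hunr hz (by
    intro g
    obtain ⟨y, hy⟩ := hzg g
    exact ⟨y, hy.symm⟩)
  obtain ⟨b, hb⟩ := hV a ha
  apply hzP
  refine ⟨Units.map (algebraMap K H).toMonoidHom b * c, ?_⟩
  rw [hac, hb, map_pow]
  exact mul_pow _ _ _

end up

end Pool.Agent.K7.H76.SL
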