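import Mathlib
import Pool.Agent.Y419.LC.LCP
import Pool.Agent.K7.H76.SL.Kum

/-!
# Logarithms of units in the completions
-/

set_option autoImplicit false

namespace Pool.Agent.K7.H76.SL

open NumberField IsDedekindDomain IntermediateField Filter Topology Module
open Pool.Agent.W289.SL Pool.Agent.Y419.LC.LcpP

variable {p : ℕ} [hpf : Fact p.Prime]

section

variable {H : Type} [Field H] [NumberField H] (τ : H →+* ℂ_[p])

instance fd_Loc : FiniteDimensional ℚ_[p] (Loc p τ) := by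
  obtain ⟨θ, hθ⟩ := Field.exists_primitive_element ℚ H
  have hint : IsIntegral ℚ_[p] (τ θ) := by
    have h1 : IsIntegral ℚ (τ θ) := by
      have h2 : IsIntegral ℚ θ := Algebra.IsIntegral.isIntegral θ
      have h3 := h2.map (RingHom.equivRatAlgHom H ℂ_[p] τ)
      exact h3
    exact h1.tower_top
  have hfd : FiniteDimensional ℚ_[p] (IntermediateField.adjoin ℚ_[p] {τ θ}) :=
    IntermediateField.adjoin.finiteDimensional hint
  have hle : Loc p τ ≤ IntermediateField.adjoin ℚ_[p] {τ θ} := by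
    unfold Loc
    rw [IntermediateField.adjoin_le_iff]
    rintro _ ⟨x, rfl⟩
    have h1 : x ∈ IntermediateField.adjoin ℚ {θ} := by
      rw [hθ]
      trivial
    have h2 : IntermediateField.adjoin ℚ {θ} ≤
        ((IntermediateField.adjoin ℚ_[p] {τ θ}).restrictScalars ℚ).comap
          (RingHom.equivRatAlgHom H ℂ_[p] τ) := by
      rw [IntermediateField.adjoin_simple_le_iff]
      exact IntermediateField.mem_adjoin_simple_self ℚ_[p] (τ θ)
    exact h2 h1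
  exact FiniteDimensional.of_injective (IntermediateField.inclusion hle).toLinearMap
    (IntermediateField.inclusion hle).toRingHom.injective

/-- the completion is closed -/
lemma closed_Loc : IsClosed ((Loc p τ : IntermediateField ℚ_[p] ℂ_[p]) : Set ℂ_[p]) := by
  have h : FiniteDimensional ℚ_[p] (Subalgebra.toSubmodule (Loc p τ).toSubalgebra) :=
    fd_Loc τ
  exact (Subalgebra.toSubmodule (Loc p τ).toSubalgebra).closed_of_finiteDimensional

/-- embeddings of the completion are continuous -/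
lemma cont_emb (s : Loc p τ →ₐ[ℚ_[p]] ℂ_[p]) {ι : Type} {l : Filter ι} (f : ι → Loc p τ)
    (y : Loc p τ) (h : Tendsto (fun n => (f n : ℂ_[p])) l (𝓝 (y : ℂ_[p]))) :
    Tendsto (fun n => s (f n)) l (𝓝 (s y)) := by
  let W : Submodule ℚ_[p] ℂ_[p] := Subalgebra.toSubmodule (Loc p τ).toSubalgebra
  have hfd : FiniteDimensional ℚ_[p] W := fd_Loc τ
  let g : W →ₗ[ℚ_[p]] ℂ_[p] :=
    { toFun := fun x => s ⟨x.1, x.2⟩
      map_add' := fun x y => map_add s _ _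
      map_smul' := fun c x => by
        have h1 : (⟨c • (x : ℂ_[p]), (c • x).2⟩ : Loc p τ) = c • (⟨x.1, x.2⟩ : Loc p τ) := rfl
        change s ⟨c • (x : ℂ_[p]), _⟩ = c • s ⟨x.1, x.2⟩
        rw [h1, Algebra.smul_def, map_mul, AlgHom.commutes, Algebra.smul_def] }
  have hg : Continuous g := g.continuous_of_finiteDimensional
  have h1 : Tendsto (fun n => (⟨(f n : ℂ_[p]), (f n).2⟩ : W)) l (𝓝 ⟨(y : ℂ_[p]), y.2⟩) := by
    rw [tendsto_subtype_rng]
    exact h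
  exact (hg.tendsto _).comp h1

/-- the embedding `s ∘ τ` -/
noncomputable def compS (s : Loc p τ →ₐ[ℚ_[p]] ℂ_[p]) : H →+* ℂ_[p] :=
  (s : Loc p τ →+* ℂ_[p]).comp (τ.codRestrict (Loc p τ) (mem_Loc τ))

lemma compS_apply (s : Loc p τ →ₐ[ℚ_[p]] ℂ_[p]) (x : H) : compS τ s x = s ⟨τ x, mem_Loc τ x⟩ := rfl

lemma compS_lt (s : Loc p τ →ₐ[ℚ_[p]] ℂ_[p]) (x : H) (hx : ‖τ x‖ < 1) : ‖compS τ s x‖ < 1 := by
  have h1 : Tendsto (fun n : ℕ => (((⟨τ x, mem_Loc τ x⟩ : Loc p τ) ^ n : Loc p τ) : ℂ_[p])) atTop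
      (𝓝 ((0 : Loc p τ) : ℂ_[p])) := by
    have h2 := tendsto_pow_atTop_nhds_zero_of_norm_lt_one hx
    refine h2.congr fun n => ?_
    rfl
  have h2 := cont_emb τ s _ _ h1
  rw [map_zero] at h2
  have h3 : Tendsto (fun n : ℕ => ‖compS τ s x‖ ^ n) atTop (𝓝 0) := by
    have h4 := h2.norm
    rw [norm_zero] at h4
    refine h4.congr fun n => ?_
    rw [map_pow, norm_pow]
    rfl
  have h4 := (tendsto_pow_atTop_nhds_zero_iff (r := ‖compS τ s x‖)).1 h3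
  rwa [abs_of_nonneg (norm_nonneg _)] at h4

/-- the two embeddings give the same place -/
lemma compS_place (s : Loc p τ →ₐ[ℚ_[p]] ℂ_[p]) (x : 𝓞 H) :
    ‖τ (x : H)‖ < 1 ↔ ‖compS τ s (x : H)‖ < 1 := by
  refine ⟨compS_lt τ s _, fun h => ?_⟩
  by_contra hcon
  have h1 : ‖τ (x : H)‖ = 1 := le_antisymm (norm_emb_le τ x) (not_lt.1 hcon)
  -- a power of `x` is close to `1`
  let 𝔓 : Ideal (𝓞 H) :=
    { carrier := {y | ‖τ (y : H)‖ < 1}
      add_mem' := by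
        intro a b ha hb
        change ‖τ (a + b : H)‖ < 1
        rw [map_add]
        exact lt_of_le_of_lt (IsUltrametricDist.norm_add_le_max _ _) (max_lt ha hb)
      zero_mem' := by
        change ‖τ (0 : H)‖ < 1
        rw [map_zero, norm_zero]
        exact one_pos
      smul_mem' := by
        intro c a ha
        change ‖τ (c * a : H)‖ < 1
        rw [map_mul, norm_mul]
        have h2 := norm_emb_le τ c
        have h3 : ‖τ (a : H)‖ < 1 := ha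
        calc ‖τ (c : H)‖ * ‖τ (a : H)‖ ≤ 1 * ‖τ (a : H)‖ := by gcongr
          _ < 1 := by rw [one_mul]; exact h3 }
  have h𝔓 : ∀ y : 𝓞 H, y ∈ 𝔓 ↔ ‖τ (y : H)‖ < 1 := fun y => Iff.rfl
  have hprime : 𝔓.IsPrime := by
    refine ⟨?_, ?_⟩
    · rw [Ideal.ne_top_iff_one, h𝔓]
      have : τ ((1 : 𝓞 H) : H) = 1 := by simp only [map_one]
      rw [this, norm_one]
      exact lt_irrefl 1
    · intro a b hab
      rw [h𝔓] at hab ⊢
      rw [h𝔓]
      by_contra hcon2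
      push Not at hcon2
      have h2 : τ ((a * b : 𝓞 H) : H) = τ (a : H) * τ (b : H) := by simp only [map_mul]
      rw [h2, norm_mul] at hab
      nlinarith [hcon2.1, hcon2.2]
  have hne : 𝔓 ≠ ⊥ := by
    intro h0
    have h2 : ((p : ℕ) : 𝓞 H) ∈ 𝔓 := by
      rw [h𝔓]
      have h3 : τ (((p : ℕ) : 𝓞 H) : H) = ((p : ℕ) : ℂ_[p]) := by
        simp only [map_natCast]
      rw [h3, norm_p]
      exact inv_lt_one_of_one_lt₀ (by exact_mod_cast hpf.out.one_lt)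
    rw [h0, Ideal.mem_bot] at h2
    have h3 := hpf.out.ne_zero
    exact h3 (by exact_mod_cast h2)
  have hfin : Finite (𝓞 H ⧸ 𝔓) := Ideal.finiteQuotientOfFreeOfNeBot 𝔓 hne
  have hmax : 𝔓.IsMaximal := hprime.isMaximal hne
  let _ := Ideal.Quotient.field 𝔓
  have hx0 : (Ideal.Quotient.mk 𝔓 x) ≠ 0 := by
    rw [Ne, Ideal.Quotient.eq_zero_iff_mem, h𝔓]
    exact hcon
  have := Fintype.ofFinite (𝓞 H ⧸ 𝔓)
  obtain ⟨m, hm0, hm⟩ : ∃ m : ℕ, 0 < m ∧ (Ideal.Quotient.mk 𝔓 x) ^ m = 1 := by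
    refine ⟨Fintype.card (𝓞 H ⧸ 𝔓) - 1, ?_, FiniteField.pow_card_sub_one_eq_one _ hx0⟩
    have := Fintype.one_lt_card (α := 𝓞 H ⧸ 𝔓)
    omega
  have h2 : x ^ m - 1 ∈ 𝔓 := by
    rw [← Ideal.Quotient.eq_zero_iff_mem, map_sub, map_pow, hm, map_one, sub_self]
  rw [h𝔓] at h2
  have h3 := compS_lt τ s _ h2
  have h4 : compS τ s ((x ^ m - 1 : 𝓞 H) : H) = compS τ s (x : H) ^ m - 1 := by
    simp only [map_sub, map_pow, map_one]
  rw [h4] at h3
  have h5 : ‖compS τ s (x : H) ^ m‖ < 1 := by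
    rw [norm_pow]
    exact pow_lt_one₀ (norm_nonneg _) h hm0.ne'
  have h6 : (1 : ℂ_[p]) = compS τ s (x : H) ^ m - (compS τ s (x : H) ^ m - 1) := by ring
  have h7 : ‖(1 : ℂ_[p])‖ < 1 := by
    rw [h6]
    rw [sub_eq_add_neg]
    refine lt_of_le_of_lt (IsUltrametricDist.norm_add_le_max _ _) (max_lt h5 ?_)
    rw [norm_neg]
    exact h3
  rw [norm_one] at h7
  exact lt_irrefl _ h7

lemma log_pow {L : ℂ_[p] → ℂ_[p]} (hL : IsIwasawaLog p L) (u : (𝓞 H)ˣ) (n : ℕ) :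
    L (τ (((u ^ n : (𝓞 H)ˣ) : 𝓞 H) : H)) = n * L (τ ((u : 𝓞 H) : H)) := by
  have h1 : logHom hL τ (Additive.ofMul (u ^ n)) = n • logHom hL τ (Additive.ofMul u) := by
    rw [ofMul_pow, map_nsmul]
  rw [nsmul_eq_mul] at h1
  exact h1

/-- the logarithms of the units are in the completion, and embeddings of the completion commute
with the logarithm -/
theorem log_mem {L : ℂ_[p] → ℂ_[p]} (hL : IsIwasawaLog p L) (u : (𝓞 H)ˣ) :
    ∃ hm : L (τ ((u : 𝓞 H) : H)) ∈ Loc p τ, ∀ s : Loc p τ →ₐ[ℚ_[p]] ℂ_[p],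
      s ⟨L (τ ((u : 𝓞 H) : H)), hm⟩ = L (compS τ s ((u : 𝓞 H) : H)) := by
  obtain ⟨n, hn, hnU⟩ := exists_pow_U4 H p
  have hn' : (n : ℂ_[p]) ≠ 0 := by exact_mod_cast hn
  obtain ⟨y, hy⟩ := (mem_U4 (u ^ n)).1 (hnU u)
  have hy' : ((u ^ n : (𝓞 H)ˣ) : 𝓞 H) = 1 + ((p : ℕ) : 𝓞 H) ^ 4 * y := by
    rw [← hy]
    ring
  have hz : ∀ τ' : H →+* ℂ_[p], τ' (((u ^ n : (𝓞 H)ˣ) : 𝓞 H) : H) =
      1 + ((p : ℕ) : ℂ_[p]) ^ 4 * τ' (y : H) := by
    intro τ'
    rw [hy']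
    simp only [map_add, map_mul, map_pow, map_natCast, map_one]
  have hz1 : ∀ τ' : H →+* ℂ_[p], ‖((p : ℕ) : ℂ_[p]) ^ 4 * τ' (y : H)‖ < 1 := by
    intro τ'
    rw [norm_mul, norm_pow, norm_p]
    have h1 := norm_emb_le τ' y
    have h2 : ((p : ℝ)⁻¹) ^ 4 < 1 := pow_lt_one₀ (by positivity)
      (inv_lt_one_of_one_lt₀ (by exact_mod_cast hpf.out.one_lt)) (by norm_num)
    calc ((p : ℝ)⁻¹) ^ 4 * ‖τ' (y : H)‖ ≤ ((p : ℝ)⁻¹) ^ 4 * 1 := by gcongr
      _ < 1 := by rw [mul_one]; exact h2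
  set z : ℂ_[p] := ((p : ℕ) : ℂ_[p]) ^ 4 * τ (y : H) with hzdef
  have hzL : z ∈ Loc p τ := mul_mem (pow_mem (_root_.natCast_mem _ _) _) (mem_Loc τ _)
  have hser := hL.ser z (hz1 τ)
  have htm : ∀ k : ℕ, (-1 : ℂ_[p]) ^ k * z ^ (k + 1) / ((k : ℂ_[p]) + 1) ∈ Loc p τ := by
    intro k
    refine div_mem (mul_mem (pow_mem (neg_mem (one_mem _)) _) (pow_mem hzL _)) ?_
    exact add_mem (_root_.natCast_mem _ _) (one_mem _)
  have hpart : ∀ k : ℕ, ∑ i ∈ Finset.range k, (-1 : ℂ_[p]) ^ i * z ^ (i + 1) / ((i : ℂ_[p]) + 1) ∈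
      Loc p τ := fun k => sum_mem fun i _ => htm i
  have hLz : L (1 + z) ∈ Loc p τ := by
    have h1 := (closed_Loc τ).mem_of_tendsto hser.tendsto_sum_nat
      (Filter.Eventually.of_forall fun k => hpart k)
    exact h1
  have hmul : L (1 + z) = n * L (τ ((u : 𝓞 H) : H)) := by
    rw [← log_pow τ hL u n, hz τ]
  have hdiv : L (τ ((u : 𝓞 H) : H)) = L (1 + z) / n := by
    rw [hmul]
    field_simp
  have hm : L (τ ((u : 𝓞 H) : H)) ∈ Loc p τ := by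
    rw [hdiv]
    exact div_mem hLz (_root_.natCast_mem _ _)
  refine ⟨hm, fun s => ?_⟩
  have h1 := cont_emb τ s (l := atTop) (fun k : ℕ => (⟨_, hpart k⟩ : Loc p τ)) ⟨_, hLz⟩
    hser.tendsto_sum_nat
  set z' : ℂ_[p] := ((p : ℕ) : ℂ_[p]) ^ 4 * compS τ s (y : H) with hz'
  have hsz : s ⟨z, hzL⟩ = z' := by
    have h2 : (⟨z, hzL⟩ : Loc p τ) = ((p : ℕ) : Loc p τ) ^ 4 * ⟨τ (y : H), mem_Loc τ _⟩ :=
      Subtype.ext rfl
    rw [h2, map_mul, map_pow, map_natCast]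
    rfl
  have h2 : ∀ k : ℕ, s (⟨_, hpart k⟩ : Loc p τ) =
      ∑ i ∈ Finset.range k, (-1 : ℂ_[p]) ^ i * z' ^ (i + 1) / ((i : ℂ_[p]) + 1) := by
    intro k
    have h3 : (⟨_, hpart k⟩ : Loc p τ) = ∑ i ∈ Finset.range k,
        (-1 : Loc p τ) ^ i * (⟨z, hzL⟩ : Loc p τ) ^ (i + 1) / ((i : Loc p τ) + 1) := by
      apply Subtype.ext
      push_cast
      rfl
    rw [h3, map_sum]
    refine Finset.sum_congr rfl fun i _ => ?_
    rw [map_div₀, map_mul, map_pow, map_pow, map_neg, map_one, hsz, map_add, map_natCast, map_one]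
  have h3 := (hL.ser z' (hz1 (compS τ s))).tendsto_sum_nat
  have h4 : s ⟨L (1 + z), hLz⟩ = L (1 + z') := tendsto_nhds_unique (h1.congr h2) h3
  have h5 : (⟨L (1 + z), hLz⟩ : Loc p τ) = (n : Loc p τ) * ⟨L (τ ((u : 𝓞 H) : H)), hm⟩ :=
    Subtype.ext hmul
  rw [h5, map_mul, map_natCast, ← hz (compS τ s), log_pow (compS τ s) hL u n] at h4
  exact mul_left_cancel₀ hn' h4

end

end Pool.Agent.K7.H76.SL
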