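import Mathlib
import Pool.Agent.K7.H76.SL.LogLoc

/-!
# A `p`-adic relation between the logarithms gives a unit which is locally a `p`-th power
-/

set_option autoImplicit false

namespace Pool.Agent.K7.H76.SL

open NumberField IsDedekindDomain Filter Topology Module
open Pool.Agent.W289.SL Pool.Agent.Y419.LC.LcpP

variable {p : ℕ} [hpf : Fact p.Prime]

variable {H : Type} [Field H] [NumberField H] (τ : H →+* ℂ_[p])

lemma log_prod {L : ℂ_[p] → ℂ_[p]} (hL : IsIwasawaLog p L) {r : ℕ} (ε : Fin r → (𝓞 H)ˣ)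
    (m : Fin r → ℤ) : L (τ (((∏ i, ε i ^ m i : (𝓞 H)ˣ) : 𝓞 H) : H)) =
      ∑ i, (m i : ℂ_[p]) * L (τ ((ε i : 𝓞 H) : H)) := by
  have h2 : logHom hL τ (Additive.ofMul (∏ i, ε i ^ m i)) = ∑ i, (m i) • logHom hL τ
      (Additive.ofMul (ε i)) := by
    rw [ofMul_prod, map_sum]
    refine Finset.sum_congr rfl fun i _ => ?_
    rw [ofMul_zpow, map_zsmul]
  have h3 : L (τ (((∏ i, ε i ^ m i : (𝓞 H)ˣ) : 𝓞 H) : H)) =
      logHom hL τ (Additive.ofMul (∏ i, ε i ^ m i)) := rfl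
  rw [h3, h2]
  refine Finset.sum_congr rfl fun i _ => ?_
  rw [zsmul_eq_mul]
  rfl

/-- the distance to `1` of the units in `U4` -/
lemma dist_U4 {L : ℂ_[p] → ℂ_[p]} (hL : IsIwasawaLog p L) (u : (𝓞 H)ˣ) (hu : u ∈ U4 H p) :
    ‖τ ((u : 𝓞 H) : H) - 1‖ ≤ 2 * ‖L (τ ((u : 𝓞 H) : H))‖ := by
  obtain ⟨v, hv⟩ := (mem_U4 u).1 hu
  have h0 : τ ((u : 𝓞 H) : H) - 1 = ((p : ℕ) : ℂ_[p]) ^ 4 * τ (v : H) := by
    have h1 : τ (((u : 𝓞 H) - 1 : 𝓞 H) : H) = τ ((u : 𝓞 H) : H) - 1 := by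
      simp only [map_sub, map_one]
    rw [← h1, hv]
    simp only [map_mul, map_pow, map_natCast]
  have h2 : ‖τ ((u : 𝓞 H) : H) - 1‖ ≤ 1 / 8 := by
    rw [h0, norm_mul, norm_pow, norm_p]
    have h4 := norm_emb_le τ v
    have h5 : ((p : ℝ)⁻¹) ≤ 2⁻¹ := by
      apply inv_anti₀ (by norm_num)
      exact_mod_cast hpf.out.two_le
    have h6 : ((p : ℝ)⁻¹) ^ 4 ≤ (2⁻¹) ^ 4 := pow_le_pow_left₀ (by positivity) h5 4
    calc ((p : ℝ)⁻¹) ^ 4 * ‖τ (v : H)‖ ≤ (2⁻¹) ^ 4 * 1 := by gcongr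
      _ ≤ 1 / 8 := by norm_num
  have h3 := dist_le hL h2
  have h4 : 1 + (τ ((u : 𝓞 H) : H) - 1) = τ ((u : 𝓞 H) : H) := by ring
  rwa [h4] at h3

theorem locPow_of_rel (hz : NoTor τ) {L : ℂ_[p] → ℂ_[p]} (hL : IsIwasawaLog p L) {r : ℕ}
    (ε : Fin r → (𝓞 H)ˣ) (a : Fin r → PadicInt p)
    (ha : ∑ i, algebraMap ℚ_[p] ℂ_[p] (a i : ℚ_[p]) * L (τ ((ε i : 𝓞 H) : H)) = 0)
    (m : Fin r → ℤ) (hm : ∀ i, ((p : ℕ) : PadicInt p) ∣ (m i : PadicInt p) - a i) :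
    LocPow τ (((∏ i, ε i ^ m i : (𝓞 H)ˣ) : 𝓞 H) : H) := by
  obtain ⟨n, hn, hnU⟩ := exists_pow_U4 H p
  obtain ⟨N, M₀, hM₀, hnM⟩ := Nat.exists_eq_pow_mul_and_not_dvd hn p hpf.out.ne_one
  choose b hb using hm
  have hseq := fun i => exists_seq (b i)
  choose c hc using hseq
  set u : (𝓞 H)ˣ := ∏ i, ε i ^ m i with hu
  set x : ℕ → (𝓞 H)ˣ := fun k => ∏ i, ε i ^ ((M₀ : ℤ) * c i k) with hx
  set y : ℕ → (𝓞 H)ˣ := fun k => ∏ i, ε i ^ ((M₀ : ℤ) * (m i - p * c i k)) with hy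
  have hyx : ∀ k, u ^ M₀ = y k * x k ^ p := by
    intro k
    rw [hu, hx, hy, ← Finset.prod_pow, ← Finset.prod_pow, ← Finset.prod_mul_distrib]
    refine Finset.prod_congr rfl fun i _ => ?_
    rw [← zpow_natCast, ← zpow_natCast, ← zpow_mul, ← zpow_mul, ← zpow_add]
    congr 1
    ring
  -- the logarithms
  have hj : Continuous (fun x : PadicInt p => algebraMap ℚ_[p] ℂ_[p] (x : ℚ_[p])) :=
    (continuous_algebraMap ℚ_[p] ℂ_[p]).comp continuous_subtype_val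
  have hlog : Tendsto (fun k => L (τ (((y k : (𝓞 H)ˣ) : 𝓞 H) : H))) atTop (𝓝 0) := by
    have h1 : ∀ k, L (τ (((y k : (𝓞 H)ˣ) : 𝓞 H) : H)) = ∑ i, ((M₀ : ℂ_[p]) *
        ((m i : ℂ_[p]) - (p : ℂ_[p]) * algebraMap ℚ_[p] ℂ_[p] (((c i k : ℤ) : PadicInt p) : ℚ_[p]))) *
        L (τ ((ε i : 𝓞 H) : H)) := by
      intro k
      rw [hy, log_prod τ hL]
      refine Finset.sum_congr rfl fun i _ => ?_
      congr 1
      push_cast
      simp
    have h2 : Tendsto (fun k => ∑ i, ((M₀ : ℂ_[p]) *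
        ((m i : ℂ_[p]) - (p : ℂ_[p]) * algebraMap ℚ_[p] ℂ_[p] (((c i k : ℤ) : PadicInt p) : ℚ_[p]))) *
        L (τ ((ε i : 𝓞 H) : H))) atTop (𝓝 (∑ i, ((M₀ : ℂ_[p]) *
        ((m i : ℂ_[p]) - (p : ℂ_[p]) * algebraMap ℚ_[p] ℂ_[p] (b i : ℚ_[p]))) *
        L (τ ((ε i : 𝓞 H) : H)))) := by
      refine tendsto_finsetSum _ fun i _ => ?_
      refine Tendsto.mul_const _ (Tendsto.const_mul _ (Tendsto.const_sub _ (Tendsto.const_mul _ ?_)))
      exact (hj.tendsto (b i)).comp (hc i)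
    have h3 : ∑ i, ((M₀ : ℂ_[p]) *
        ((m i : ℂ_[p]) - (p : ℂ_[p]) * algebraMap ℚ_[p] ℂ_[p] (b i : ℚ_[p]))) *
        L (τ ((ε i : 𝓞 H) : H)) = 0 := by
      have h4 : ∀ i, (m i : ℂ_[p]) - (p : ℂ_[p]) * algebraMap ℚ_[p] ℂ_[p] (b i : ℚ_[p]) =
          algebraMap ℚ_[p] ℂ_[p] (a i : ℚ_[p]) := by
        intro i
        have h5 := congrArg (fun t : PadicInt p => algebraMap ℚ_[p] ℂ_[p] (t : ℚ_[p])) (hb i)
        simp only [PadicInt.coe_sub, PadicInt.coe_mul, map_sub, map_mul, PadicInt.coe_natCast,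
          map_natCast, PadicInt.coe_intCast, map_intCast] at h5
        rw [← h5]
        ring
      simp only [h4, mul_assoc]
      rw [← Finset.mul_sum, ha, mul_zero]
    rw [← h3]
    exact h2.congr fun k => (h1 k).symm
  -- powers of `y k` tend to `1`
  have hy1 : Tendsto (fun k => τ (((y k : (𝓞 H)ˣ) : 𝓞 H) : H) ^ p ^ N) atTop (𝓝 1) := by
    have hyU : ∀ k, y k ^ p ^ N ∈ U4 H p := by
      intro k
      have h1 : y k ^ p ^ N = (∏ i, ε i ^ (m i - p * c i k)) ^ n := by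
        have h0 : y k = (∏ i, ε i ^ (m i - p * c i k)) ^ M₀ := by
          rw [hy, ← Finset.prod_pow]
          refine Finset.prod_congr rfl fun i _ => ?_
          rw [← zpow_natCast, ← zpow_mul]
          congr 1
          ring
        rw [h0, ← pow_mul, hnM, mul_comm]
      rw [h1]
      exact hnU _
    have h1 : ∀ k, ‖τ (((y k : (𝓞 H)ˣ) : 𝓞 H) : H) ^ p ^ N - 1‖ ≤
        2 * ‖((p ^ N : ℕ) : ℂ_[p]) * L (τ (((y k : (𝓞 H)ˣ) : 𝓞 H) : H))‖ := by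
      intro k
      have h2 := dist_U4 τ hL (y k ^ p ^ N) (hyU k)
      rw [log_pow τ hL] at h2
      have h3 : τ (((y k ^ p ^ N : (𝓞 H)ˣ) : 𝓞 H) : H) = τ (((y k : (𝓞 H)ˣ) : 𝓞 H) : H) ^ p ^ N := by
        rw [Units.val_pow_eq_pow_val]
        simp only [map_pow]
      rwa [h3] at h2
    have h2 := ((hlog.const_mul ((p ^ N : ℕ) : ℂ_[p])).norm).const_mul 2
    rw [mul_zero, norm_zero, mul_zero] at h2
    have h3 := squeeze_zero_norm h1 h2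
    have h4 := h3.add_const 1
    rw [zero_add] at h4
    refine h4.congr fun k => ?_
    ring
  -- a limit of the `x k`
  let W : Submodule ℚ_[p] ℂ_[p] := Subalgebra.toSubmodule (Loc p τ).toSubalgebra
  have hfd : FiniteDimensional ℚ_[p] W := fd_Loc τ
  have hprop : ProperSpace W := FiniteDimensional.proper ℚ_[p] W
  let xs : ℕ → W := fun k => ⟨τ (((x k : (𝓞 H)ˣ) : 𝓞 H) : H), mem_Loc τ _⟩
  have hxs : ∀ k, xs k ∈ Metric.closedBall (0 : W) 1 := by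
    intro k
    rw [mem_closedBall_zero_iff]
    exact le_of_eq (norm_emb_unit τ (x k))
  obtain ⟨x', -, φ, hφ, hlim⟩ := (isCompact_closedBall (0 : W) 1).tendsto_subseq hxs
  have hlim' : Tendsto (fun k => τ (((x (φ k) : (𝓞 H)ˣ) : 𝓞 H) : H)) atTop (𝓝 (x' : ℂ_[p])) :=
    (continuous_subtype_val.tendsto x').comp hlim
  have hx'1 : ‖(x' : ℂ_[p])‖ = 1 := by
    refine tendsto_nhds_unique hlim'.norm ?_
    refine tendsto_const_nhds.congr fun k => ?_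
    exact (norm_emb_unit τ (x (φ k))).symm
  have hx'0 : (x' : ℂ_[p]) ≠ 0 := by
    intro h
    rw [h, norm_zero] at hx'1
    exact zero_ne_one hx'1
  set U : ℂ_[p] := τ ((u : 𝓞 H) : H) with hU
  have hUL : U ∈ Loc p τ := mem_Loc τ _
  have hU0 : U ≠ 0 := by
    intro h
    have h1 := norm_emb_unit τ u
    rw [← hU, h, norm_zero] at h1
    exact zero_ne_one h1
  have hyt : ∀ k, τ (((y k : (𝓞 H)ˣ) : 𝓞 H) : H) =
      U ^ M₀ / τ (((x k : (𝓞 H)ˣ) : 𝓞 H) : H) ^ p := by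
    intro k
    have h1 : τ (((x k : (𝓞 H)ˣ) : 𝓞 H) : H) ≠ 0 := by
      intro h
      have h2 := norm_emb_unit τ (x k)
      rw [h, norm_zero] at h2
      exact zero_ne_one h2
    rw [eq_div_iff (pow_ne_zero _ h1)]
    have h2 := congrArg (fun t : (𝓞 H)ˣ => τ ((t : 𝓞 H) : H)) (hyx k)
    simp only [Units.val_mul, Units.val_pow_eq_pow_val, map_mul, map_pow] at h2
    exact h2.symm
  have hylim : Tendsto (fun k => τ (((y (φ k) : (𝓞 H)ˣ) : 𝓞 H) : H)) atTop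
      (𝓝 (U ^ M₀ / (x' : ℂ_[p]) ^ p)) := by
    simp only [hyt]
    exact tendsto_const_nhds.div (hlim'.pow p) (pow_ne_zero _ hx'0)
  have hyp : (U ^ M₀ / (x' : ℂ_[p]) ^ p) ^ p ^ N = 1 :=
    tendsto_nhds_unique (hylim.pow _) (hy1.comp hφ.tendsto_atTop)
  have hroot : ∀ (k : ℕ) (z : ℂ_[p]), z ∈ Loc p τ → z ^ p ^ k = 1 → z = 1 := by
    intro k
    induction k with
    | zero =>
      intro z _ h
      rwa [pow_zero, pow_one] at h
    | succ k ih =>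
      intro z hzL h
      rw [pow_succ, pow_mul] at h
      exact ih z hzL (hz _ (pow_mem hzL _) h)
  have hx'L : (x' : ℂ_[p]) ∈ Loc p τ := x'.2
  have hfin := hroot N _ (div_mem (pow_mem hUL _) (pow_mem hx'L _)) hyp
  rw [div_eq_one_iff_eq (pow_ne_zero _ hx'0)] at hfin
  -- Bezout
  have hcop : Nat.gcd M₀ p = 1 := by
    rw [Nat.gcd_comm]
    exact (Nat.Prime.coprime_iff_not_dvd hpf.out).2 hM₀
  have hbez := Nat.gcd_eq_gcd_ab M₀ p
  rw [hcop] at hbez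
  refine ⟨(x' : ℂ_[p]) ^ Nat.gcdA M₀ p * U ^ Nat.gcdB M₀ p,
    mul_mem (zpow_mem hx'L _) (zpow_mem hUL _), ?_⟩
  rw [mul_pow, ← zpow_natCast, ← zpow_natCast, ← zpow_mul, ← zpow_mul, mul_comm _ (p : ℤ),
    zpow_mul, zpow_natCast, ← hfin, ← zpow_natCast, ← zpow_mul, ← zpow_add₀ hU0,
    mul_comm _ (p : ℤ), ← hbez]
  simp [hU]

end Pool.Agent.K7.H76.SL
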