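import Mathlib
import Pool.Agent.K7.H76.SL.LocPw

/-!
# Descent of relations with coefficients in `ℂ_p`
-/

set_option autoImplicit false

namespace Pool.Agent.K7.H76.SL

open NumberField IsDedekindDomain Filter Topology Module
open Pool.Agent.W289.SL Pool.Agent.Y419.LC.LcpP

variable {p : ℕ} [hpf : Fact p.Prime]

lemma exists_fun0 (p : ℕ) [hpf : Fact p.Prime] {V : Type} [AddCommGroup V] [Module (ZMod p) V]
    (v : V) (hv : v ≠ 0) : ∃ f : V →ₗ[ZMod p] ZMod p, f v = 1 := by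
  obtain ⟨f, hf⟩ : ∃ f : V →ₗ[ZMod p] ZMod p, f v ≠ 0 := by
    by_contra hcon
    push Not at hcon
    exact hv ((Module.forall_dual_apply_eq_zero_iff (ZMod p) v).1 hcon)
  refine ⟨((f v)⁻¹ • f), ?_⟩
  change (f v)⁻¹ * f v = 1
  exact inv_mul_cancel₀ hf

/-- functionals on abelian groups of exponent `p` -/
lemma exists_fun (p : ℕ) [hpf : Fact p.Prime] {V : Type} [AddCommGroup V]
    (h : ∀ x : V, p • x = 0) (v : V) (hv : v ≠ 0) : ∃ f : V →+ ZMod p, f v = 1 := by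
  let i : Module (ZMod p) V := AddCommGroup.zmodModule h
  obtain ⟨f, hf⟩ := @exists_fun0 p hpf V _ i v hv
  exact ⟨f.toAddMonoidHom, hf⟩

/-- a functional on the integers of `ℂ_p` with values in the prime field -/
theorem exists_psi (p : ℕ) [hpf : Fact p.Prime] : ∃ ψ : ℂ_[p] → ZMod p, ψ 1 = 1 ∧
    (∀ x y : ℂ_[p], ‖x‖ ≤ 1 → ‖y‖ ≤ 1 → ψ (x + y) = ψ x + ψ y) ∧ ∀ x : ℂ_[p], ‖x‖ < 1 → ψ x = 0 := by
  classical
  let O : AddSubgroup ℂ_[p] :=
    { carrier := {x | ‖x‖ ≤ 1}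
      add_mem' := fun {a b} ha hb =>
        (IsUltrametricDist.norm_add_le_max a b).trans (max_le ha hb)
      zero_mem' := by
        change ‖(0 : ℂ_[p])‖ ≤ 1
        rw [norm_zero]
        exact zero_le_one
      neg_mem' := by
        intro x hx
        change ‖-x‖ ≤ 1
        rw [norm_neg]
        exact hx }
  let m : AddSubgroup O :=
    { carrier := {x | ‖(x : ℂ_[p])‖ < 1}
      add_mem' := fun {a b} ha hb =>
        lt_of_le_of_lt (IsUltrametricDist.norm_add_le_max (a : ℂ_[p]) b) (max_lt ha hb)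
      zero_mem' := by
        change ‖(0 : ℂ_[p])‖ < 1
        rw [norm_zero]
        exact zero_lt_one
      neg_mem' := by
        intro x hx
        change ‖-(x : ℂ_[p])‖ < 1
        rw [norm_neg]
        exact hx }
  have hpQ : ∀ x : O ⧸ m, p • x = 0 := by
    intro x
    induction x using QuotientAddGroup.induction_on with
    | H x =>
      rw [← QuotientAddGroup.mk_nsmul, QuotientAddGroup.eq_zero_iff]
      change ‖((p • x : O) : ℂ_[p])‖ < 1
      have h1 : ((p • x : O) : ℂ_[p]) = ((p : ℕ) : ℂ_[p]) * (x : ℂ_[p]) := by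
        rw [← nsmul_eq_mul]
        rfl
      rw [h1, norm_mul, norm_p]
      have h2 : ‖(x : ℂ_[p])‖ ≤ 1 := x.2
      have h3 : (p : ℝ)⁻¹ < 1 := inv_lt_one_of_one_lt₀ (by exact_mod_cast hpf.out.one_lt)
      calc (p : ℝ)⁻¹ * ‖(x : ℂ_[p])‖ ≤ (p : ℝ)⁻¹ * 1 := by gcongr
        _ < 1 := by rw [mul_one]; exact h3
  let one : O := ⟨1, by change ‖(1 : ℂ_[p])‖ ≤ 1; rw [norm_one]⟩
  have hone : ((one : O) : O ⧸ m) ≠ 0 := by
    rw [Ne, QuotientAddGroup.eq_zero_iff]
    intro h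
    have h1 : ‖(1 : ℂ_[p])‖ < 1 := h
    rw [norm_one] at h1
    exact lt_irrefl _ h1
  obtain ⟨f, hf⟩ := exists_fun p hpQ _ hone
  refine ⟨fun x => if hx : ‖x‖ ≤ 1 then f ((⟨x, hx⟩ : O) : O ⧸ m) else 0, ?_, ?_, ?_⟩
  · have h1 : ‖(1 : ℂ_[p])‖ ≤ 1 := by rw [norm_one]
    simp only [h1, dif_pos]
    exact hf
  · intro x y hx hy
    have hxy : ‖x + y‖ ≤ 1 := (IsUltrametricDist.norm_add_le_max x y).trans (max_le hx hy)
    simp only [hx, hy, hxy, dif_pos]
    have h1 : ((⟨x + y, hxy⟩ : O) : O ⧸ m) = ((⟨x, hx⟩ : O) : O ⧸ m) + ((⟨y, hy⟩ : O) : O ⧸ m) := rfl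
    rw [h1, map_add]
  · intro x hx
    simp only [hx.le, dif_pos]
    have h1 : ((⟨x, hx.le⟩ : O) : O ⧸ m) = 0 := by
      rw [QuotientAddGroup.eq_zero_iff]
      exact hx
    rw [h1, map_zero]

/-- lifting `ψ` to a `ℤ_p`-linear functional on a finitely generated module -/
theorem exists_Phi (ψ : ℂ_[p] → ZMod p)
    (hadd : ∀ x y : ℂ_[p], ‖x‖ ≤ 1 → ‖y‖ ≤ 1 → ψ (x + y) = ψ x + ψ y)
    (hlt : ∀ x : ℂ_[p], ‖x‖ < 1 → ψ x = 0) {r : ℕ} (w : Fin r → ℂ_[p]) (hw : ∀ i, ‖w i‖ ≤ 1) :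
    ∃ a : Fin r → PadicInt p, (∀ i, PadicInt.toZMod (a i) = ψ (w i)) ∧
      ∀ c : Fin r → PadicInt p, ∑ i, algebraMap ℚ_[p] ℂ_[p] (c i : ℚ_[p]) * w i = 0 →
        ∑ i, c i * a i = 0 := by
  classical
  let _ : Module (PadicInt p) ℂ_[p] := Module.compHom ℂ_[p] (algebraMap (PadicInt p) ℚ_[p])
  have hsm : ∀ (c : PadicInt p) (x : ℂ_[p]), c • x = algebraMap ℚ_[p] ℂ_[p] (c : ℚ_[p]) * x := by
    intro c x
    rw [← Algebra.smul_def]
    rfl
  let _ : Module (PadicInt p) (ZMod p) := Module.compHom (ZMod p) (PadicInt.toZMod (p := p))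
  have hsm2 : ∀ (c : PadicInt p) (x : ZMod p), c • x = PadicInt.toZMod c * x := fun c x => rfl
  set B : Submodule (PadicInt p) ℂ_[p] := Submodule.span (PadicInt p) (Set.range w) with hB
  have hc1 : ∀ c : PadicInt p, ‖algebraMap ℚ_[p] ℂ_[p] (c : ℚ_[p])‖ ≤ 1 := by
    intro c
    rw [norm_algebraMap']
    exact c.2
  have hB1 : ∀ b ∈ B, ‖b‖ ≤ 1 := by
    intro b hb
    induction hb using Submodule.span_induction with
    | mem x hx =>
      obtain ⟨i, rfl⟩ := hx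
      exact hw i
    | zero => rw [norm_zero]; exact zero_le_one
    | add x y _ _ hx hy => exact (IsUltrametricDist.norm_add_le_max x y).trans (max_le hx hy)
    | smul c x _ hx =>
      calc ‖c • x‖ = ‖algebraMap ℚ_[p] ℂ_[p] (c : ℚ_[p]) * x‖ := congrArg norm (hsm c x)
        _ = ‖algebraMap ℚ_[p] ℂ_[p] (c : ℚ_[p])‖ * ‖x‖ := norm_mul _ _
        _ ≤ (1 : ℝ) * 1 := by gcongr; exact hc1 c
        _ = 1 := one_mul 1
  have hψn : ∀ (n : ℕ) (x : ℂ_[p]), ‖x‖ ≤ 1 → ψ ((n : ℂ_[p]) * x) = (n : ZMod p) * ψ x := by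
    intro n x hx
    induction n with
    | zero =>
      have h0 : ψ 0 = 0 := hlt 0 (by rw [norm_zero]; exact one_pos)
      simp [h0]
    | succ n ih =>
      have h1 : ((n + 1 : ℕ) : ℂ_[p]) * x = (n : ℂ_[p]) * x + x := by push_cast; ring
      have h2 : ‖(n : ℂ_[p]) * x‖ ≤ 1 := by
        rw [norm_mul]
        have h3 : ‖(n : ℂ_[p])‖ ≤ 1 := by
          have := norm_intCast_le (p := p) (n : ℤ)
          simpa using this
        calc _ ≤ (1 : ℝ) * 1 := by gcongr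
          _ = 1 := one_mul 1
      rw [h1, hadd _ _ h2 hx, ih]
      push_cast
      ring
  have hψs : ∀ (c : PadicInt p) (x : ℂ_[p]), ‖x‖ ≤ 1 → ψ (c • x) = PadicInt.toZMod c * ψ x := by
    intro c x hx
    obtain ⟨d, hd⟩ : ((p : ℕ) : PadicInt p) ∣ c - (PadicInt.zmodRepr c : PadicInt p) := by
      have h1 := PadicInt.sub_zmodRepr_mem c
      rw [PadicInt.maximalIdeal_eq_span_p, Ideal.mem_span_singleton] at h1
      exact h1
    have hc : c = (PadicInt.zmodRepr c : PadicInt p) + p * d := by rw [← hd]; ring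
    have h2 : c • x = ((PadicInt.zmodRepr c : ℕ) : ℂ_[p]) * x +
        ((p : ℕ) : ℂ_[p]) * (algebraMap ℚ_[p] ℂ_[p] (d : ℚ_[p]) * x) := by
      have hcq : (c : ℚ_[p]) = ((PadicInt.zmodRepr c : ℕ) : ℚ_[p]) + (p : ℚ_[p]) * (d : ℚ_[p]) := by
        have h0 := congrArg (fun t : PadicInt p => (t : ℚ_[p])) hc
        simp only [PadicInt.coe_add, PadicInt.coe_mul, PadicInt.coe_natCast] at h0
        exact h0
      rw [hsm, hcq, map_add, map_mul, map_natCast, map_natCast]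
      ring
    have h3 : ‖((p : ℕ) : ℂ_[p]) * (algebraMap ℚ_[p] ℂ_[p] (d : ℚ_[p]) * x)‖ < 1 := by
      rw [norm_mul, norm_mul, norm_p]
      have h5 : (p : ℝ)⁻¹ < 1 := inv_lt_one_of_one_lt₀ (by exact_mod_cast hpf.out.one_lt)
      have h6 := hc1 d
      calc (p : ℝ)⁻¹ * (‖algebraMap ℚ_[p] ℂ_[p] (d : ℚ_[p])‖ * ‖x‖) ≤ (p : ℝ)⁻¹ * (1 * 1) := by
            gcongr
        _ < 1 := by rw [mul_one, mul_one]; exact h5
    have h4 : ‖((PadicInt.zmodRepr c : ℕ) : ℂ_[p]) * x‖ ≤ 1 := by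
      rw [norm_mul]
      have h5 : ‖((PadicInt.zmodRepr c : ℕ) : ℂ_[p])‖ ≤ 1 := by
        have := norm_intCast_le (p := p) ((PadicInt.zmodRepr c : ℕ) : ℤ)
        simpa using this
      calc _ ≤ (1 : ℝ) * 1 := by gcongr
        _ = 1 := one_mul 1
    rw [h2, hadd _ _ h4 h3.le, hlt _ h3, add_zero, hψn _ _ hx]
    congr 1
  let ψB : B →ₗ[PadicInt p] ZMod p :=
    { toFun := fun b => ψ b
      map_add' := fun x y => hadd _ _ (hB1 _ x.2) (hB1 _ y.2)
      map_smul' := fun c x => hψs c _ (hB1 _ x.2) }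
  let π : PadicInt p →ₗ[PadicInt p] ZMod p :=
    { toFun := fun c => PadicInt.toZMod c
      map_add' := fun x y => map_add _ _ _
      map_smul' := fun c x => by
        rw [hsm2, smul_eq_mul, map_mul]
        rfl }
  have hπ : Function.Surjective π := ZMod.ringHom_surjective (PadicInt.toZMod (p := p))
  have hfin : Module.Finite (PadicInt p) B := by
    rw [hB]
    exact Module.Finite.span_of_finite _ (Set.finite_range w)
  have htf : Module.IsTorsionFree (PadicInt p) B := by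
    constructor
    intro c hc x y hxy
    have hc0 : c ≠ 0 := hc.ne_zero
    have h1 : c • (x : ℂ_[p]) = c • (y : ℂ_[p]) := congrArg (fun t : B => (t : ℂ_[p])) hxy
    rw [hsm, hsm] at h1
    apply Subtype.ext
    refine mul_left_cancel₀ ?_ h1
    rw [Ne, map_eq_zero]
    intro h
    exact hc0 (PadicInt.ext h)
  have hfree : Module.Free (PadicInt p) B := Module.free_of_finite_type_torsion_free'
  obtain ⟨Φ, hΦ⟩ := Module.projective_lifting_property π ψB hπ
  have hwB : ∀ i, w i ∈ B := fun i => Submodule.subset_span ⟨i, rfl⟩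
  refine ⟨fun i => Φ ⟨w i, hwB i⟩, ?_, ?_⟩
  · intro i
    exact congrArg (fun f : B →ₗ[PadicInt p] ZMod p => f ⟨w i, hwB i⟩) hΦ
  · intro c hc
    have h1 : ∑ i, c i • (⟨w i, hwB i⟩ : B) = 0 := by
      apply Subtype.ext
      push_cast
      rw [← hc]
      refine Finset.sum_congr rfl fun i _ => ?_
      exact hsm _ _
    have h2 := congrArg Φ h1
    rw [map_sum, map_zero] at h2
    rw [← h2]
    refine Finset.sum_congr rfl fun i _ => ?_
    rw [map_smul, smul_eq_mul]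

end Pool.Agent.K7.H76.SL
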