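import Mathlib
import Pool.Agent.K7.H76.SL.Desc

/-!
# Units attached to elements of the kernel of the regulator
-/

set_option autoImplicit false

namespace Pool.Agent.K7.H76.SL

open NumberField IsDedekindDomain Filter Topology Module
open Pool.Agent.W289.SL Pool.Agent.Y419.LC.LcpP

variable {p : ℕ} [hpf : Fact p.Prime]

/-- the matrix of the embeddings is invertible -/
lemma emb_inj {M : IntermediateField ℚ_[p] ℂ_[p]} [FiniteDimensional ℚ_[p] M] {κ : Type} [Fintype κ]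
    (b : Basis κ ℚ_[p] M) (t : κ → ℂ_[p])
    (h : ∀ s : M →ₐ[ℚ_[p]] ℂ_[p], ∑ k, t k * s (b k) = 0) : t = 0 := by
  classical
  have hcard : Fintype.card κ = Fintype.card (M →ₐ[ℚ_[p]] ℂ_[p]) := by
    rw [AlgHom.card ℚ_[p] M ℂ_[p]]
    exact (Module.finrank_eq_card_basis b).symm
  let e : κ ≃ (M →ₐ[ℚ_[p]] ℂ_[p]) := Fintype.equivOfCardEq hcard
  set A : Matrix κ κ ℂ_[p] := Algebra.embeddingsMatrixReindex ℚ_[p] ℂ_[p] b e with hA
  have hdet : A.det ≠ 0 := by
    intro h0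
    have h1 := Algebra.discr_eq_det_embeddingsMatrixReindex_pow_two ℚ_[p] ℂ_[p] b e
    rw [← hA, h0] at h1
    have h2 := Algebra.discr_not_zero_of_basis ℚ_[p] b
    apply h2
    apply (algebraMap ℚ_[p] ℂ_[p]).injective
    rw [h1, map_zero]
    norm_num
  have h1 : Matrix.vecMul t A = 0 := by
    funext j
    exact h (e j)
  exact Matrix.eq_zero_of_vecMul_eq_zero hdet h1

lemma exists_scale (κ : Type) [Finite κ] (c : κ → ℚ_[p]) :
    ∃ N : ℕ, ∀ i, ‖((p : ℕ) : ℚ_[p]) ^ N * c i‖ ≤ 1 := by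
  have h1 : ∀ i, ∀ᶠ N : ℕ in atTop, ‖((p : ℕ) : ℚ_[p]) ^ N * c i‖ ≤ 1 := by
    intro i
    have h2 : Tendsto (fun N : ℕ => ((p : ℕ) : ℚ_[p]) ^ N * c i) atTop (𝓝 (0 * c i)) := by
      refine Tendsto.mul_const _ ?_
      apply tendsto_pow_atTop_nhds_zero_of_norm_lt_one
      exact Padic.norm_p_lt_one
    rw [zero_mul] at h2
    have h3 := h2.norm
    rw [norm_zero] at h3
    exact (h3.eventually (gt_mem_nhds one_pos)).mono fun N h => h.le
  have h2 := Filter.eventually_all.2 h1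
  exact h2.exists

variable {K H : Type} [Field K] [NumberField K] [Field H] [NumberField H] [Algebra K H]

/-- the embeddings above `S` are stable -/
lemma compS_mem {S : Set (K →+* ℂ_[p])} (hS : PlaceStable S) {τ : H →+* ℂ_[p]} (hτ : τ ∈ upS H S)
    (s : Loc p τ →ₐ[ℚ_[p]] ℂ_[p]) : compS τ s ∈ upS H S := by
  refine hS _ hτ _ fun x => ?_
  exact compS_place τ s (algebraMap (𝓞 K) (𝓞 H) x)

theorem rel_desc {S : Set (K →+* ℂ_[p])} (hS : PlaceStable S)
    {L : ℂ_[p] → ℂ_[p]} (hL : IsIwasawaLog p L) {r : ℕ}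
    (ε : Fin r → (𝓞 H)ˣ) (w : Fin r → ℂ_[p]) (hw : ∀ i, ‖w i‖ ≤ 1)
    (hrel : ∀ τ ∈ upS H S, ∑ i, w i * L (τ ((ε i : 𝓞 H) : H)) = 0) (ψ : ℂ_[p] → ZMod p)
    (hadd : ∀ x y : ℂ_[p], ‖x‖ ≤ 1 → ‖y‖ ≤ 1 → ψ (x + y) = ψ x + ψ y)
    (hlt : ∀ x : ℂ_[p], ‖x‖ < 1 → ψ x = 0) (m : Fin r → ℤ) (hm : ∀ i, (m i : ZMod p) = ψ (w i))
    {τ : H →+* ℂ_[p]} (hτ : τ ∈ upS H S) (hz : NoTor τ) :
    LocPow τ (((∏ i, ε i ^ m i : (𝓞 H)ˣ) : 𝓞 H) : H) := by
  classical
  obtain ⟨a, ha, hΦ⟩ := exists_Phi ψ hadd hlt w hw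
  refine locPow_of_rel τ hz hL ε a ?_ m ?_
  · -- the relation
    set b := Module.finBasis ℚ_[p] (Loc p τ) with hb
    have hlm := fun i => log_mem τ hL (ε i)
    choose hmem hs using hlm
    set x : Fin r → Loc p τ := fun i => ⟨L (τ ((ε i : 𝓞 H) : H)), hmem i⟩ with hx
    have hxs : ∀ (s : Loc p τ →ₐ[ℚ_[p]] ℂ_[p]) (i : Fin r),
        s (x i) = ∑ k, algebraMap ℚ_[p] ℂ_[p] (b.repr (x i) k) * s (b k) := by
      intro s i
      conv_lhs => rw [← b.sum_repr (x i)]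
      rw [map_sum]
      refine Finset.sum_congr rfl fun k _ => ?_
      rw [Algebra.smul_def, map_mul, AlgHom.commutes]
    have hcoef : (fun k => ∑ i, w i * algebraMap ℚ_[p] ℂ_[p] (b.repr (x i) k)) = 0 := by
      apply emb_inj b
      intro s
      have h1 := hrel _ (compS_mem hS hτ s)
      have h2 : ∀ i, L (compS τ s ((ε i : 𝓞 H) : H)) =
          ∑ k, algebraMap ℚ_[p] ℂ_[p] (b.repr (x i) k) * s (b k) := by
        intro i
        rw [← hxs, ← hs i s]
      rw [← h1]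
      simp only [h2, Finset.mul_sum, Finset.sum_mul]
      rw [Finset.sum_comm]
      refine Finset.sum_congr rfl fun i _ => Finset.sum_congr rfl fun k _ => ?_
      ring
    have hcoef2 : ∀ k, ∑ i, (a i : ℚ_[p]) * b.repr (x i) k = 0 := by
      intro k
      obtain ⟨N, hN⟩ := exists_scale (Fin r) (fun i => b.repr (x i) k)
      obtain ⟨c', hc'⟩ : ∃ c' : Fin r → PadicInt p, ∀ i,
          (c' i : ℚ_[p]) = ((p : ℕ) : ℚ_[p]) ^ N * b.repr (x i) k :=
        ⟨fun i => ⟨((p : ℕ) : ℚ_[p]) ^ N * b.repr (x i) k, hN i⟩, fun i => rfl⟩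
      have h1 := hΦ c' (by
        have h2 := congrFun hcoef k
        simp only [Pi.zero_apply] at h2
        simp only [hc', map_mul, map_pow, map_natCast]
        have h3 : ∑ i, ((p : ℕ) : ℂ_[p]) ^ N * algebraMap ℚ_[p] ℂ_[p] (b.repr (x i) k) * w i =
            ((p : ℕ) : ℂ_[p]) ^ N * ∑ i, w i * algebraMap ℚ_[p] ℂ_[p] (b.repr (x i) k) := by
          rw [Finset.mul_sum]
          refine Finset.sum_congr rfl fun i _ => ?_
          ring
        rw [h3, h2, mul_zero])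
      have h2 : ∑ i, ((p : ℕ) : ℚ_[p]) ^ N * b.repr (x i) k * (a i : ℚ_[p]) = 0 := by
        have h5 : ((∑ i, c' i * a i : PadicInt p) : ℚ_[p]) = 0 := by
          rw [h1]
          rfl
        rw [PadicInt.coe_sum] at h5
        rw [← h5]
        refine Finset.sum_congr rfl fun i _ => ?_
        rw [PadicInt.coe_mul, hc']
      have h3 : ∑ i, ((p : ℕ) : ℚ_[p]) ^ N * b.repr (x i) k * (a i : ℚ_[p]) =
          ((p : ℕ) : ℚ_[p]) ^ N * ∑ i, (a i : ℚ_[p]) * b.repr (x i) k := by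
        rw [Finset.mul_sum]
        refine Finset.sum_congr rfl fun i _ => ?_
        ring
      rw [h3] at h2
      rcases mul_eq_zero.1 h2 with h4 | h4
      · exfalso
        have h5 : ((p : ℕ) : ℚ_[p]) ≠ 0 := by exact_mod_cast hpf.out.ne_zero
        exact pow_ne_zero _ h5 h4
      · exact h4
    have h3 : ∑ i, (a i : ℚ_[p]) • x i = 0 := by
      have h4 : ∀ i, x i = ∑ k, b.repr (x i) k • b k := fun i => (b.sum_repr (x i)).symm
      have h5 : ∑ i, (a i : ℚ_[p]) • x i = ∑ i, ∑ k, ((a i : ℚ_[p]) * b.repr (x i) k) • b k := by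
        refine Finset.sum_congr rfl fun i _ => ?_
        conv_lhs => rw [h4 i]
        rw [Finset.smul_sum]
        refine Finset.sum_congr rfl fun k _ => ?_
        rw [smul_smul]
      rw [h5, Finset.sum_comm]
      refine Finset.sum_eq_zero fun k _ => ?_
      rw [← Finset.sum_smul, hcoef2 k, zero_smul]
    have h4 : ((∑ i, (a i : ℚ_[p]) • x i : Loc p τ) : ℂ_[p]) = 0 := by
      rw [h3]
      rfl
    rw [← h4, AddSubmonoidClass.coe_finsetSum]
    refine Finset.sum_congr rfl fun i _ => ?_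
    rw [Algebra.smul_def]
    rfl
  · intro i
    have h1 : PadicInt.toZMod ((m i : PadicInt p) - a i) = 0 := by
      rw [map_sub, map_intCast, ha, hm, sub_self]
    have h2 : ((m i : PadicInt p) - a i) ∈ RingHom.ker (PadicInt.toZMod (p := p)) := h1
    rw [PadicInt.ker_toZMod, PadicInt.maximalIdeal_eq_span_p, Ideal.mem_span_singleton] at h2
    exact h2

end Pool.Agent.K7.H76.SL
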