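import Mathlib
import Pool.Agent.K7.H76.SL.Full
import Pool.Agent.K7.H76.SL.Rel
import Pool.Agent.K7.H76.SL.Ech
import Pool.Agent.K7.H76.SL.Coord

/-!
# The bound for the defect
-/

set_option autoImplicit false

namespace Pool.Agent.K7.H76.SL

open NumberField IsDedekindDomain Module TensorProduct
open Pool.Agent.W289.SL Pool.Agent.Y419.LC.LcpP

variable {p : ℕ} [hpf : Fact p.Prime]

section

variable {H : Type} [Field H] [NumberField H]

/-- units as elements of `Hˣ` -/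
noncomputable def uH (H : Type) [Field H] [NumberField H] : (𝓞 H)ˣ →* Hˣ :=
  Units.map (algebraMap (𝓞 H) H).toMonoidHom

lemma uH_coe (u : (𝓞 H)ˣ) : ((uH H u : Hˣ) : H) = ((u : 𝓞 H) : H) := rfl

lemma uH_injective : Function.Injective (uH H) := by
  intro u v h
  have h1 : ((u : 𝓞 H) : H) = ((v : 𝓞 H) : H) := congrArg (fun t : Hˣ => (t : H)) h
  exact Units.ext (RingOfIntegers.ext h1)

lemma val_unit (w : HeightOneSpectrum (𝓞 H)) (u : (𝓞 H)ˣ) : w.valuation H ((u : 𝓞 H) : H) = 1 := by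
  have h1 : w.valuation H ((u : 𝓞 H) : H) ≤ 1 := w.valuation_le_one (u : 𝓞 H)
  have h2 : w.valuation H (((u⁻¹ : (𝓞 H)ˣ) : 𝓞 H) : H) ≤ 1 := w.valuation_le_one _
  have h3 : w.valuation H ((u : 𝓞 H) : H) * w.valuation H (((u⁻¹ : (𝓞 H)ˣ) : 𝓞 H) : H) = 1 := by
    rw [← map_mul, RingOfIntegers.coe_eq_algebraMap, RingOfIntegers.coe_eq_algebraMap, ← map_mul,
      Units.mul_inv, map_one, map_one]
  refine le_antisymm h1 ?_
  calc (1 : WithZero (Multiplicative ℤ)) = _ := h3.symm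
    _ ≤ w.valuation H ((u : 𝓞 H) : H) * 1 := mul_le_mul_right h2 _
    _ = _ := mul_one _

/-- a root of unity is a `p`-th power -/
lemma torsion_pow (hno : ∀ y : H, y ^ p = 1 → y = 1) {ζ : (𝓞 H)ˣ} (hζ : ζ ∈ Units.torsion H) :
    ∃ ξ : (𝓞 H)ˣ, ζ = ξ ^ p := by
  have hfo : IsOfFinOrder ζ := hζ
  have hcop : Nat.Coprime p (orderOf ζ) := by
    rw [hpf.out.coprime_iff_not_dvd]
    rintro ⟨k, hk⟩
    have hpos : 0 < orderOf ζ := hfo.orderOf_pos
    have hk0 : 0 < k := by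
      rcases Nat.eq_zero_or_pos k with h | h
      · rw [h, mul_zero] at hk
        omega
      · exact h
    have h1 : (ζ ^ k) ^ p = 1 := by
      rw [← pow_mul, mul_comm, ← hk, pow_orderOf_eq_one]
    have h2 : ζ ^ k = 1 := by
      apply uH_injective
      apply Units.ext
      rw [map_one, Units.val_one]
      apply hno
      rw [← Units.val_pow_eq_pow_val, ← map_pow, h1, map_one, Units.val_one]
    have h3 := orderOf_dvd_of_pow_eq_one h2
    have h4 := Nat.le_of_dvd hk0 h3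
    rw [hk] at h4
    have := hpf.out.two_le
    nlinarith
  obtain ⟨m, hm⟩ := exists_pow_eq_self_of_coprime hcop
  refine ⟨ζ ^ m, ?_⟩
  rw [← pow_mul, mul_comm, pow_mul, hm]

/-- a `p`-th root of a unit is a unit -/
lemma root_unit (u : (𝓞 H)ˣ) (d : Hˣ) (h : uH H u = d ^ p) : ∃ δ : (𝓞 H)ˣ, uH H δ = d := by
  have hint : ∀ (v : (𝓞 H)ˣ) (e : Hˣ), uH H v = e ^ p → IsIntegral ℤ (e : H) := by
    intro v e he
    have h1 : ((v : 𝓞 H) : H) = (e : H) ^ p := by
      rw [← uH_coe, he, Units.val_pow_eq_pow_val]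
    have h2 : IsIntegral ℤ ((e : H) ^ p) := by
      rw [← h1]
      exact RingOfIntegers.isIntegral_coe _
    exact IsIntegral.of_pow hpf.out.pos h2
  have h1 := hint u d h
  have h2 := hint u⁻¹ d⁻¹ (by rw [map_inv, h, inv_pow])
  refine ⟨⟨⟨(d : H), h1⟩, ⟨((d⁻¹ : Hˣ) : H), h2⟩, ?_, ?_⟩, ?_⟩
  · apply RingOfIntegers.ext
    change (d : H) * ((d⁻¹ : Hˣ) : H) = 1
    exact d.mul_inv
  · apply RingOfIntegers.ext
    change ((d⁻¹ : Hˣ) : H) * (d : H) = 1
    exact d.inv_mul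
  · exact Units.ext rfl

end

lemma locPow_mul {K : Type} [Field K] {σ : K →+* ℂ_[p]} {x y : K} (hx : LocPow σ x)
    (hy : LocPow σ y) : LocPow σ (x * y) := by
  obtain ⟨z, hz, hzx⟩ := hx
  obtain ⟨z', hz', hzy⟩ := hy
  exact ⟨z * z', mul_mem hz hz', by rw [mul_pow, hzx, hzy, map_mul]⟩

section main

variable {K H : Type} [Field K] [NumberField K] [Field H] [NumberField H] [Algebra K H]

/-- embeddings extend -/
lemma exists_ext (σ : K →+* ℂ_[p]) : ∃ τ : H →+* ℂ_[p], τ.comp (algebraMap K H) = σ := by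
  let _ : Algebra K ℂ_[p] := σ.toAlgebra
  have : Algebra.IsAlgebraic K H := Algebra.IsAlgebraic.of_finite K H
  let f : H →ₐ[K] ℂ_[p] := IsAlgClosed.lift
  exact ⟨f, f.comp_algebraMap⟩

lemma unit_mem_VS {S : Set (K →+* ℂ_[p])} {S₀ : Set (HeightOneSpectrum (𝓞 K))} (u : (𝓞 H)ˣ)
    (h : ∀ τ ∈ upS H S, LocPow τ ((u : 𝓞 H) : H)) : uH H u ∈ VS (upS H S) (up0 H S₀) := by
  refine ⟨h, fun w _ _ => ⟨0, ?_⟩⟩
  rw [mul_zero, WithZero.exp_zero]
  exact val_unit w u

lemma smul_uH (g : H ≃ₐ[K] H) (u : (𝓞 H)ˣ) :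
    g • uH H u = uH H (Additive.toMul (unitHom (g : H →+* H) (Additive.ofMul u))) := by
  apply Units.ext
  rfl

variable [IsGalois K H]

/-- **The bound for the defect.** -/
theorem defect_bound (hG : ∃ n : ℕ, Nat.card (H ≃ₐ[K] H) = p ^ n) {S : Set (K →+* ℂ_[p])}
    (hS : PlaceStable S) (hSne : S.Nonempty) (hNT : ∀ σ ∈ S, NoTor σ)
    {S₀ : Set (HeightOneSpectrum (𝓞 K))}
    (hunr : ∀ v : HeightOneSpectrum (𝓞 K), v ∉ S₀ → (∀ σ ∈ S, ¬ Induced v σ) → Unr H v)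
    (v : ℕ) (hV : VBound S S₀ v) (χ : (H ≃ₐ[K] H) →* ℂ_[p]ˣ) (L : ℂ_[p] → ℂ_[p])
    (hL : IsIwasawaLog p L) (x : Fin (v + 1) → UM p H)
    (hx1 : ∀ i, ∀ g : H ≃ₐ[K] H, actLin p (g : H →+* H) (x i) = ((χ g : ℂ_[p]ˣ) : ℂ_[p]) • x i)
    (hx2 : ∀ i, ∀ σ : H →+* ℂ_[p], σ.comp (algebraMap K H) ∈ S → logLin hL σ (x i) = 0) :
    ¬ LinearIndependent ℂ_[p] x := by
  classical
  intro hind
  have hp := hpf.out
  have hG2 : ∃ n : ℕ, ∀ g : H ≃ₐ[K] H, g ^ p ^ n = 1 := by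
    obtain ⟨n, hn⟩ := hG
    exact ⟨n, fun g => by rw [← hn]; exact pow_card_eq_one'⟩
  obtain ⟨σ₀, hσ₀⟩ := hSne
  obtain ⟨τ₀, hτ₀⟩ := exists_ext (H := H) σ₀
  have hτ₀S : τ₀ ∈ upS H S := by
    change τ₀.comp (algebraMap K H) ∈ S
    rw [hτ₀]
    exact hσ₀
  have hNT' : ∀ τ ∈ upS H S, NoTor τ := fun τ hτ => (loc_aux hG2 τ (hNT _ hτ)).1
  have hno : ∀ y : H, y ^ p = 1 → y = 1 := fun y hy => no_torsion (hNT' τ₀ hτ₀S) y hy
  -- the characters are trivial modulo the maximal ideal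
  have hχ1 : ∀ g, ‖((χ g : ℂ_[p]ˣ) : ℂ_[p])‖ = 1 ∧ ‖((χ g : ℂ_[p]ˣ) : ℂ_[p]) - 1‖ < 1 := by
    intro g
    obtain ⟨n, hn⟩ := hG2
    have h1 : ((χ g : ℂ_[p]ˣ) : ℂ_[p]) ^ p ^ n = 1 := by
      rw [← Units.val_pow_eq_pow_val, ← map_pow, hn, map_one, Units.val_one]
    have h2 : ‖((χ g : ℂ_[p]ˣ) : ℂ_[p])‖ = 1 := by
      have h3 := congrArg norm h1
      rw [norm_pow, norm_one] at h3
      exact (pow_eq_one_iff_of_nonneg (norm_nonneg _) (pow_ne_zero _ hp.ne_zero)).1 h3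
    refine ⟨h2, ?_⟩
    set z : ℂ_[p] := ((χ g : ℂ_[p]ˣ) : ℂ_[p]) - 1 with hz
    have hz1 : ‖z‖ ≤ 1 := by
      rw [hz, sub_eq_add_neg]
      refine (IsUltrametricDist.norm_add_le_max _ _).trans (max_le h2.le ?_)
      rw [norm_neg, norm_one]
    by_contra hcon
    have hzn : ‖z‖ = 1 := le_antisymm hz1 (not_lt.1 hcon)
    -- modulo the maximal ideal
    have key : ∀ k : ℕ, ‖(1 + z) ^ p ^ k - 1 - z ^ p ^ k‖ < 1 := by
      intro k
      have hO : ∀ (a b : ℂ_[p]), ‖a‖ ≤ 1 → ‖b‖ ≤ 1 → ∀ k : ℕ,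
          ‖(a + b) ^ p ^ k - a ^ p ^ k - b ^ p ^ k‖ < 1 := by
        intro a b ha hb k
        let O := (NormedField.valuation (K := ℂ_[p])).integer
        let a' : O := ⟨a, by rw [Valuation.mem_integer_iff]; exact_mod_cast ha⟩
        let b' : O := ⟨b, by rw [Valuation.mem_integer_iff]; exact_mod_cast hb⟩
        obtain ⟨r, hr⟩ := exists_add_pow_prime_pow_eq hp a' b' k
        have h3 : (a + b) ^ p ^ k - a ^ p ^ k - b ^ p ^ k =
            ((p : ℕ) : ℂ_[p]) * (a * b * (r : ℂ_[p])) := by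
          have h4 := congrArg (fun t : O => (t : ℂ_[p])) hr
          change (a + b) ^ p ^ k = a ^ p ^ k + b ^ p ^ k + (p : ℂ_[p]) * a * b * (r : ℂ_[p]) at h4
          rw [h4]
          ring
        have hr1 : ‖(r : ℂ_[p])‖ ≤ 1 := by
          have h5 := r.2
          rw [Valuation.mem_integer_iff] at h5
          exact_mod_cast h5
        rw [h3, norm_mul, norm_mul, norm_mul, norm_p]
        have h5 : (p : ℝ)⁻¹ < 1 := inv_lt_one_of_one_lt₀ (by exact_mod_cast hp.one_lt)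
        calc (p : ℝ)⁻¹ * (‖a‖ * ‖b‖ * ‖(r : ℂ_[p])‖) ≤ (p : ℝ)⁻¹ * (1 * 1 * 1) := by gcongr
          _ < 1 := by rw [mul_one, mul_one, mul_one]; exact h5
      have h4 := hO 1 z (by rw [norm_one]) hz1 k
      rw [one_pow] at h4
      exact h4
    have h3 := key n
    have h4 : (1 : ℂ_[p]) + z = ((χ g : ℂ_[p]ˣ) : ℂ_[p]) := by rw [hz]; ring
    rw [h4, h1, sub_self, zero_sub, norm_neg, norm_pow, hzn, one_pow] at h3
    exact lt_irrefl _ h3
  -- the space
  set r := Units.rank H with hr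
  let Ker : Submodule ℂ_[p] (UM p H) :=
    { carrier := {y | (∀ g : H ≃ₐ[K] H, actLin p (g : H →+* H) y = ((χ g : ℂ_[p]ˣ) : ℂ_[p]) • y) ∧
        ∀ σ : H →+* ℂ_[p], σ.comp (algebraMap K H) ∈ S → logLin hL σ y = 0}
      add_mem' := by
        rintro a b ⟨ha1, ha2⟩ ⟨hb1, hb2⟩
        exact ⟨fun g => by rw [map_add, ha1, hb1, smul_add], fun σ hσ => by
          rw [map_add, ha2 σ hσ, hb2 σ hσ, add_zero]⟩
      zero_mem' := ⟨fun g => by rw [map_zero, smul_zero], fun σ _ => map_zero _⟩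
      smul_mem' := by
        rintro c a ⟨ha1, ha2⟩
        exact ⟨fun g => by rw [map_smul, ha1, smul_comm], fun σ hσ => by
          rw [map_smul, ha2 σ hσ, smul_zero]⟩ }
  let W : Submodule ℂ_[p] (Fin r → ℂ_[p]) := Ker.comap (Th p H)
  have hWdim : v + 1 ≤ finrank ℂ_[p] W := by
    let y : Fin (v + 1) → W := fun j => ⟨fun i => coordLin i (x j), by
      change Th p H _ ∈ Ker
      rw [Th_coord]
      exact ⟨hx1 j, hx2 j⟩⟩
    have hy : LinearIndependent ℂ_[p] y := by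
      have h1 : LinearIndependent ℂ_[p] (fun j => Th p H (y j : Fin r → ℂ_[p])) := by
        have h2 : (fun j => Th p H (y j : Fin r → ℂ_[p])) = x := by
          funext j
          exact Th_coord (x j)
        rw [h2]
        exact hind
      have h3 : (fun j => Th p H (y j : Fin r → ℂ_[p])) = ((Th p H).comp W.subtype) ∘ y := rfl
      rw [h3] at h1
      exact LinearIndependent.of_comp _ h1
    have h2 := hy.fintype_card_le_finrank
    rw [Fintype.card_fin] at h2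
    exact h2
  obtain ⟨ι, w, hwW, hw1, hwι⟩ := echelon W (v + 1) hWdim
  obtain ⟨ψ, hψ1, hψadd, hψlt⟩ := exists_psi p
  have hψ0 : ψ 0 = 0 := hψlt 0 (by rw [norm_zero]; exact one_pos)
  have hψn : ∀ (n : ℕ) (x : ℂ_[p]), ‖x‖ ≤ 1 → ψ ((n : ℂ_[p]) * x) = (n : ZMod p) * ψ x := by
    intro n x hx
    induction n with
    | zero => simp [hψ0]
    | succ n ih =>
      have h1 : ((n + 1 : ℕ) : ℂ_[p]) * x = (n : ℂ_[p]) * x + x := by push_cast; ring
      have h2 : ‖(n : ℂ_[p]) * x‖ ≤ 1 := by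
        rw [norm_mul]
        have h3 : ‖(n : ℂ_[p])‖ ≤ 1 := by
          have := norm_intCast_le (p := p) (n : ℤ)
          simpa using this
        calc _ ≤ (1 : ℝ) * 1 := by gcongr
          _ = 1 := one_mul 1
      rw [h1, hψadd _ _ h2 hx, ih]
      push_cast
      ring
  have hψneg : ∀ x : ℂ_[p], ‖x‖ ≤ 1 → ψ (-x) = -ψ x := by
    intro x hx
    have h1 := hψadd x (-x) hx (by rw [norm_neg]; exact hx)
    rw [add_neg_cancel, hψ0] at h1
    exact (neg_eq_of_add_eq_zero_right h1.symm).symm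
  have hψz : ∀ (n : ℤ) (x : ℂ_[p]), ‖x‖ ≤ 1 → ψ (x * (n : ℂ_[p])) = (n : ZMod p) * ψ x := by
    intro n x hx
    obtain ⟨k, rfl | rfl⟩ := Int.eq_nat_or_neg n
    · rw [mul_comm]
      push_cast
      exact hψn k x hx
    · have h2 : ‖(k : ℂ_[p]) * x‖ ≤ 1 := by
        rw [norm_mul]
        have h3 : ‖(k : ℂ_[p])‖ ≤ 1 := by
          have := norm_intCast_le (p := p) (k : ℤ)
          simpa using this
        calc _ ≤ (1 : ℝ) * 1 := by gcongr
          _ = 1 := one_mul 1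
      have h4 : x * (((-(k : ℤ)) : ℤ) : ℂ_[p]) = -((k : ℂ_[p]) * x) := by push_cast; ring
      rw [h4, hψneg _ h2, hψn k x hx]
      push_cast
      ring
  have hψsum : ∀ (s : Finset (Fin r)) (f : Fin r → ℂ_[p]), (∀ i, ‖f i‖ ≤ 1) →
      ψ (∑ i ∈ s, f i) = ∑ i ∈ s, ψ (f i) ∧ ‖∑ i ∈ s, f i‖ ≤ 1 := by
    intro s f hf
    induction s using Finset.induction_on with
    | empty => simp [hψ0]
    | insert a s ha ih =>
      rw [Finset.sum_insert ha, Finset.sum_insert ha]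
      refine ⟨?_, (IsUltrametricDist.norm_add_le_max _ _).trans (max_le (hf a) ih.2)⟩
      rw [hψadd _ _ (hf a) ih.2, ih.1]
  have hψχ : ∀ (g : H ≃ₐ[K] H) (x : ℂ_[p]), ‖x‖ ≤ 1 → ψ (((χ g : ℂ_[p]ˣ) : ℂ_[p]) * x) = ψ x := by
    intro g x hx
    have h1 : ((χ g : ℂ_[p]ˣ) : ℂ_[p]) * x = x + (((χ g : ℂ_[p]ˣ) : ℂ_[p]) - 1) * x := by ring
    have h2 : ‖(((χ g : ℂ_[p]ˣ) : ℂ_[p]) - 1) * x‖ < 1 := by
      rw [norm_mul]
      calc _ ≤ ‖((χ g : ℂ_[p]ˣ) : ℂ_[p]) - 1‖ * 1 := by gcongr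
        _ < 1 := by rw [mul_one]; exact (hχ1 g).2
    rw [h1, hψadd _ _ hx h2.le, hψlt _ h2, add_zero]
  -- integers
  have hm : ∀ j i, ∃ m : ℤ, (m : ZMod p) = ψ (w j i) :=
    fun j i => ZMod.intCast_surjective _
  choose m hm using hm
  set u : Fin (v + 1) → (𝓞 H)ˣ := fun j => ∏ i, Units.fundSystem H i ^ m j i with hu
  have hwmem : ∀ j, Th p H (w j) ∈ Ker := fun j => hwW j
  have huloc : ∀ j, ∀ τ ∈ upS H S, LocPow τ (((u j : (𝓞 H)ˣ) : 𝓞 H) : H) := by
    intro j τ hτ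
    refine rel_desc hS hL (Units.fundSystem H) (w j) (hw1 j) ?_ ψ hψadd hψlt (m j)
      (fun i => hm j i) hτ (hNT' τ hτ)
    intro τ' hτ'
    rw [← log_Th hL]
    exact (hwmem j).2 τ' hτ'
  have huinv : ∀ j, ∀ g : H ≃ₐ[K] H, ∃ y : (𝓞 H)ˣ,
      Additive.toMul (unitHom (g : H →+* H) (Additive.ofMul (u j))) = u j * y ^ p := by
    intro j g
    set u' := Additive.toMul (unitHom (g : H →+* H) (Additive.ofMul (u j))) with hu'
    have hcf : ∀ k, ∃ e : ℤ, cf H k (Additive.ofMul u') = m j k + p * e := by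
      intro k
      have h1 : cf H k (Additive.ofMul u') =
          ∑ i, m j i * cf H k (unitHom (g : H →+* H) (Additive.ofMul (Units.fundSystem H i))) :=
        cf_unitHom (g : H →+* H) (m j) k
      have h2 : ((cf H k (Additive.ofMul u') - m j k : ℤ) : ZMod p) = 0 := by
        have h3 := (hwmem j).1 g
        have h4 := congrArg (coordLin k) h3
        rw [coord_act, map_smul, coord_Th, smul_eq_mul] at h4
        have h5 := congrArg ψ h4
        rw [hψχ g _ (hw1 j k), (hψsum Finset.univ _ (fun i => by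
          rw [norm_mul]
          have h3 := norm_intCast_le (p := p) (cf H k (unitHom (g : H →+* H)
            (Additive.ofMul (Units.fundSystem H i))))
          calc _ ≤ (1 : ℝ) * 1 := by
                gcongr
                exact hw1 j i
            _ = 1 := one_mul 1)).1] at h5
        rw [h1]
        push_cast
        rw [sub_eq_zero, hm, ← h5]
        refine Finset.sum_congr rfl fun i _ => ?_
        rw [hψz _ _ (hw1 j i), hm, mul_comm]
      rw [ZMod.intCast_zmod_eq_zero_iff_dvd] at h2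
      obtain ⟨e, he⟩ := h2
      exact ⟨e, by linarith⟩
    choose e he using hcf
    obtain ⟨ζ, hζ, hdec⟩ := cf_decomp u'
    obtain ⟨ξ, hξ⟩ := torsion_pow hno hζ
    refine ⟨ξ * ∏ i, Units.fundSystem H i ^ e i, ?_⟩
    have h1 : ∏ i, Units.fundSystem H i ^ cf H i (Additive.ofMul u') =
        u j * (∏ i, Units.fundSystem H i ^ e i) ^ p := by
      rw [hu, ← Finset.prod_pow, ← Finset.prod_mul_distrib]
      refine Finset.prod_congr rfl fun i _ => ?_
      rw [he, zpow_add, mul_comm (p : ℤ), zpow_mul, zpow_natCast]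
    rw [hdec, h1, hξ, mul_pow]
    exact mul_left_comm _ _ _
  -- the products
  obtain ⟨T, hT, hVT⟩ := hV
  set U : (Fin (v + 1) → Fin p) → (𝓞 H)ˣ := fun n => ∏ j, u j ^ (n j : ℕ) with hU
  have hUt : ∀ n, ∃ t ∈ T, ∃ d : Hˣ, uH H (U n) = Units.map (algebraMap K H).toMonoidHom t * d ^ p := by
    intro n
    have hUV : uH H (U n) ∈ VS (upS H S) (up0 H S₀) := by
      rw [hU, map_prod]
      refine Subgroup.prod_mem _ fun j _ => ?_
      rw [map_pow]
      exact Subgroup.pow_mem _ (unit_mem_VS (u j) (huloc j)) _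
    have hUinv : ∀ g : H ≃ₐ[K] H, ∃ y : Hˣ, g • uH H (U n) / uH H (U n) = y ^ p := by
      intro g
      have h1 : ∀ j, ∃ y : Hˣ, g • uH H (u j) = uH H (u j) * y ^ p := by
        intro j
        obtain ⟨y, hy⟩ := huinv j g
        refine ⟨uH H y, ?_⟩
        rw [smul_uH, hy, map_mul, map_pow]
      choose y hy using h1
      refine ⟨∏ j, y j ^ (n j : ℕ), ?_⟩
      rw [hU, map_prod, Finset.smul_prod']
      have h2 : ∏ j, g • uH H (u j ^ (n j : ℕ)) =
          (∏ j, uH H (u j ^ (n j : ℕ))) * (∏ j, y j ^ (n j : ℕ)) ^ p := by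
        rw [← Finset.prod_pow, ← Finset.prod_mul_distrib]
        refine Finset.prod_congr rfl fun j _ => ?_
        rw [map_pow, smul_pow', hy, mul_pow, ← pow_mul, ← pow_mul, mul_comm p]
      rw [h2, mul_div_cancel_left]
    obtain ⟨a, ha, c, hac⟩ := going_up hG2 ⟨τ₀, hτ₀S⟩ hNT (fun σ _ => exists_ext σ) hunr hUV hUinv
    obtain ⟨t, ht, b, hb⟩ := hVT a ha
    refine ⟨t, ht, Units.map (algebraMap K H).toMonoidHom b * c, ?_⟩
    rw [hac, hb, map_mul, map_pow, mul_pow, mul_assoc]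
  choose t ht d hd using hUt
  obtain ⟨n, n', hne, htt⟩ : ∃ n n', n ≠ n' ∧ t n = t n' := by
    have hcard : T.card < (Finset.univ : Finset (Fin (v + 1) → Fin p)).card := by
      rw [Finset.card_univ, Fintype.card_fun, Fintype.card_fin, Fintype.card_fin]
      exact lt_of_le_of_lt hT (Nat.pow_lt_pow_right hp.one_lt (Nat.lt_succ_self v))
    obtain ⟨n, -, n', -, hne, heq⟩ :=
      Finset.exists_ne_map_eq_of_card_lt_of_maps_to hcard (f := t) (fun n _ => ht n)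
    exact ⟨n, n', hne, heq⟩
  have hquot : uH H (U n / U n') = (d n / d n') ^ p := by
    rw [map_div, hd n, hd n', htt, div_pow, mul_div_mul_left_eq_div]
  obtain ⟨δ, hδ⟩ := root_unit _ _ hquot
  have hUδ : U n / U n' = δ ^ p := by
    apply uH_injective
    rw [hquot, map_pow, hδ]
  apply hne
  funext k
  have h1 := congrArg (fun t : (𝓞 H)ˣ => cf H (ι k) (Additive.ofMul t)) hUδ
  have h2 : ∀ n : Fin (v + 1) → Fin p, cf H (ι k) (Additive.ofMul (U n)) =
      ∑ j, (n j : ℤ) * m j (ι k) := by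
    intro n
    rw [hU, ofMul_prod, map_sum]
    refine Finset.sum_congr rfl fun j _ => ?_
    rw [ofMul_pow, map_nsmul, nsmul_eq_mul, hu, cf_prod]
  simp only [ofMul_div, ofMul_pow, map_sub, map_nsmul, h2] at h1
  have h3 := congrArg (fun t : ℤ => (t : ZMod p)) h1
  simp only [nsmul_eq_mul] at h3
  push_cast at h3
  have h4 : ∀ n : Fin (v + 1) → Fin p,
      ∑ j, (((n j : ℕ) : ZMod p)) * ((m j (ι k) : ℤ) : ZMod p) = ((n k : ℕ) : ZMod p) := by
    intro n
    rw [Finset.sum_eq_single k]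
    · rw [hm, hwι, if_pos rfl, hψ1, mul_one]
    · intro j _ hjk
      rw [hm, hwι, if_neg hjk, hψ0, mul_zero]
    · intro h
      exact absurd (Finset.mem_univ k) h
  rw [h4, h4, ZMod.natCast_self, zero_mul, sub_eq_zero] at h3
  have h5 := (ZMod.natCast_eq_natCast_iff' _ _ _).1 h3
  rw [Nat.mod_eq_of_lt (n k).2, Nat.mod_eq_of_lt (n' k).2] at h5
  exact Fin.ext h5

end main

end Pool.Agent.K7.H76.SL
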