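import Mathlib
import Pool.Agent.TH847.LS.Quad

/-!
# The class number of `ℚ(√(1 - 4p))` is less than `p`
-/

set_option autoImplicit false

namespace Pool.Agent.K7.H76.SL

open NumberField Module
open scoped nonZeroDivisors

variable {k : Type} [Field k] [NumberField k]

lemma fin_two_card (h2 : finrank ℚ k = 2) :
    Fintype.card (Module.Free.ChooseBasisIndex ℤ (𝓞 k)) = 2 := by
  rw [← Module.finrank_eq_card_basis (RingOfIntegers.basis k), RingOfIntegers.rank, h2]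

lemma int_inj (a b : ℤ) (h : (a : 𝓞 k) = (b : 𝓞 k)) : a = b := by
  have : CharZero (𝓞 k) := inferInstance
  exact_mod_cast h

/-- the integers are `ℤ + ℤ ω` -/
theorem exists_omega (h2 : finrank ℚ k = 2) : ∃ ω : 𝓞 k, (∀ x : 𝓞 k, ∃ a b : ℤ,
    x = (a : 𝓞 k) + (b : 𝓞 k) * ω) ∧ ∀ a b : ℤ, (a : 𝓞 k) + (b : 𝓞 k) * ω = 0 → b = 0 := by
  let e : Module.Free.ChooseBasisIndex ℤ (𝓞 k) ≃ Fin 2 := Fintype.equivFinOfCardEq (fin_two_card h2)
  let B : Basis (Fin 2) ℤ (𝓞 k) := (RingOfIntegers.basis k).reindex e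
  have hB : ∀ x : 𝓞 k, x = (B.repr x 0 : ℤ) • B 0 + (B.repr x 1 : ℤ) • B 1 := by
    intro x
    conv_lhs => rw [← B.sum_repr x]
    rw [Fin.sum_univ_two]
  set u := B.repr 1 0 with hu
  set v := B.repr 1 1 with hv
  have h1 : (1 : 𝓞 k) = u • B 0 + v • B 1 := hB 1
  have hcop : IsCoprime u v := by
    rw [Int.isCoprime_iff_gcd_eq_one]
    by_contra hcon
    set g := Int.gcd u v with hg
    obtain ⟨u', hu'⟩ : (g : ℤ) ∣ u := Int.gcd_dvd_left _ _
    obtain ⟨v', hv'⟩ : (g : ℤ) ∣ v := Int.gcd_dvd_right _ _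
    have h3 : (1 : 𝓞 k) = (g : 𝓞 k) * (u' • B 0 + v' • B 1) := by
      conv_lhs => rw [h1, hu', hv']
      rw [mul_add, mul_smul, mul_smul]
      simp only [zsmul_eq_mul]
      push_cast
      ring
    have h4 : IsUnit ((g : ℕ) : 𝓞 k) := IsUnit.of_mul_eq_one _ h3.symm
    rw [← Ideal.span_singleton_eq_top, ← Ideal.absNorm_eq_one_iff, Ideal.absNorm_span_natCast,
      RingOfIntegers.rank, h2] at h4
    have h5 : g = 1 := by
      rcases Nat.lt_trichotomy g 1 with h | h | h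
      · have : g = 0 := by omega
        rw [this] at h4
        norm_num at h4
      · exact h
      · nlinarith
    exact hcon h5
  obtain ⟨s, t, hst⟩ := hcop
  set ω : 𝓞 k := (-t) • B 0 + s • B 1 with hω
  have hb0 : B 0 = (s : 𝓞 k) - (v : 𝓞 k) * ω := by
    have h3 : (s : 𝓞 k) = s • (u • B 0 + v • B 1) := by
      rw [← h1, zsmul_eq_mul, mul_one]
    have h4 : (v : 𝓞 k) * ω = v • ((-t) • B 0 + s • B 1) := by rw [hω, ← zsmul_eq_mul]
    rw [h3, h4]
    have h5 : s • (u • B 0 + v • B 1) - v • ((-t) • B 0 + s • B 1) = (s * u + t * v) • B 0 := by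
      simp only [zsmul_eq_mul]
      push_cast
      ring
    rw [h5, hst, one_zsmul]
  have hb1 : B 1 = (t : 𝓞 k) + (u : 𝓞 k) * ω := by
    have h3 : (t : 𝓞 k) = t • (u • B 0 + v • B 1) := by
      rw [← h1, zsmul_eq_mul, mul_one]
    have h4 : (u : 𝓞 k) * ω = u • ((-t) • B 0 + s • B 1) := by rw [hω, ← zsmul_eq_mul]
    rw [h3, h4]
    have h5 : t • (u • B 0 + v • B 1) + u • ((-t) • B 0 + s • B 1) = (s * u + t * v) • B 1 := by
      simp only [zsmul_eq_mul]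
      push_cast
      ring
    rw [h5, hst, one_zsmul]
  refine ⟨ω, ?_, ?_⟩
  · intro x
    refine ⟨B.repr x 0 * s + B.repr x 1 * t, -(B.repr x 0 * v) + B.repr x 1 * u, ?_⟩
    conv_lhs => rw [hB x, hb0, hb1]
    simp only [zsmul_eq_mul]
    push_cast
    ring
  · intro a b hab
    have h3 : (a * u - b * t) • B 0 + (a * v + b * s) • B 1 = 0 := by
      have h4 : (a : 𝓞 k) = a • (u • B 0 + v • B 1) := by
        rw [← h1, zsmul_eq_mul, mul_one]
      rw [h4, hω] at hab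
      rw [← hab]
      simp only [zsmul_eq_mul]
      push_cast
      ring
    have h5 := Fintype.linearIndependent_iff.1 B.linearIndependent ![a * u - b * t, a * v + b * s]
      (by rw [Fin.sum_univ_two]; exact h3)
    have h6 : a * u - b * t = 0 := h5 0
    have h7 : a * v + b * s = 0 := h5 1
    have h8 : b * (s * u + t * v) = 0 := by linear_combination u * h7 - v * h6
    rw [hst, mul_one] at h8
    exact h8

/-- primitive ideals -/
def Prim (I : Ideal (𝓞 k)) : Prop := ∀ m : ℕ, 2 ≤ m → ¬ I ≤ Ideal.span {(m : 𝓞 k)}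

theorem prim_omega (h2 : finrank ℚ k = 2) {ω : 𝓞 k}
    (hω : ∀ x : 𝓞 k, ∃ a b : ℤ, x = (a : 𝓞 k) + (b : 𝓞 k) * ω)
    (hω0 : ∀ a b : ℤ, (a : 𝓞 k) + (b : 𝓞 k) * ω = 0 → b = 0)
    {I : Ideal (𝓞 k)} (hI0 : I ≠ ⊥) (hI : Prim I) : ∃ b : ℤ, ω - (b : 𝓞 k) ∈ I := by
  have huniq : ∀ a b a' b' : ℤ, (a : 𝓞 k) + (b : 𝓞 k) * ω = (a' : 𝓞 k) + (b' : 𝓞 k) * ω →
      a = a' ∧ b = b' := by
    intro a b a' b' h
    have h1 : ((a - a' : ℤ) : 𝓞 k) + ((b - b' : ℤ) : 𝓞 k) * ω = 0 := by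
      push_cast
      linear_combination h
    have h3 := hω0 _ _ h1
    have h4 : b = b' := by omega
    rw [h4] at h
    exact ⟨int_inj _ _ (add_right_cancel h), h4⟩
  obtain ⟨n', t', hωω⟩ := hω (ω * ω)
  -- the ideal of the coefficients of `ω`
  let J : Ideal ℤ :=
    { carrier := {c | ∃ b : ℤ, (b : 𝓞 k) + (c : 𝓞 k) * ω ∈ I}
      add_mem' := by
        rintro c c' ⟨b, hb⟩ ⟨b', hb'⟩
        refine ⟨b + b', ?_⟩
        have := I.add_mem hb hb'
        convert this using 1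
        push_cast
        ring
      zero_mem' := ⟨0, by simp⟩
      smul_mem' := by
        rintro r c ⟨b, hb⟩
        refine ⟨r * b, ?_⟩
        have := I.mul_mem_left (r : 𝓞 k) hb
        convert this using 1
        rw [smul_eq_mul]
        push_cast
        ring }
  obtain ⟨c₀, hc₀⟩ : ∃ c₀ : ℤ, J = Ideal.span {c₀} :=
    (IsPrincipalIdealRing.principal J).principal
  have hmem : ∀ b c : ℤ, (b : 𝓞 k) + (c : 𝓞 k) * ω ∈ I → c₀ ∣ c ∧ c₀ ∣ b := by
    intro b c h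
    have h3 : ∀ b c : ℤ, (b : 𝓞 k) + (c : 𝓞 k) * ω ∈ I → c₀ ∣ c := by
      intro b c h
      have h4 : c ∈ J := ⟨b, h⟩
      rw [hc₀, Ideal.mem_span_singleton] at h4
      exact h4
    refine ⟨h3 b c h, ?_⟩
    have h4 : ((c * n' : ℤ) : 𝓞 k) + ((b + c * t' : ℤ) : 𝓞 k) * ω ∈ I := by
      have h5 := I.mul_mem_left ω h
      convert h5 using 1
      push_cast
      linear_combination (-(c : 𝓞 k)) * hωω
    have h5 := h3 _ _ h4
    have h6 := (h3 b c h).mul_right t'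
    exact (dvd_add_left h6).1 h5
  have hle : I ≤ Ideal.span {((c₀.natAbs : ℕ) : 𝓞 k)} := by
    intro x hx
    obtain ⟨b, c, rfl⟩ := hω x
    obtain ⟨h3, h4⟩ := hmem b c hx
    rw [Ideal.mem_span_singleton]
    have h5 : ((c₀.natAbs : ℕ) : 𝓞 k) ∣ (c : 𝓞 k) := by
      have : (c₀.natAbs : ℤ) ∣ c := Int.natAbs_dvd.2 h3
      obtain ⟨d, hd⟩ := this
      exact ⟨(d : 𝓞 k), by rw [hd, Int.cast_mul, Int.cast_natCast]⟩
    have h6 : ((c₀.natAbs : ℕ) : 𝓞 k) ∣ (b : 𝓞 k) := by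
      have : (c₀.natAbs : ℤ) ∣ b := Int.natAbs_dvd.2 h4
      obtain ⟨d, hd⟩ := this
      exact ⟨(d : 𝓞 k), by rw [hd, Int.cast_mul, Int.cast_natCast]⟩
    exact dvd_add h6 (h5.mul_right _)
  have hc1 : c₀.natAbs = 1 := by
    by_contra hcon
    rcases Nat.lt_or_ge c₀.natAbs 2 with h | h
    · have h3 : c₀.natAbs = 0 := by omega
      rw [h3, Nat.cast_zero, Ideal.span_singleton_zero, le_bot_iff] at hle
      exact hI0 hle
    · exact hI _ h hle
  have h1J : (1 : ℤ) ∈ J := by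
    rw [hc₀, Ideal.mem_span_singleton]
    rw [← Int.natAbs_dvd, hc1]
    exact one_dvd _
  obtain ⟨b, hb⟩ := h1J
  refine ⟨-b, ?_⟩
  convert hb using 1
  push_cast
  ring

/-- integers in a primitive ideal -/
theorem prim_int (h2 : finrank ℚ k = 2) {ω : 𝓞 k}
    (hω : ∀ x : 𝓞 k, ∃ a b : ℤ, x = (a : 𝓞 k) + (b : 𝓞 k) * ω)
    {I : Ideal (𝓞 k)} (hI0 : I ≠ ⊥) {b : ℤ} (hb : ω - (b : 𝓞 k) ∈ I) (a : ℤ) :
    (a : 𝓞 k) ∈ I ↔ ((Ideal.absNorm I : ℕ) : ℤ) ∣ a := by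
  -- the quotient is generated by `1`
  let f : ℤ →+* 𝓞 k ⧸ I := Int.castRingHom _
  have hf : Function.Surjective f := by
    intro y
    obtain ⟨x, rfl⟩ := Ideal.Quotient.mk_surjective y
    obtain ⟨c, d, rfl⟩ := hω x
    refine ⟨c + d * b, ?_⟩
    change (((c + d * b : ℤ)) : 𝓞 k ⧸ I) = _
    rw [← map_intCast (Ideal.Quotient.mk I), Ideal.Quotient.eq]
    have h3 := I.mul_mem_left (-(d : 𝓞 k)) hb
    convert h3 using 1
    push_cast
    ring
  have hcard : Nat.card (𝓞 k ⧸ I) = Ideal.absNorm I := by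
    rw [Ideal.absNorm_apply, Submodule.cardQuot_apply]
  have hker : RingHom.ker f = Ideal.span {((Ideal.absNorm I : ℕ) : ℤ)} := by
    obtain ⟨m, hm⟩ := (IsPrincipalIdealRing.principal (RingHom.ker f)).principal
    have hm' : RingHom.ker f = Ideal.span {m} := hm
    have h4 : Nat.card (ℤ ⧸ Ideal.span {m}) = m.natAbs := by
      rw [← Submodule.cardQuot_apply, ← Ideal.absNorm_apply, Ideal.absNorm_span_singleton (S := ℤ) m,
        Algebra.norm_self]
      rfl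
    have h5 : Nat.card (ℤ ⧸ RingHom.ker f) = Nat.card (𝓞 k ⧸ I) :=
      Nat.card_congr (RingHom.quotientKerEquivOfSurjective hf).toEquiv
    rw [hm', h4, hcard] at h5
    rw [hm', ← h5]
    exact (Ideal.span_singleton_eq_span_singleton.2 (Int.associated_natAbs m))
  have h6 : a ∈ RingHom.ker f ↔ (a : 𝓞 k) ∈ I := by
    rw [RingHom.mem_ker]
    change ((a : 𝓞 k ⧸ I)) = 0 ↔ _
    rw [← map_intCast (Ideal.Quotient.mk I), Ideal.Quotient.eq_zero_iff_mem]
  rw [← h6, hker, Ideal.mem_span_singleton]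

end Pool.Agent.K7.H76.SL
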