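import Mathlib
import Pool.Agent.K7.H76.SL.Cls

/-!
# The class number of `ℚ(√(1 - 4p))` is less than `p`, part 2
-/

set_option autoImplicit false

namespace Pool.Agent.K7.H76.SL

open NumberField Module Finset
open scoped nonZeroDivisors Classical

variable {k : Type} [Field k] [NumberField k]

lemma sum_odd (j : ℕ) : ∑ n ∈ (range (2 * j)).filter Odd, n = j ^ 2 ∧
    ∑ n ∈ (range (2 * j + 1)).filter Odd, n = j ^ 2 := by
  induction j with
  | zero => decide
  | succ j ih =>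
    have h1 : (range (2 * (j + 1))).filter Odd = insert (2 * j + 1) ((range (2 * j + 1)).filter Odd) := by
      ext n
      simp only [mem_filter, mem_range, mem_insert]
      constructor
      · rintro ⟨h, h'⟩
        rcases Nat.lt_or_ge n (2 * j + 1) with h2 | h2
        · exact Or.inr ⟨h2, h'⟩
        · left
          omega
      · rintro (rfl | ⟨h, h'⟩)
        · exact ⟨by omega, ⟨j, rfl⟩⟩
        · exact ⟨by omega, h'⟩
    have h2 : (range (2 * (j + 1) + 1)).filter Odd = (range (2 * (j + 1))).filter Odd := by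
      ext n
      simp only [mem_filter, mem_range]
      constructor
      · rintro ⟨h, h'⟩
        refine ⟨?_, h'⟩
        obtain ⟨i, hi⟩ := h'
        omega
      · rintro ⟨h, h'⟩
        exact ⟨by omega, h'⟩
    have h3 : ∑ n ∈ (range (2 * (j + 1))).filter Odd, n = (j + 1) ^ 2 := by
      rw [h1, Finset.sum_insert (by simp), ih.2]
      ring
    exact ⟨h3, by rw [h2, h3]⟩

lemma sum_odd_le (b : ℕ) : 4 * ∑ n ∈ (range (b + 1)).filter Odd, n ≤ (b + 1) ^ 2 := by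
  obtain ⟨j, hj⟩ := Nat.even_or_odd' (b + 1)
  rcases hj with hj | hj
  · rw [hj, (sum_odd j).1]
    apply le_of_eq
    ring
  · rw [hj, (sum_odd j).2]
    nlinarith

lemma pi_not_int {p : ℕ} (hp : p.Prime) (π : 𝓞 k) (hπ : π ^ 2 - π + (p : 𝓞 k) = 0) :
    ∀ m : ℤ, π ≠ (m : 𝓞 k) := by
  intro m hm
  rw [hm] at hπ
  have h1 : ((m ^ 2 - m + p : ℤ) : 𝓞 k) = ((0 : ℤ) : 𝓞 k) := by
    push_cast
    exact hπ
  have h3 := int_inj _ _ h1
  have h4 := hp.pos
  have h5 : 0 ≤ m ^ 2 - m := by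
    rcases le_or_gt m 0 with h | h
    · nlinarith
    · nlinarith
  have h6 : (0 : ℤ) < p := by exact_mod_cast h4
  linarith

lemma discr_bound (h2 : finrank ℚ k = 2) {p : ℕ} (hp : p.Prime) (π : 𝓞 k)
    (hπ : π ^ 2 - π + (p : 𝓞 k) = 0) : discr k < 0 ∧ |discr k| ≤ 4 * p - 1 := by
  have hni := pi_not_int hp π hπ
  obtain ⟨t, m, hm, h3, h4⟩ := Pool.Agent.TH847.LS.quad_eq h2 π hni
  set N := Algebra.norm ℤ π with hN
  have h5 : (((1 - t) * 4 : ℤ) : 𝓞 k) * π = ((t ^ 2 - 4 * N - t ^ 2 + 4 * p : ℤ) : 𝓞 k) := by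
    push_cast at h3 ⊢
    linear_combination h3 - 4 * hπ
  have ht : t = 1 := by
    by_contra hne
    -- `π` would be rational
    have hne' : ((1 - t) * 4 : ℤ) ≠ 0 := by
      intro h
      apply hne
      omega
    set c : ℤ := (1 - t) * 4 with hc
    set e : ℤ := t ^ 2 - 4 * N - t ^ 2 + 4 * p with he
    have h6 : ((e ^ 2 - c * e + c ^ 2 * p : ℤ) : 𝓞 k) = ((0 : ℤ) : 𝓞 k) := by
      push_cast
      rw [← h5]
      linear_combination (c : 𝓞 k) ^ 2 * hπ
    have h7 := int_inj _ _ h6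
    have h8 : (1 : ℤ) ≤ p := by exact_mod_cast hp.one_lt.le
    have h9 : 0 < c ^ 2 := by positivity
    nlinarith [sq_nonneg (2 * e - c)]
  rw [ht] at h3 h4
  have h6 : ((1 ^ 2 - 4 * N : ℤ) : 𝓞 k) = ((1 - 4 * p : ℤ) : 𝓞 k) := by
    rw [← h3]
    push_cast
    linear_combination 4 * hπ
  have h7 := int_inj _ _ h6
  rw [h7] at h4
  have h8 : (1 : ℤ) ≤ p := by exact_mod_cast hp.one_lt.le
  have h9 : 0 < m ^ 2 := by positivity
  have h10 : discr k < 0 := by
    by_contra hcon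
    push Not at hcon
    have : 0 ≤ m ^ 2 * discr k := mul_nonneg h9.le hcon
    omega
  refine ⟨h10, ?_⟩
  rw [abs_of_neg h10]
  nlinarith

theorem class_lt (h2 : finrank ℚ k = 2) {p : ℕ} (hp : p.Prime) (hp2 : p ≠ 2) (π : 𝓞 k)
    (hπ : π ^ 2 - π + (p : 𝓞 k) = 0) : Nat.card (ClassGroup (𝓞 k)) < p := by
  obtain ⟨hdn, hd⟩ := discr_bound h2 hp π hπ
  obtain ⟨ω, hω, hω0⟩ := exists_omega h2
  have hp3 : 3 ≤ p := by
    have := hp.two_le
    omega
  -- representatives of minimal norm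
  have hrep : ∀ C : ClassGroup (𝓞 k), ∃ I : (Ideal (𝓞 k))⁰, ClassGroup.mk0 I = C ∧
      (∀ J : (Ideal (𝓞 k))⁰, ClassGroup.mk0 J = C →
        Ideal.absNorm (I : Ideal (𝓞 k)) ≤ Ideal.absNorm (J : Ideal (𝓞 k))) ∧
      9 * (Ideal.absNorm (I : Ideal (𝓞 k))) ^ 2 < 16 * p := by
    intro C
    obtain ⟨I₁, hI₁, hn₁⟩ := exists_ideal_in_class_of_norm_le C
    have hex : ∃ n : ℕ, ∃ I : (Ideal (𝓞 k))⁰, ClassGroup.mk0 I = C ∧
        Ideal.absNorm (I : Ideal (𝓞 k)) = n := ⟨_, I₁, hI₁, rfl⟩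
    obtain ⟨I, hI, hIn⟩ := Nat.find_spec hex
    refine ⟨I, hI, ?_, ?_⟩
    · intro J hJ
      rw [hIn]
      exact Nat.find_min' hex ⟨J, hJ, rfl⟩
    · have h3 : Ideal.absNorm (I : Ideal (𝓞 k)) ≤ Ideal.absNorm (I₁ : Ideal (𝓞 k)) := by
        rw [hIn]
        exact Nat.find_min' hex ⟨I₁, hI₁, rfl⟩
      have h4 : (Ideal.absNorm (I₁ : Ideal (𝓞 k)) : ℝ) ≤ 2 / 3 * √(|discr k| : ℝ) := by
        refine hn₁.trans ?_
        rw [h2]
        have h5 : InfinitePlace.nrComplexPlaces k ≤ 1 := by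
          have := InfinitePlace.card_add_two_mul_card_eq_rank k
          rw [h2] at this
          omega
        have hpi := Real.pi_gt_three
        have h6 : (4 / Real.pi) ^ InfinitePlace.nrComplexPlaces k ≤ 4 / 3 := by
          have e1 : (1 : ℝ) ≤ 4 / Real.pi := by
            rw [le_div_iff₀ Real.pi_pos]
            linarith [Real.pi_le_four]
          have e2 : 4 / Real.pi ≤ 4 / 3 := by gcongr
          calc (4 / Real.pi) ^ InfinitePlace.nrComplexPlaces k ≤ (4 / Real.pi) ^ 1 :=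
                pow_le_pow_right₀ e1 h5
            _ ≤ 4 / 3 := by rw [pow_one]; exact e2
        have e3 : 0 ≤ √(|discr k| : ℝ) := Real.sqrt_nonneg _
        have e4 : ((Nat.factorial 2 : ℕ) : ℝ) / ((2 : ℕ) : ℝ) ^ 2 * √(|discr k| : ℝ) =
            1 / 2 * √(|discr k| : ℝ) := by
          norm_num [Nat.factorial]
        rw [e4]
        calc (4 / Real.pi) ^ InfinitePlace.nrComplexPlaces k * (1 / 2 * √(|discr k| : ℝ))
            ≤ 4 / 3 * (1 / 2 * √(|discr k| : ℝ)) := by gcongr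
          _ = 2 / 3 * √(|discr k| : ℝ) := by ring
      have h5 : (Ideal.absNorm (I : Ideal (𝓞 k)) : ℝ) ≤ 2 / 3 * √(|discr k| : ℝ) :=
        le_trans (by exact_mod_cast h3) h4
      have h6 : (9 : ℝ) * (Ideal.absNorm (I : Ideal (𝓞 k)) : ℝ) ^ 2 ≤ 4 * |(discr k : ℝ)| := by
        have h7 : (Ideal.absNorm (I : Ideal (𝓞 k)) : ℝ) ^ 2 ≤ (2 / 3 * √(|discr k| : ℝ)) ^ 2 :=
          pow_le_pow_left₀ (Nat.cast_nonneg _) h5 2
        rw [mul_pow, Real.sq_sqrt (abs_nonneg _)] at h7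
        linarith
      have h7 : (|(discr k : ℝ)|) ≤ 4 * p - 1 := by
        have : ((|discr k| : ℤ) : ℝ) ≤ ((4 * p - 1 : ℤ) : ℝ) := by exact_mod_cast hd
        push_cast at this
        exact this
      have h8 : (9 : ℝ) * (Ideal.absNorm (I : Ideal (𝓞 k)) : ℝ) ^ 2 < 16 * p := by linarith
      exact_mod_cast h8
  choose I hIC hImin hIn using hrep
  have hI0 : ∀ C, (I C : Ideal (𝓞 k)) ≠ ⊥ := fun C => nonZeroDivisors.coe_ne_zero _
  have hprim : ∀ C, Prim (I C : Ideal (𝓞 k)) := by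
    intro C m hm hle
    obtain ⟨J, hJ⟩ := Ideal.dvd_iff_le.2 hle
    have hJ0 : J ≠ ⊥ := by
      rintro rfl
      rw [Ideal.mul_bot] at hJ
      exact hI0 C hJ
    have hm0 : ((m : ℕ) : 𝓞 k) ≠ 0 := by
      have : m ≠ 0 := by omega
      exact_mod_cast this
    let J' : (Ideal (𝓞 k))⁰ := ⟨J, mem_nonZeroDivisors_of_ne_zero hJ0⟩
    have hcl : ClassGroup.mk0 J' = C := by
      rw [← hIC C, ClassGroup.mk0_eq_mk0_iff]
      refine ⟨((m : ℕ) : 𝓞 k), 1, hm0, one_ne_zero, ?_⟩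
      rw [Ideal.span_singleton_one, ← Ideal.one_eq_top, one_mul, hJ]
    have h3 := hImin C J' hcl
    have h4 : Ideal.absNorm (I C : Ideal (𝓞 k)) = m ^ 2 * Ideal.absNorm J := by
      rw [hJ, map_mul, Ideal.absNorm_span_natCast, RingOfIntegers.rank, h2]
    have h5 : 0 < Ideal.absNorm J := by
      rw [Nat.pos_iff_ne_zero]
      exact fun h0 => hJ0 (Ideal.absNorm_eq_zero_iff.mp h0)
    have h6 : Ideal.absNorm (J' : Ideal (𝓞 k)) = Ideal.absNorm J := rfl
    rw [h4, h6] at h3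
    have h7 : 4 ≤ m ^ 2 := by nlinarith
    nlinarith
  have hb := fun C => prim_omega h2 hω hω0 (hI0 C) (hprim C)
  choose b hb using hb
  have hn0 : ∀ C, 0 < Ideal.absNorm (I C : Ideal (𝓞 k)) := by
    intro C
    rw [Nat.pos_iff_ne_zero]
    exact fun h0 => hI0 C (Ideal.absNorm_eq_zero_iff.mp h0)
  have hint := fun C => prim_int h2 hω (hI0 C) (hb C)
  -- the norm is odd
  have hodd : ∀ C, Odd (Ideal.absNorm (I C : Ideal (𝓞 k))) := by
    intro C
    obtain ⟨a', c', hac⟩ := hω π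
    set s : ℤ := a' + c' * b C with hs
    have h3 : π - (s : 𝓞 k) ∈ (I C : Ideal (𝓞 k)) := by
      have h4 := (I C : Ideal (𝓞 k)).mul_mem_left (c' : 𝓞 k) (hb C)
      convert h4 using 1
      rw [hac, hs]
      push_cast
      ring
    have h4 : ((s ^ 2 - s + p : ℤ) : 𝓞 k) ∈ (I C : Ideal (𝓞 k)) := by
      have h5 := (I C : Ideal (𝓞 k)).mul_mem_left (-(π + s - 1)) h3
      convert h5 using 1
      push_cast
      linear_combination hπ
    rw [hint C] at h4
    by_contra hcon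
    rw [Nat.not_odd_iff_even] at hcon
    have h5 : (2 : ℤ) ∣ s ^ 2 - s + p := by
      refine dvd_trans ?_ h4
      exact_mod_cast hcon.two_dvd
    have h6 : (2 : ℤ) ∣ s ^ 2 - s := by
      have : s ^ 2 - s = s * (s - 1) := by ring
      rw [this]
      exact (Int.even_mul_pred_self s).two_dvd
    have h7 : (2 : ℤ) ∣ p := (dvd_add_right h6).1 h5
    have h8 : 2 ∣ p := by exact_mod_cast h7
    rw [Nat.prime_dvd_prime_iff_eq Nat.prime_two hp] at h8
    exact hp2 h8.symm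
  -- the injection
  let f : ClassGroup (𝓞 k) → (Σ _ : ℕ, ℕ) := fun C =>
    ⟨Ideal.absNorm (I C : Ideal (𝓞 k)), (b C % (Ideal.absNorm (I C : Ideal (𝓞 k)) : ℤ)).toNat⟩
  have hfinj : Function.Injective f := by
    intro C C' h
    have h3 : Ideal.absNorm (I C : Ideal (𝓞 k)) = Ideal.absNorm (I C' : Ideal (𝓞 k)) :=
      congrArg Sigma.fst h
    have h4 : (b C % (Ideal.absNorm (I C : Ideal (𝓞 k)) : ℤ)).toNat =
        (b C' % (Ideal.absNorm (I C' : Ideal (𝓞 k)) : ℤ)).toNat :=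
      congrArg (fun x : (Σ _ : ℕ, ℕ) => x.2) h
    have h5 : ((Ideal.absNorm (I C : Ideal (𝓞 k)) : ℕ) : ℤ) ∣ b C - b C' := by
      have e0 : ((Ideal.absNorm (I C : Ideal (𝓞 k)) : ℕ) : ℤ) ≠ 0 := by
        exact_mod_cast (hn0 C).ne'
      have e1 := Int.emod_nonneg (b C) e0
      have e2 := Int.emod_nonneg (b C') e0
      rw [← h3] at h4
      have e3 : b C % (Ideal.absNorm (I C : Ideal (𝓞 k)) : ℤ) =
          b C' % (Ideal.absNorm (I C : Ideal (𝓞 k)) : ℤ) := by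
        rw [← Int.toNat_of_nonneg e1, ← Int.toNat_of_nonneg e2, h4]
      have e4 : b C' ≡ b C [ZMOD (Ideal.absNorm (I C : Ideal (𝓞 k)) : ℤ)] := e3.symm
      exact e4.dvd
    have hchar : ∀ (C : ClassGroup (𝓞 k)) (a c : ℤ), (a : 𝓞 k) + (c : 𝓞 k) * ω ∈
        (I C : Ideal (𝓞 k)) ↔ ((Ideal.absNorm (I C : Ideal (𝓞 k)) : ℕ) : ℤ) ∣ a + c * b C := by
      intro C a c
      rw [← hint C]
      have h6 := (I C : Ideal (𝓞 k)).mul_mem_left (c : 𝓞 k) (hb C)
      have h7 : (a : 𝓞 k) + (c : 𝓞 k) * ω = ((a + c * b C : ℤ) : 𝓞 k) +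
          (c : 𝓞 k) * (ω - (b C : 𝓞 k)) := by
        push_cast
        ring
      rw [h7]
      exact (I C : Ideal (𝓞 k)).add_mem_iff_left h6
    have h6 : (I C : Ideal (𝓞 k)) = (I C' : Ideal (𝓞 k)) := by
      ext x
      obtain ⟨a, c, rfl⟩ := hω x
      rw [hchar C, hchar C', ← h3]
      have h7 : a + c * b C = a + c * b C' + c * (b C - b C') := by ring
      rw [h7]
      exact dvd_add_left (h5.mul_left c)
    rw [← hIC C, ← hIC C']
    congr 1
    exact Subtype.ext h6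
  -- the counting
  obtain ⟨B, hB⟩ : ∃ B : ℕ, ∀ n : ℕ, 9 * n ^ 2 < 16 * p ↔ n ≤ B := by
    refine ⟨Nat.findGreatest (fun n => 9 * n ^ 2 < 16 * p) (16 * p), fun n => ?_⟩
    constructor
    · intro h
      refine Nat.le_findGreatest ?_ h
      nlinarith
    · intro h
      have h3 : 9 * (Nat.findGreatest (fun n => 9 * n ^ 2 < 16 * p) (16 * p)) ^ 2 < 16 * p :=
        Nat.findGreatest_spec (P := fun n => 9 * n ^ 2 < 16 * p) (m := 0) (Nat.zero_le _)
          (by simp; omega)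
      have h4 := Nat.pow_le_pow_left h 2
      omega
  set T : Finset (Σ _ : ℕ, ℕ) := ((range (B + 1)).filter Odd).sigma (fun n => range n) with hT
  have hfT : ∀ C, f C ∈ T := by
    intro C
    rw [hT, mem_sigma, mem_filter, mem_range, mem_range]
    refine ⟨⟨?_, hodd C⟩, ?_⟩
    · have := (hB _).1 (hIn C)
      change Ideal.absNorm (I C : Ideal (𝓞 k)) < B + 1
      omega
    · change (b C % (Ideal.absNorm (I C : Ideal (𝓞 k)) : ℤ)).toNat <
        Ideal.absNorm (I C : Ideal (𝓞 k))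
      have e0 : (0 : ℤ) < ((Ideal.absNorm (I C : Ideal (𝓞 k)) : ℕ) : ℤ) := by
        exact_mod_cast hn0 C
      have e1 := Int.emod_lt_of_pos (b C) e0
      have e2 := Int.emod_nonneg (b C) e0.ne'
      omega
  have hcard : Nat.card (ClassGroup (𝓞 k)) ≤ T.card := by
    have h3 : Nat.card (ClassGroup (𝓞 k)) ≤ Nat.card T :=
      Nat.card_le_card_of_injective (fun C => (⟨f C, hfT C⟩ : T)) (fun C C' h => hfinj
        (congrArg Subtype.val h))
    rwa [Nat.card_eq_fintype_card, Nat.card_eq_fintype_card, Fintype.card_coe,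
      ← Nat.card_eq_fintype_card] at h3
  have hTcard : T.card = ∑ n ∈ (range (B + 1)).filter Odd, n := by
    rw [hT, card_sigma]
    simp
  have h4 := sum_odd_le B
  have h5 : 9 * B ^ 2 < 16 * p := (hB B).2 le_rfl
  have h6 : (B + 1) ^ 2 < 4 * p := by
    by_contra hcon
    push Not at hcon
    have h7 : 9 * B ^ 2 < 4 * (B + 1) ^ 2 := by omega
    have h8 : B < 2 := by
      by_contra h
      push Not at h
      nlinarith
    have h9 : (B + 1) ^ 2 ≤ 4 := by
      have : B + 1 ≤ 2 := by omega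
      nlinarith
    omega
  omega

end Pool.Agent.K7.H76.SL
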