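import Mathlib

/-!
# Elementary facts on `ℤ_p`
-/

set_option autoImplicit false

namespace Pool.Agent.K7.H76.SL

variable {p : ℕ} [hpf : Fact p.Prime]

lemma zp_pow (s : PadicInt p) (i : ℕ) :
    ∃ r : PadicInt p, (1 + (p : PadicInt p) * s) ^ i = 1 + i * (p * s) + p ^ 2 * r := by
  induction i with
  | zero => exact ⟨0, by simp⟩
  | succ i ih =>
    obtain ⟨r, hr⟩ := ih
    refine ⟨i * s ^ 2 + r + p * r * s, ?_⟩
    rw [pow_succ, hr]
    push_cast
    ring

lemma zp_dvd_of_norm {x : PadicInt p} (h : ‖x‖ < 1) : (p : PadicInt p) ∣ x := by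
  have h1 : x ∈ IsLocalRing.maximalIdeal (PadicInt p) :=
    (IsLocalRing.mem_maximalIdeal x).2 (PadicInt.mem_nonunits.2 h)
  rw [PadicInt.maximalIdeal_eq_span_p, Ideal.mem_span_singleton] at h1
  exact h1

lemma zp_p_ne : (p : PadicInt p) ≠ 0 := by
  exact_mod_cast hpf.out.ne_zero

lemma zp_not_unit : ¬ (p : PadicInt p) ∣ 1 := by
  intro h
  have h1 : ‖(1 : PadicInt p)‖ < 1 := by
    obtain ⟨c, hc⟩ := h
    rw [hc, norm_mul, PadicInt.norm_p]
    have h2 := PadicInt.norm_le_one c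
    have h3 : (p : ℝ)⁻¹ < 1 := inv_lt_one_of_one_lt₀ (by exact_mod_cast hpf.out.one_lt)
    calc (p : ℝ)⁻¹ * ‖c‖ ≤ (p : ℝ)⁻¹ * 1 := by gcongr
      _ < 1 := by rw [mul_one]; exact h3
  rw [norm_one] at h1
  exact lt_irrefl _ h1

/-- `t ≡ t ^ p` modulo `p` -/
lemma zp_fermat (t : PadicInt p) : (p : PadicInt p) ∣ t ^ p - t := by
  have h1 : t ^ p - t ∈ RingHom.ker (PadicInt.toZMod (p := p)) := by
    rw [RingHom.mem_ker, map_sub, map_pow, ZMod.pow_card, sub_self]
  rw [PadicInt.ker_toZMod, PadicInt.maximalIdeal_eq_span_p, Ideal.mem_span_singleton] at h1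
  exact h1

/-- no `p`-torsion in `ℤ_p` for odd `p` -/
lemma zp_no_tor (hp2 : p ≠ 2) (t : PadicInt p) (ht : t ^ p = 1) : t = 1 := by
  by_contra hne
  have hp := hpf.out
  obtain ⟨s, hs⟩ : (p : PadicInt p) ∣ t - 1 := by
    have h1 := zp_fermat t
    rw [ht, ← neg_sub, dvd_neg] at h1
    exact h1
  have ht1 : t = 1 + p * s := by rw [← hs]; ring
  have hsum : ∑ i ∈ Finset.range p, t ^ i = 0 := by
    have h1 := geom_sum_mul t p
    rw [ht, sub_self] at h1
    rcases mul_eq_zero.1 h1 with h | h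
    · exact h
    · exact absurd (sub_eq_zero.1 h) hne
  choose r hr using zp_pow (p := p) s
  have h2 : ∑ i ∈ Finset.range p, t ^ i = p + (∑ i ∈ Finset.range p, (i : PadicInt p)) * (p * s) +
      p ^ 2 * ∑ i ∈ Finset.range p, r i := by
    rw [ht1, Finset.sum_congr rfl fun i _ => hr i, Finset.sum_add_distrib, Finset.sum_add_distrib,
      ← Finset.sum_mul, ← Finset.mul_sum]
    simp
  obtain ⟨m, hm⟩ : ∃ m : ℕ, p = 2 * m + 1 := by
    obtain ⟨m, hm⟩ := hp.odd_of_ne_two hp2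
    exact ⟨m, hm⟩
  have h3 : (∑ i ∈ Finset.range p, (i : PadicInt p)) = p * m := by
    have h4 := Finset.sum_range_id_mul_two p
    have h5 : p * (p - 1) = p * m * 2 := by
      have : p - 1 = 2 * m := by omega
      rw [this]
      ring
    have h6 : ∑ i ∈ Finset.range p, i = p * m := by omega
    rw [← Nat.cast_sum, h6]
    push_cast
    ring
  rw [hsum, h3] at h2
  have h4 : (p : PadicInt p) * (1 + p * (m * s + ∑ i ∈ Finset.range p, r i)) = 0 := by
    linear_combination -h2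
  rcases mul_eq_zero.1 h4 with h | h
  · exact zp_p_ne h
  · apply zp_not_unit (p := p)
    refine ⟨-(m * s + ∑ i ∈ Finset.range p, r i), ?_⟩
    linear_combination h

/-- no `p`-torsion in `ℚ_p` for odd `p` -/
lemma qp_no_tor (hp2 : p ≠ 2) (z : ℚ_[p]) (hz : z ^ p = 1) : z = 1 := by
  have h1 : ‖z‖ = 1 := by
    have h3 := congrArg norm hz
    rw [norm_pow, norm_one] at h3
    exact (pow_eq_one_iff_of_nonneg (norm_nonneg _) hpf.out.ne_zero).1 h3
  obtain ⟨t, ht⟩ : ∃ t : PadicInt p, (t : ℚ_[p]) = z := ⟨⟨z, h1.le⟩, rfl⟩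
  have h2 : t ^ p = 1 := PadicInt.ext (by
    rw [PadicInt.coe_pow, ht, hz, PadicInt.coe_one])
  have h3 := zp_no_tor hp2 _ h2
  rw [← ht, h3, PadicInt.coe_one]

/-- the root `P` of `X ^ 2 - X + p` in the maximal ideal; `1 - P` is not a `p`-th power -/
lemma zp_root : ∃ P : PadicInt p, P ^ 2 - P + p = 0 ∧ ‖P‖ < 1 := by
  let F : Polynomial (PadicInt p) := Polynomial.X ^ 2 - Polynomial.X + Polynomial.C (p : PadicInt p)
  have h1 : ‖Polynomial.aeval (0 : PadicInt p) F‖ < ‖Polynomial.aeval (0 : PadicInt p) (Polynomial.derivative F)‖ ^ 2 := by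
    have e1 : Polynomial.aeval (0 : PadicInt p) F = (p : PadicInt p) := by simp [F]
    have e2 : Polynomial.aeval (0 : PadicInt p) (Polynomial.derivative F) = -1 := by simp [F]
    rw [e1, e2, norm_neg, norm_one, one_pow, PadicInt.norm_p]
    exact inv_lt_one_of_one_lt₀ (by exact_mod_cast hpf.out.one_lt)
  obtain ⟨z, hz, hz2, -⟩ := hensels_lemma h1
  refine ⟨z, ?_, ?_⟩
  · have e1 : Polynomial.aeval z F = z ^ 2 - z + p := by simp [F]
    rw [← e1]
    exact hz
  · have e2 : Polynomial.aeval (0 : PadicInt p) (Polynomial.derivative F) = -1 := by simp [F]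
    rw [e2, norm_neg, norm_one, sub_zero] at hz2
    exact hz2

lemma zp_root_norm {P : PadicInt p} (h : P ^ 2 - P + p = 0) (hP : ‖P‖ < 1) :
    ‖1 - P‖ = 1 ∧ ‖P‖ = (p : ℝ)⁻¹ := by
  have h1 : ‖1 - P‖ = 1 := by
    have h2 : ¬ ‖1 - P‖ < 1 := by
      intro h3
      have h4 : ‖(1 : PadicInt p)‖ < 1 := by
        have h5 : (1 : PadicInt p) = (1 - P) + P := by ring
        rw [h5]
        exact lt_of_le_of_lt (PadicInt.nonarchimedean _ _) (max_lt h3 hP)
      rw [norm_one] at h4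
      exact lt_irrefl _ h4
    exact le_antisymm (PadicInt.norm_le_one _) (not_lt.1 h2)
  refine ⟨h1, ?_⟩
  have h2 : P * (1 - P) = p := by linear_combination -h
  have h3 := congrArg norm h2
  rw [norm_mul, h1, mul_one, PadicInt.norm_p] at h3
  exact h3

lemma zp_not_pow {P : PadicInt p} (h : P ^ 2 - P + p = 0) (hP : ‖P‖ < 1) (t : PadicInt p) :
    t ^ p ≠ 1 - P := by
  intro ht
  obtain ⟨P', hP'⟩ := zp_dvd_of_norm hP
  -- `P = p + p ^ 2 P' ^ 2`
  have h1 : P = p + p ^ 2 * P' ^ 2 := by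
    have h2 : P = p + P ^ 2 := by linear_combination -h
    calc P = p + P ^ 2 := h2
      _ = p + (p * P') ^ 2 := by rw [← hP']
      _ = p + p ^ 2 * P' ^ 2 := by ring
  obtain ⟨c, hc⟩ := zp_fermat t
  have h2 : t = 1 + p * (-(1 + p * P' ^ 2) - c) := by
    have h3 : t = 1 - P - p * c := by rw [← ht, ← hc]; ring
    rw [h3]
    conv_lhs => rw [h1]
    ring
  obtain ⟨r, hr⟩ := zp_pow (p := p) (-(1 + p * P' ^ 2) - c) p
  rw [← h2, ht] at hr
  have h4 : (p : PadicInt p) * (1 + p * ((-(1 + p * P' ^ 2) - c) + r + P' ^ 2)) = 0 := by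
    rw [h1] at hr
    linear_combination -hr
  rcases mul_eq_zero.1 h4 with h | h
  · exact zp_p_ne h
  · apply zp_not_unit (p := p)
    refine ⟨-((-(1 + p * P' ^ 2) - c) + r + P' ^ 2), ?_⟩
    linear_combination h

end Pool.Agent.K7.H76.SL
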