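import Mathlib
import Pool.Agent.K7.H76.SL.LogLoc
import Pool.Agent.K7.H76.SL.Cls2
import Pool.Agent.K7.H76.SL.Zp

/-!
# Places of degree one of an imaginary quadratic field
-/

set_option autoImplicit false

namespace Pool.Agent.K7.H76.SL

open NumberField IsDedekindDomain Module
open Pool.Agent.W289.SL Pool.Agent.Y419.LC.LcpP

variable {p : ℕ} [hpf : Fact p.Prime]

section

variable {K : Type} [Field K] [NumberField K]

/-- an element of valuation one has norm one -/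
lemma norm_of_val {v : HeightOneSpectrum (𝓞 K)} {σ : K →+* ℂ_[p]} (h : Induced v σ) (y : K)
    (hy : v.valuation K y = 1) : ‖σ y‖ = 1 := by
  have h1 : ∀ z : 𝓞 K, z ∉ v.asIdeal → ‖σ (z : K)‖ = 1 := by
    intro z hz
    rw [h z] at hz
    exact le_antisymm (norm_emb_le σ z) (not_lt.1 hz)
  obtain ⟨n, d, hnd⟩ := v.exists_primeCompl_mul_eq_of_integer y hy.le
  have hd : (d : 𝓞 K) ∉ v.asIdeal := d.2
  have hn : n ∉ v.asIdeal := by
    rw [← v.valuation_eq_one_iff_notMem (K := K), ← hnd, map_mul, hy,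
      v.valuation_eq_one_iff_notMem.2 hd, mul_one]
  have h2 := congrArg (fun t => ‖σ t‖) hnd
  simp only [map_mul, norm_mul] at h2
  have h3 : ‖σ (algebraMap (𝓞 K) K (d : 𝓞 K))‖ = 1 := h1 _ hd
  have h4 : ‖σ (algebraMap (𝓞 K) K n)‖ = 1 := h1 _ hn
  rw [h3, h4, mul_one] at h2
  exact h2

/-- norm and valuation at an unramified place -/
lemma norm_of_val_exp {v : HeightOneSpectrum (𝓞 K)} {σ : K →+* ℂ_[p]} (h : Induced v σ)
    (hv : v.valuation K ((p : ℕ) : K) = WithZero.exp (-1)) (y : K) (a : ℤ)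
    (hy : v.valuation K y = WithZero.exp a) : ‖σ y‖ = (p : ℝ) ^ a := by
  have hp0 : ((p : ℕ) : K) ≠ 0 := by exact_mod_cast hpf.out.ne_zero
  have h1 : v.valuation K (y * ((p : ℕ) : K) ^ a) = 1 := by
    rw [map_mul, hy, map_zpow₀, hv, ← WithZero.exp_zsmul, ← WithZero.exp_add]
    simp
  have h2 := norm_of_val h _ h1
  rw [map_mul, norm_mul, map_zpow₀, norm_zpow, map_natCast, norm_p, inv_zpow] at h2
  have h3 : (p : ℝ) ^ a ≠ 0 := zpow_ne_zero _ (by exact_mod_cast hpf.out.ne_zero)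
  field_simp at h2
  exact h2

/-- the prime induced by an embedding -/
lemma exists_ind (σ : K →+* ℂ_[p]) : ∃ v : HeightOneSpectrum (𝓞 K), Induced v σ ∧
    ((p : ℕ) : 𝓞 K) ∈ v.asIdeal := by
  let 𝔓 : Ideal (𝓞 K) :=
    { carrier := {y | ‖σ (y : K)‖ < 1}
      add_mem' := by
        intro a b ha hb
        change ‖σ (a + b : K)‖ < 1
        rw [map_add]
        exact lt_of_le_of_lt (IsUltrametricDist.norm_add_le_max _ _) (max_lt ha hb)
      zero_mem' := by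
        change ‖σ (0 : K)‖ < 1
        rw [map_zero, norm_zero]
        exact one_pos
      smul_mem' := by
        intro c a ha
        change ‖σ (c * a : K)‖ < 1
        rw [map_mul, norm_mul]
        have h2 := norm_emb_le σ c
        have h3 : ‖σ (a : K)‖ < 1 := ha
        calc ‖σ (c : K)‖ * ‖σ (a : K)‖ ≤ 1 * ‖σ (a : K)‖ := by gcongr
          _ < 1 := by rw [one_mul]; exact h3 }
  have h𝔓 : ∀ y : 𝓞 K, y ∈ 𝔓 ↔ ‖σ (y : K)‖ < 1 := fun y => Iff.rfl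
  have hprime : 𝔓.IsPrime := by
    refine ⟨?_, ?_⟩
    · rw [Ideal.ne_top_iff_one, h𝔓]
      have : σ ((1 : 𝓞 K) : K) = 1 := by simp only [map_one]
      rw [this, norm_one]
      exact lt_irrefl 1
    · intro a b hab
      rw [h𝔓] at hab ⊢
      rw [h𝔓]
      by_contra hcon2
      push Not at hcon2
      have h2 : σ ((a * b : 𝓞 K) : K) = σ (a : K) * σ (b : K) := by simp only [map_mul]
      rw [h2, norm_mul] at hab
      nlinarith [hcon2.1, hcon2.2]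
  have hmem : ((p : ℕ) : 𝓞 K) ∈ 𝔓 := by
    rw [h𝔓]
    have h3 : σ (((p : ℕ) : 𝓞 K) : K) = ((p : ℕ) : ℂ_[p]) := by
      simp only [map_natCast]
    rw [h3, norm_p]
    exact inv_lt_one_of_one_lt₀ (by exact_mod_cast hpf.out.one_lt)
  have hne : 𝔓 ≠ ⊥ := by
    intro h0
    rw [h0, Ideal.mem_bot] at hmem
    have h3 := hpf.out.ne_zero
    exact h3 (by exact_mod_cast hmem)
  exact ⟨⟨𝔓, hprime, hne⟩, fun x => Iff.rfl, hmem⟩

/-- the induced prime is unique -/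
lemma ind_unique {v w : HeightOneSpectrum (𝓞 K)} {σ : K →+* ℂ_[p]} (h : Induced v σ)
    (h' : Induced w σ) : v = w := by
  apply HeightOneSpectrum.ext
  ext x
  rw [h x, h' x]

end

section quad

variable {k : Type} [Field k] [NumberField k]

lemma absNorm_dvd_of_mem {v : HeightOneSpectrum (𝓞 k)} (hv : ((p : ℕ) : 𝓞 k) ∈ v.asIdeal) :
    p ∣ Ideal.absNorm v.asIdeal := by
  by_contra hcon
  have h1 : Nat.Coprime p (Ideal.absNorm v.asIdeal) := (hpf.out.coprime_iff_not_dvd).2 hcon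
  have h2 := Ideal.absNorm_mem v.asIdeal
  apply v.isPrime.ne_top
  rw [Ideal.eq_top_iff_one]
  have h3 := Nat.gcd_eq_gcd_ab p (Ideal.absNorm v.asIdeal)
  rw [h1.gcd_eq_one] at h3
  have h4 : (1 : 𝓞 k) = ((p : ℕ) : 𝓞 k) * ((Nat.gcdA p (Ideal.absNorm v.asIdeal) : ℤ) : 𝓞 k) +
      ((Ideal.absNorm v.asIdeal : ℕ) : 𝓞 k) *
        ((Nat.gcdB p (Ideal.absNorm v.asIdeal) : ℤ) : 𝓞 k) := by
    exact_mod_cast congrArg (fun t : ℤ => (t : 𝓞 k)) h3
  rw [h4]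
  exact Ideal.add_mem _ (Ideal.mul_mem_right _ _ hv) (Ideal.mul_mem_right _ _ h2)

/-- an integer in a prime above `p` is divisible by `p` -/
lemma dvd_of_natCast_mem {v : HeightOneSpectrum (𝓞 k)} (hv : ((p : ℕ) : 𝓞 k) ∈ v.asIdeal) {n : ℕ}
    (hn : (n : 𝓞 k) ∈ v.asIdeal) : p ∣ n := by
  by_contra hcon
  have h1 : Nat.Coprime p n := (hpf.out.coprime_iff_not_dvd).2 hcon
  apply v.isPrime.ne_top
  rw [Ideal.eq_top_iff_one]
  have h3 := Nat.gcd_eq_gcd_ab p n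
  rw [h1.gcd_eq_one] at h3
  have h4 : (1 : 𝓞 k) = ((p : ℕ) : 𝓞 k) * ((Nat.gcdA p n : ℤ) : 𝓞 k) +
      (n : 𝓞 k) * ((Nat.gcdB p n : ℤ) : 𝓞 k) := by
    exact_mod_cast congrArg (fun t : ℤ => (t : 𝓞 k)) h3
  rw [h4]
  exact Ideal.add_mem _ (Ideal.mul_mem_right _ _ hv) (Ideal.mul_mem_right _ _ hn)

/-- the place is unramified -/
lemma val_p (h2 : finrank ℚ k = 2) {v v' : HeightOneSpectrum (𝓞 k)} (hne : v ≠ v')
    (hv : ((p : ℕ) : 𝓞 k) ∈ v.asIdeal) (hv' : ((p : ℕ) : 𝓞 k) ∈ v'.asIdeal) :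
    v.valuation k ((p : ℕ) : k) = WithZero.exp (-1) := by
  have hp0 : ((p : ℕ) : 𝓞 k) ≠ 0 := by exact_mod_cast hpf.out.ne_zero
  have h1 : v.valuation k ((p : ℕ) : k) = v.intValuation ((p : ℕ) : 𝓞 k) := by
    rw [← v.valuation_of_algebraMap (K := k)]
    rfl
  rw [h1]
  have h3 : v.intValuation ((p : ℕ) : 𝓞 k) ≤ WithZero.exp (-((1 : ℕ) : ℤ)) := by
    rw [v.intValuation_le_pow_iff_mem, pow_one]
    exact hv
  have h4 : ¬ v.intValuation ((p : ℕ) : 𝓞 k) ≤ WithZero.exp (-((2 : ℕ) : ℤ)) := by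
    rw [v.intValuation_le_pow_iff_mem]
    intro h5
    have h6 : v.asIdeal ^ 2 * v'.asIdeal ∣ Ideal.span {((p : ℕ) : 𝓞 k)} := by
      apply IsCoprime.mul_dvd
      · apply IsCoprime.pow_left
        rw [Ideal.isCoprime_iff_sup_eq]
        exact v.isMaximal.coprime_of_ne v'.isMaximal fun h => hne (HeightOneSpectrum.ext h)
      · rw [Ideal.dvd_span_singleton]
        exact h5
      · rw [Ideal.dvd_span_singleton]
        exact hv'
    have h7 := map_dvd Ideal.absNorm h6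
    rw [Ideal.absNorm_span_natCast, RingOfIntegers.rank, h2, map_mul, map_pow] at h7
    have h8 : p ^ 2 * p ∣ p ^ 2 :=
      (mul_dvd_mul (pow_dvd_pow_of_dvd (absNorm_dvd_of_mem hv) 2) (absNorm_dvd_of_mem hv')).trans h7
    have h9 := Nat.le_of_dvd (pow_pos hpf.out.pos 2) h8
    have h10 := hpf.out.one_lt
    have h11 := pow_pos hpf.out.pos 2
    nlinarith
  rw [v.intValuation_if_neg hp0] at h3 h4 ⊢
  rw [WithZero.exp_le_exp] at h3 h4
  congr 1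
  push_cast at h3 h4
  omega

/-- the embeddings of a quadratic field -/
lemma two_emb (h2 : finrank ℚ k = 2) : Fintype.card (k →+* ℂ_[p]) = 2 := by
  rw [Embeddings.card, h2]

/-- the primes above `p` are induced by embeddings -/
lemma prime_ind {φ₁ φ₂ : k →+* ℂ_[p]} (hall : ∀ σ, σ = φ₁ ∨ σ = φ₂)
    {v v₁ v₂ : HeightOneSpectrum (𝓞 k)} (hv : ((p : ℕ) : 𝓞 k) ∈ v.asIdeal) (h1 : Induced v₁ φ₁)
    (h3 : Induced v₂ φ₂) : v = v₁ ∨ v = v₂ := by
  by_contra hcon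
  push Not at hcon
  have hsub : ¬ ((v.asIdeal : Set (𝓞 k)) ⊆ (v₁.asIdeal : Set (𝓞 k)) ∪ v₂.asIdeal) := by
    rw [Ideal.subset_union]
    rintro (h | h)
    · exact hcon.1 (HeightOneSpectrum.ext (v.isMaximal.eq_of_le v₁.isPrime.ne_top h))
    · exact hcon.2 (HeightOneSpectrum.ext (v.isMaximal.eq_of_le v₂.isPrime.ne_top h))
  rw [Set.not_subset] at hsub
  obtain ⟨x, hxv, hx⟩ := hsub
  have hx1 : x ∉ v₁.asIdeal := fun h => hx (Or.inl h)
  have hx2 : x ∉ v₂.asIdeal := fun h => hx (Or.inr h)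
  have hσ : ∀ σ : k →+* ℂ_[p], ‖σ (x : k)‖ = 1 := by
    intro σ
    rcases hall σ with rfl | rfl
    · rw [h1 x] at hx1
      exact le_antisymm (norm_emb_le _ x) (not_lt.1 hx1)
    · rw [h3 x] at hx2
      exact le_antisymm (norm_emb_le _ x) (not_lt.1 hx2)
  have hN := Algebra.norm_eq_prod_embeddings ℚ (ℂ_[p]) (x : k)
  have hN2 : ‖algebraMap ℚ ℂ_[p] (Algebra.norm ℚ (x : k))‖ = 1 := by
    rw [hN, norm_prod]
    exact Finset.prod_eq_one fun σ _ => hσ (σ : k →+* ℂ_[p])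
  have hmem : (Ideal.absNorm (Ideal.span {x}) : 𝓞 k) ∈ v.asIdeal := by
    have h4 := Ideal.absNorm_mem (Ideal.span {x})
    exact (Ideal.span_singleton_le_iff_mem _).2 hxv h4
  have hdvd := dvd_of_natCast_mem hv hmem
  rw [Ideal.absNorm_span_singleton] at hdvd
  have h5 : (p : ℤ) ∣ Algebra.norm ℤ x := Int.natCast_dvd.2 hdvd
  obtain ⟨c, hc⟩ := h5
  rw [← Algebra.coe_norm_int, hc] at hN2
  have h6 : algebraMap ℚ ℂ_[p] (((p : ℤ) * c : ℤ) : ℚ) = ((p : ℕ) : ℂ_[p]) * (c : ℂ_[p]) := by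
    rw [map_intCast]
    push_cast
    rfl
  rw [h6, norm_mul, norm_p] at hN2
  have h7 := norm_intCast_le (p := p) c
  have h8 : (p : ℝ)⁻¹ < 1 := inv_lt_one_of_one_lt₀ (by exact_mod_cast hpf.out.one_lt)
  have h9 : (p : ℝ)⁻¹ * ‖(c : ℂ_[p])‖ ≤ (p : ℝ)⁻¹ * 1 := by gcongr
  linarith

/-- the two embeddings when `p` splits -/
theorem split_emb (h2 : finrank ℚ k = 2) {v v' : HeightOneSpectrum (𝓞 k)} (hne : v ≠ v')
    (hv : ((p : ℕ) : 𝓞 k) ∈ v.asIdeal) (hv' : ((p : ℕ) : 𝓞 k) ∈ v'.asIdeal) :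
    ∃ φ φ' : k →+* ℂ_[p], Induced v φ ∧ Induced v' φ' ∧ ∀ σ, σ = φ ∨ σ = φ' := by
  obtain ⟨φ₁, φ₂, hne12, huniv⟩ : ∃ φ₁ φ₂ : k →+* ℂ_[p], φ₁ ≠ φ₂ ∧ ∀ σ, σ = φ₁ ∨ σ = φ₂ := by
    classical
    have h3 : (Finset.univ : Finset (k →+* ℂ_[p])).card = 2 := by
      rw [Finset.card_univ, two_emb h2]
    obtain ⟨a, b, hab, h4⟩ := Finset.card_eq_two.1 h3
    refine ⟨a, b, hab, fun σ => ?_⟩
    have h5 := Finset.mem_univ σ
    rw [h4] at h5
    simpa using h5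
  obtain ⟨v₁, hv₁, -⟩ := exists_ind φ₁
  obtain ⟨v₂, hv₂, -⟩ := exists_ind φ₂
  rcases prime_ind huniv hv hv₁ hv₂ with h | h
  · rcases prime_ind huniv hv' hv₁ hv₂ with h' | h'
    · exact absurd (h.trans h'.symm) hne
    · exact ⟨φ₁, φ₂, h ▸ hv₁, h' ▸ hv₂, huniv⟩
  · rcases prime_ind huniv hv' hv₁ hv₂ with h' | h'
    · exact ⟨φ₂, φ₁, h ▸ hv₂, h' ▸ hv₁, fun σ => (huniv σ).symm⟩
    · exact absurd (h.trans h'.symm) hne

/-- the completion is `ℚ_p` -/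
theorem loc_bot (h2 : finrank ℚ k = 2) {v v' : HeightOneSpectrum (𝓞 k)} (hne : v ≠ v')
    {φ φ' : k →+* ℂ_[p]} (h : Induced v φ) (h' : Induced v' φ') : Loc p φ = ⊥ := by
  classical
  rw [← IntermediateField.finrank_eq_one_iff]
  by_contra hcon
  have h3 : 1 < finrank ℚ_[p] (Loc p φ) := by
    have : 0 < finrank ℚ_[p] (Loc p φ) := finrank_pos
    omega
  rw [← AlgHom.card ℚ_[p] (Loc p φ) ℂ_[p], Fintype.one_lt_card_iff] at h3
  obtain ⟨s₁, s₂, hs⟩ := h3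
  have hne12 : compS φ s₁ ≠ compS φ s₂ := by
    intro heq
    apply hs
    have h4 : ∀ x ∈ Set.range φ, ∀ hx : x ∈ Loc p φ, s₁ ⟨x, hx⟩ = s₂ ⟨x, hx⟩ := by
      rintro _ ⟨y, rfl⟩ hx
      exact congrArg (fun f : k →+* ℂ_[p] => f y) heq
    let E : IntermediateField ℚ_[p] ℂ_[p] :=
      (AlgHom.fieldRange (Loc p φ).val)
    apply AlgHom.ext
    rintro ⟨x, hx⟩
    unfold Loc at hx
    refine IntermediateField.adjoin_induction ℚ_[p]
      (p := fun x _ => ∀ hx : x ∈ Loc p φ, s₁ ⟨x, hx⟩ = s₂ ⟨x, hx⟩) ?_ ?_ ?_ ?_ ?_ hx hx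
    · intro x hx hx'
      exact h4 x hx hx'
    · intro c hx'
      have : (⟨algebraMap ℚ_[p] ℂ_[p] c, hx'⟩ : Loc p φ) = algebraMap ℚ_[p] (Loc p φ) c := rfl
      rw [this, AlgHom.commutes, AlgHom.commutes]
    · intro x y hx hy h5 h6 hx'
      have : (⟨x + y, hx'⟩ : Loc p φ) = ⟨x, hx⟩ + ⟨y, hy⟩ := rfl
      rw [this, map_add, map_add, h5 hx, h6 hy]
    · intro x hx h5 hx'
      have : (⟨x⁻¹, hx'⟩ : Loc p φ) = (⟨x, hx⟩ : Loc p φ)⁻¹ := rfl
      rw [this, map_inv₀, map_inv₀, h5 hx]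
    · intro x y hx hy h5 h6 hx'
      have : (⟨x * y, hx'⟩ : Loc p φ) = ⟨x, hx⟩ * ⟨y, hy⟩ := rfl
      rw [this, map_mul, map_mul, h5 hx, h6 hy]
  have h4 : φ' = compS φ s₁ ∨ φ' = compS φ s₂ := by
    by_contra hcon2
    push Not at hcon2
    have h5 : ({φ', compS φ s₁, compS φ s₂} : Finset (k →+* ℂ_[p])).card = 3 := by
      rw [Finset.card_eq_three]
      exact ⟨_, _, _, hcon2.1, hcon2.2, hne12, rfl⟩
    have h6 := Finset.card_le_univ ({φ', compS φ s₁, compS φ s₂} : Finset (k →+* ℂ_[p]))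
    rw [h5, two_emb h2] at h6
    omega
  apply hne
  rcases h4 with h4 | h4
  · apply ind_unique (σ := φ') (w := v') ?_ h'
    intro x
    rw [h x, h4]
    exact compS_place φ s₁ x
  · apply ind_unique (σ := φ') (w := v') ?_ h'
    intro x
    rw [h x, h4]
    exact compS_place φ s₂ x

end quad

end Pool.Agent.K7.H76.SL
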