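import Mathlib
import Pool.Agent.Y847.LC.CLS
import Pool.Agent.K7.H76.SL.Main
import Pool.Agent.K7.H76.SL.Plc

/-!
# The group `V` of an imaginary quadratic field
-/

set_option autoImplicit false

namespace Pool.Agent.K7.H76.SL

open NumberField IsDedekindDomain Module
open Pool.Agent.W289.SL Pool.Agent.Y419.LC.LcpP

variable {p : ℕ} [hpf : Fact p.Prime]

variable {k : Type} [Field k] [NumberField k]

/-- the units of an imaginary quadratic field -/
lemma unit_torsion [IsTotallyComplex k] (h2 : finrank ℚ k = 2) (u : (𝓞 k)ˣ) :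
    u ∈ Units.torsion k := by
  have hr : Units.rank k = 0 := by
    have h1 := rank_complex k
    omega
  obtain ⟨⟨ζ, e⟩, h, -⟩ := Units.exist_unique_eq_mul_prod k u
  have h3 : IsEmpty (Fin (Units.rank k)) := by
    rw [hr]
    exact Fin.isEmpty
  simp only [Finset.univ_eq_empty, Finset.prod_empty, mul_one] at h
  rw [h]
  exact ζ.2

/-- the values of the valuation -/
lemma exists_exp (v : HeightOneSpectrum (𝓞 k)) {x : k} (hx : x ≠ 0) :
    ∃ a : ℤ, v.valuation k x = WithZero.exp a :=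
  ⟨WithZero.log (v.valuation k x), (WithZero.exp_log ((Valuation.ne_zero_iff _).2 hx)).symm⟩

/-- an element which is a `p`-th power in `ℚ_p` -/
lemma not_pow {v : HeightOneSpectrum (𝓞 k)} {φ : k →+* ℂ_[p]} (hφ : Induced v φ)
    (hvp : v.valuation k ((p : ℕ) : k) = WithZero.exp (-1)) {α : 𝓞 k} (hαv : α ∉ v.asIdeal)
    (hα2 : α ^ (p - 1) - 1 ∉ v.asIdeal ^ 2) (y : ℚ_[p])
    (hy : (algebraMap ℚ_[p] ℂ_[p] y) ^ p = φ (α : k)) : False := by
  have hp := hpf.out
  have h1 : ‖φ (α : k)‖ = 1 := by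
    rw [hφ α] at hαv
    exact le_antisymm (norm_emb_le φ α) (not_lt.1 hαv)
  have h2 : ‖y‖ = 1 := by
    rw [← hy, norm_pow, norm_algebraMap'] at h1
    exact (pow_eq_one_iff_of_nonneg (norm_nonneg _) hp.ne_zero).1 h1
  obtain ⟨t, ht⟩ : ∃ t : PadicInt p, (t : ℚ_[p]) = y := ⟨⟨y, h2.le⟩, rfl⟩
  have htu : IsUnit t := by
    rw [PadicInt.isUnit_iff, PadicInt.norm_def, ht, h2]
  obtain ⟨s, hs⟩ : (p : PadicInt p) ∣ t ^ (p - 1) - 1 := by
    have h3 := zp_fermat t
    have h4 : t ^ p - t = t * (t ^ (p - 1) - 1) := by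
      rw [mul_sub, mul_one, ← pow_succ', Nat.sub_add_cancel hp.one_lt.le]
    rw [h4] at h3
    exact (htu.dvd_mul_left).1 h3
  obtain ⟨r, hr⟩ := zp_pow (p := p) s p
  have h3 : (t ^ p) ^ (p - 1) - 1 = (p : PadicInt p) ^ 2 * (s + r) := by
    have h4 : t ^ (p - 1) = 1 + p * s := by rw [← hs]; ring
    rw [← pow_mul, mul_comm, pow_mul, h4, hr]
    ring
  have h4 : φ ((α ^ (p - 1) - 1 : 𝓞 k) : k) =
      algebraMap ℚ_[p] ℂ_[p] (((p : PadicInt p) ^ 2 * (s + r) : PadicInt p) : ℚ_[p]) := by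
    rw [← h3]
    have h5 : ((α ^ (p - 1) - 1 : 𝓞 k) : k) = (α : k) ^ (p - 1) - 1 := by
      simp only [map_sub, map_pow, map_one]
    rw [h5, map_sub, map_pow, map_one, ← hy]
    push_cast
    rw [ht]
  have h5 : ‖φ ((α ^ (p - 1) - 1 : 𝓞 k) : k)‖ ≤ (p : ℝ) ^ (-2 : ℤ) := by
    rw [h4, norm_algebraMap', ← PadicInt.norm_def, norm_mul, norm_pow, PadicInt.norm_p]
    have h6 := PadicInt.norm_le_one (s + r)
    calc ((p : ℝ)⁻¹) ^ 2 * ‖s + r‖ ≤ ((p : ℝ)⁻¹) ^ 2 * 1 := by gcongr
      _ = (p : ℝ) ^ (-2 : ℤ) := by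
          rw [mul_one, zpow_neg, inv_pow]
          rfl
  apply hα2
  by_cases h0 : α ^ (p - 1) - 1 = 0
  · rw [h0]
    exact Ideal.zero_mem _
  have h0' : ((α ^ (p - 1) - 1 : 𝓞 k) : k) ≠ 0 := by
    intro h
    apply h0
    exact RingOfIntegers.ext (by rw [h]; simp)
  obtain ⟨a, ha⟩ := exists_exp v h0'
  rw [norm_of_val_exp hφ hvp _ a ha] at h5
  have h6 : a ≤ -2 := (zpow_le_zpow_iff_right₀ (by exact_mod_cast hp.one_lt)).1 h5
  rw [← v.intValuation_le_pow_iff_mem, ← v.valuation_of_algebraMap (K := k)]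
  refine (le_of_eq ha).trans ?_
  rw [WithZero.exp_le_exp]
  push_cast
  exact h6

/-- **The criterion for imaginary quadratic fields.** -/
theorem crit [IsTotallyComplex k] (hp2 : p ≠ 2) (h2 : finrank ℚ k = 2)
    {v v' q : HeightOneSpectrum (𝓞 k)} (hne : v ≠ v') (hv : ((p : ℕ) : 𝓞 k) ∈ v.asIdeal)
    (hv' : ((p : ℕ) : 𝓞 k) ∈ v'.asIdeal) (hcl : ¬ p ∣ Nat.card (ClassGroup (𝓞 k))) (hqv : q ≠ v)
    {α : 𝓞 k} {h : ℕ} (hh : ¬ p ∣ h) (hα : Ideal.span {α} = q.asIdeal ^ h)
    (hα2 : α ^ (p - 1) - 1 ∉ v.asIdeal ^ 2) {φ : k →+* ℂ_[p]} (hφ : Induced v φ) :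
    NoTor φ ∧ PlaceStable {φ} ∧ VTriv {φ} {q} := by
  have hp := hpf.out
  obtain ⟨φ₁, φ', h1, h', hall⟩ := split_emb h2 hne hv hv'
  have hφφ' : φ ≠ φ' := by
    rintro rfl
    exact hne (ind_unique hφ h')
  have hall' : ∀ σ, σ = φ ∨ σ = φ' := by
    have h3 : φ = φ₁ := by
      rcases hall φ with h | h
      · exact h
      · exact absurd h hφφ'
    rw [h3]
    exact hall
  have hbot := loc_bot h2 hne hφ h'
  have hvp := val_p h2 hne hv hv'
  have hNT : NoTor φ := by
    intro z hz hz1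
    rw [hbot, IntermediateField.mem_bot] at hz
    obtain ⟨y, rfl⟩ := hz
    have h3 : y ^ p = 1 := by
      apply (algebraMap ℚ_[p] ℂ_[p]).injective
      rw [map_pow, hz1, map_one]
    rw [qp_no_tor hp2 y h3, map_one]
  refine ⟨hNT, ?_, ?_⟩
  · intro σ hσ σ' hσ'
    rw [Set.mem_singleton_iff] at hσ
    subst hσ
    rcases hall' σ' with h3 | h3
    · exact h3
    · exfalso
      apply hne
      apply ind_unique (σ := σ') (w := v') ?_ (h3 ▸ h')
      intro x
      rw [hφ x]
      exact hσ' x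
  · have hno : ∀ y : k, y ^ p = 1 → y = 1 := fun y hy => no_torsion hNT y hy
    have hh0 : h ≠ 0 := by
      rintro rfl
      exact hh (dvd_zero p)
    have hα0 : α ≠ 0 := by
      rintro rfl
      have h3 : q.asIdeal ^ h = ⊥ := by
        rw [← hα]
        simp
      exact q.ne_bot (pow_eq_zero_iff hh0 |>.1 h3)
    have hα0' : (α : k) ≠ 0 := by
      intro h
      apply hα0
      exact RingOfIntegers.ext (by rw [h]; simp)
    have hαw : ∀ w : HeightOneSpectrum (𝓞 k), w ≠ q → α ∉ w.asIdeal := by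
      intro w hw hαw
      apply hw
      have h3 : q.asIdeal ^ h ≤ w.asIdeal := by
        rw [← hα]
        exact (Ideal.span_singleton_le_iff_mem _).2 hαw
      have h4 : q.asIdeal ≤ w.asIdeal := Ideal.IsPrime.le_of_pow_le h3
      exact (HeightOneSpectrum.ext (q.isMaximal.eq_of_le w.isPrime.ne_top h4)).symm
    have hαw1 : ∀ w : HeightOneSpectrum (𝓞 k), w ≠ q → w.valuation k (α : k) = 1 := by
      intro w hw
      exact w.valuation_eq_one_iff_notMem.2 (hαw w hw)
    have hαq : q.valuation k (α : k) = WithZero.exp (-(h : ℤ)) := by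
      have h3 : q.valuation k (α : k) = q.intValuation α := q.valuation_of_algebraMap α
      have h4 : q.intValuation α ≤ WithZero.exp (-(h : ℤ)) := by
        rw [q.intValuation_le_pow_iff_mem, ← hα]
        exact Ideal.mem_span_singleton_self α
      have h5 : ¬ q.intValuation α ≤ WithZero.exp (-((h + 1 : ℕ) : ℤ)) := by
        rw [q.intValuation_le_pow_iff_mem, ← Ideal.span_singleton_le_iff_mem, hα]
        intro h6
        have h7 : q.asIdeal ^ (h + 1) ∣ q.asIdeal ^ h := Ideal.dvd_iff_le.2 h6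
        have h8 : ¬ IsUnit q.asIdeal := by
          rw [Ideal.isUnit_iff]
          exact q.isPrime.ne_top
        have h9 := (pow_dvd_pow_iff q.ne_bot h8).1 h7
        omega
      rw [h3]
      rw [q.intValuation_if_neg hα0] at h4 h5 ⊢
      rw [WithZero.exp_le_exp] at h4 h5
      congr 1
      push_cast at h4 h5
      omega
    rintro x ⟨hx1, hx2⟩
    obtain ⟨z, hz, hzx⟩ := hx1 φ rfl
    rw [hbot, IntermediateField.mem_bot] at hz
    obtain ⟨y, rfl⟩ := hz
    -- the valuation at `v`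
    have hxv : ∃ j : ℤ, v.valuation k (x : k) = WithZero.exp ((p : ℤ) * j) := by
      obtain ⟨a, ha⟩ := exists_exp v x.ne_zero
      have h3 := norm_of_val_exp hφ hvp _ a ha
      have hy0 : y ≠ 0 := by
        rintro rfl
        rw [map_zero, zero_pow hp.ne_zero] at hzx
        exact (map_ne_zero φ).2 x.ne_zero hzx.symm
      rw [← hzx, norm_pow, norm_algebraMap', Padic.norm_eq_zpow_neg_valuation hy0, ← zpow_natCast,
        ← zpow_mul] at h3
      have h4 := (zpow_right_injective₀ (a := (p : ℝ)) (by exact_mod_cast hp.pos)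
        (by exact_mod_cast hp.one_lt.ne')) h3
      refine ⟨-y.valuation, ?_⟩
      rw [ha, ← h4, mul_comm]
    obtain ⟨b, hb⟩ := exists_exp q x.ne_zero
    have hcop : IsCoprime (p : ℤ) (h : ℤ) := by
      rw [Nat.isCoprime_iff_coprime]
      exact (hp.coprime_iff_not_dvd).2 hh
    obtain ⟨e, f, hef⟩ := hcop
    set m : ℤ := b * f with hm
    set αu : kˣ := Units.mk0 (α : k) hα0' with hαu
    set x' : kˣ := x * αu ^ m with hx'
    have hx'v : ∀ w : HeightOneSpectrum (𝓞 k), ∃ j : ℤ,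
        w.valuation k (x' : k) = WithZero.exp ((p : ℤ) * j) := by
      intro w
      by_cases hwq : w = q
      · subst hwq
        refine ⟨b * e, ?_⟩
        rw [hx', Units.val_mul, Units.val_zpow_eq_zpow_val, map_mul, map_zpow₀, hαu, Units.val_mk0,
          hαq, hb, ← WithZero.exp_zsmul, ← WithZero.exp_add]
        congr 1
        rw [hm, smul_eq_mul]
        linear_combination (-b) * hef
      · have h3 : w.valuation k (x' : k) = w.valuation k (x : k) := by
          rw [hx', Units.val_mul, Units.val_zpow_eq_zpow_val, map_mul, map_zpow₀, hαu,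
            Units.val_mk0, hαw1 w hwq, one_zpow, mul_one]
        rw [h3]
        by_cases hwv : w = v
        · rw [hwv]
          exact hxv
        · refine hx2 w hwq ?_
          intro σ hσ hind
          rw [Set.mem_singleton_iff] at hσ
          subst hσ
          exact hwv (ind_unique hind hφ)
    obtain ⟨C, hC⟩ := Pool.Agent.Y847.LC.exists_cl k p hp.one_lt.le x' hx'v
    have hC1 : C = 1 := by
      obtain ⟨d, x'', J, hd, hx'', -, hJ, hJC⟩ := hC
      have h3 : C ^ p = 1 := by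
        rw [← hJC, ← map_pow, ClassGroup.mk0_eq_one_iff]
        rw [SubmonoidClass.coe_pow, ← hJ]
        exact ⟨⟨x'', rfl⟩⟩
      have h4 : orderOf C ∣ p := orderOf_dvd_of_pow_eq_one h3
      rcases (Nat.dvd_prime hp).1 h4 with h5 | h5
      · exact orderOf_eq_one_iff.1 h5
      · exfalso
        apply hcl
        rw [← h5]
        exact orderOf_dvd_natCard C
    have h1C : Pool.Agent.Y847.LC.Cl k p 1 1 :=
      ⟨1, 1, 1, one_ne_zero, one_ne_zero, by simp, by
        rw [Ideal.span_singleton_one, OneMemClass.coe_one, one_pow, Ideal.one_eq_top], map_one _⟩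
    rw [hC1] at hC
    obtain ⟨η, c, hηc⟩ := Pool.Agent.Y847.LC.cl_same k p x' 1 1 hC h1C
    obtain ⟨ξ, hξ⟩ := torsion_pow hno (unit_torsion h2 η)
    set d : kˣ := uH k ξ * c with hd
    have hxd : x * αu ^ m = d ^ p := by
      apply Units.ext
      have h3 : d ^ p = uH k η * c ^ p := by rw [hd, mul_pow, ← map_pow, ← hξ]
      rw [h3, ← hx', hηc, Units.val_one, one_mul, Units.val_mul, Units.val_pow_eq_pow_val]
      rfl
    -- the exponent is divisible by `p`
    have hpm : (p : ℤ) ∣ m := by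
      by_contra hcon
      have hcop2 : IsCoprime (p : ℤ) m :=
        (Nat.prime_iff_prime_int.1 hp).coprime_iff_not_dvd.2 hcon
      obtain ⟨e', f', hef'⟩ := hcop2
      have hdr : ∃ δ : ℚ_[p], algebraMap ℚ_[p] ℂ_[p] δ = φ (d : k) := by
        have h3 : φ (d : k) ∈ Loc p φ := mem_Loc φ _
        rw [hbot, IntermediateField.mem_bot] at h3
        exact h3
      have har : ∃ δ : ℚ_[p], algebraMap ℚ_[p] ℂ_[p] δ = φ (α : k) := by
        have h3 : φ (α : k) ∈ Loc p φ := mem_Loc φ _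
        rw [hbot, IntermediateField.mem_bot] at h3
        exact h3
      obtain ⟨δ, hδ⟩ := hdr
      obtain ⟨a', ha'⟩ := har
      refine not_pow hφ hvp (hαw v hqv.symm) hα2 (a' ^ e' * (δ / y) ^ f') ?_
      have hαφ : φ (α : k) ≠ 0 := (map_ne_zero φ).2 hα0'
      have h3 : φ (x : k) * φ (α : k) ^ m = φ (d : k) ^ p := by
        have h4 := congrArg (fun t : kˣ => φ (t : k)) hxd
        simp only [Units.val_mul, Units.val_zpow_eq_zpow_val, Units.val_pow_eq_pow_val, map_mul,
          map_zpow₀, map_pow] at h4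
        exact h4
      have hxφ : φ (x : k) ≠ 0 := (map_ne_zero φ).2 x.ne_zero
      rw [map_mul, map_zpow₀, map_zpow₀, map_div₀, ha', hδ, mul_pow, ← zpow_natCast,
        ← zpow_natCast, ← zpow_mul, ← zpow_mul, mul_comm f', zpow_mul _ (p : ℤ) f', zpow_natCast,
        div_pow, hzx, ← h3, mul_div_cancel_left₀ _ hxφ, ← zpow_mul, ← zpow_add₀ hαφ]
      have h5 : e' * (p : ℤ) + m * f' = 1 := by linarith
      rw [h5, zpow_one]
    obtain ⟨m', hm'⟩ := hpm
    refine ⟨d * (αu ^ m')⁻¹, ?_⟩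
    rw [mul_pow, ← hxd, hm', inv_pow, ← zpow_natCast (αu ^ m') p, ← zpow_mul, mul_comm m']
    exact (mul_inv_cancel_right _ _).symm

end Pool.Agent.K7.H76.SL
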