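import Mathlib
import Pool.Agent.K7.H76.SL.Main
import Pool.Agent.K7.H76.SL.Full

/-!
# More ramified primes
-/

set_option autoImplicit false

namespace Pool.Agent.K7.H76.SL

open NumberField IsDedekindDomain Module
open Pool.Agent.W289.SL Pool.Agent.Y419.LC.LcpP

variable {p : ℕ} [hpf : Fact p.Prime]

variable {K : Type} [Field K] [NumberField K]

lemma VTriv.bound {S : Set (K →+* ℂ_[p])} {S₀ : Set (HeightOneSpectrum (𝓞 K))}
    (h : VTriv S S₀) : VBound S S₀ 0 := by
  refine ⟨{1}, by simp, fun x hx => ?_⟩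
  obtain ⟨y, hy⟩ := h x hx
  exact ⟨1, Finset.mem_singleton_self _, y, by rw [hy, one_mul]⟩

/-- adding `t` primes to `S₀` multiplies the number of classes by at most `p ^ t` -/
theorem bound_add {S : Set (K →+* ℂ_[p])} {S₀ : Set (HeightOneSpectrum (𝓞 K))} {a : ℕ}
    (h : VBound S S₀ a) (T : Finset (HeightOneSpectrum (𝓞 K))) :
    VBound S (S₀ ∪ T) (a + T.card) := by
  classical
  have hp := hpf.out
  obtain ⟨R, hR, hRV⟩ := h
  -- the exponent
  let e : HeightOneSpectrum (𝓞 K) → Kˣ → ℤ := fun w x => WithZero.log (w.valuation K (x : K))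
  have he : ∀ w x, w.valuation K (x : K) = WithZero.exp (e w x) := fun w x =>
    (WithZero.exp_log ((Valuation.ne_zero_iff _).2 x.ne_zero)).symm
  let f : Kˣ → (T → ZMod p) := fun x w => ((e w x : ℤ) : ZMod p)
  let g : (T → ZMod p) → Kˣ := fun c => if h : ∃ x ∈ VS S (S₀ ∪ T), f x = c then h.choose else 1
  refine ⟨(Finset.univ ×ˢ R).image (fun c => g c.1 * c.2), ?_, ?_⟩
  · refine Finset.card_image_le.trans ?_
    rw [Finset.card_product, Finset.card_univ, Fintype.card_fun, ZMod.card, Fintype.card_coe,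
      pow_add, mul_comm]
    exact Nat.mul_le_mul_right _ hR
  · intro x hx
    have hex : ∃ y ∈ VS S (S₀ ∪ T), f y = f x := ⟨x, hx, rfl⟩
    have hg : g (f x) ∈ VS S (S₀ ∪ T) ∧ f (g (f x)) = f x := by
      have h1 : g (f x) = hex.choose := by simp only [g, dif_pos hex]
      rw [h1]
      exact hex.choose_spec
    have hq : x / g (f x) ∈ VS S S₀ := by
      have h1 : x / g (f x) ∈ VS S (S₀ ∪ T) := (VS S (S₀ ∪ T)).div_mem hx hg.1
      refine ⟨h1.1, fun w hw hw' => ?_⟩
      by_cases hwT : w ∈ T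
      · have h2 : f (g (f x)) ⟨w, hwT⟩ = f x ⟨w, hwT⟩ := by rw [hg.2]
        have h3 : ((e w x - e w (g (f x)) : ℤ) : ZMod p) = 0 := by
          push_cast
          rw [sub_eq_zero]
          exact h2.symm
        rw [ZMod.intCast_zmod_eq_zero_iff_dvd] at h3
        obtain ⟨j, hj⟩ := h3
        refine ⟨j, ?_⟩
        rw [← hj, Units.val_div_eq_div_val, map_div₀, he w x, he w (g (f x)), WithZero.exp_sub]
      · exact h1.2 w (by
          rintro (h4 | h4)
          · exact hw h4
          · exact hwT h4) hw'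
    obtain ⟨t, ht, y, hy⟩ := hRV _ hq
    refine ⟨g (f x) * t, Finset.mem_image.2 ⟨(f x, t), by simp [ht], rfl⟩, y, ?_⟩
    rw [mul_assoc, ← hy, mul_div_cancel]

end Pool.Agent.K7.H76.SL
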