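import Mathlib
import Pool.Agent.Y447.LC.RAM
import Pool.Agent.Y86.LC.CYA
import Pool.Agent.W289.SL.Crit
import Pool.Agent.K7.H76.SL.Kum

/-!
# Subfields of cyclotomic fields and composites with an imaginary quadratic field
-/

set_option autoImplicit false

namespace Pool.Agent.K7.H76.SL

open NumberField IsDedekindDomain Module
open Pool.Agent.Y18.LC (Unram)

/-- `Unram` for subfields -/
lemma unram_sub {C : Type} [Field C] [NumberField C] (E : IntermediateField ℚ C) {l : ℕ}
    (hl : l.Prime) (h : Unram C l) : Unram E l := by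
  rintro x ⟨n, hn⟩
  rw [Ideal.mem_span_singleton] at hn ⊢
  obtain ⟨y, hy⟩ := hn
  let f : 𝓞 E →+* 𝓞 C := RingOfIntegers.mapRingHom (algebraMap E C)
  have h1 : f x ∈ (Ideal.span {(l : 𝓞 C)}).radical := by
    refine ⟨n, ?_⟩
    rw [Ideal.mem_span_singleton, ← map_pow, hy, map_mul, map_natCast]
    exact ⟨f y, rfl⟩
  have h2 := h h1
  rw [Ideal.mem_span_singleton] at h2
  obtain ⟨z, hz⟩ := h2
  have h3 : algebraMap E C ((x : E)) = (l : C) * (z : C) := by
    have := congrArg (fun t : 𝓞 C => (t : C)) hz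
    simp only [map_mul, map_natCast] at this
    exact this
  have hl0 : (l : C) ≠ 0 := Nat.cast_ne_zero.2 hl.ne_zero
  have hl0' : (l : E) ≠ 0 := Nat.cast_ne_zero.2 hl.ne_zero
  have h4 : algebraMap E C ((x : E) / (l : E)) = (z : C) := by
    rw [map_div₀, map_natCast, h3, mul_div_cancel_left₀ _ hl0]
  have h5 : IsIntegral ℤ ((x : E) / (l : E)) := by
    have h6 : IsIntegral ℤ (algebraMap E C ((x : E) / (l : E))) := by
      rw [h4]
      exact RingOfIntegers.isIntegral_coe z
    exact (isIntegral_algHom_iff (algebraMap E C).toIntAlgHom (algebraMap E C).injective).1 h6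
  obtain ⟨w, hw⟩ : ∃ w : 𝓞 E, (w : E) = (x : E) / (l : E) := ⟨⟨_, h5⟩, rfl⟩
  refine ⟨w, ?_⟩
  apply RingOfIntegers.coe_injective
  rw [map_mul, map_natCast]
  rw [show algebraMap (𝓞 E) E w = (x : E) / (l : E) from hw, mul_div_cancel₀ _ hl0']

/-- `Unram` for isomorphic fields -/
lemma unram_equiv {C E : Type} [Field C] [NumberField C] [Field E] [NumberField E] (e : C ≃+* E)
    {l : ℕ} (h : Unram C l) : Unram E l := by
  rintro x ⟨n, hn⟩
  rw [Ideal.mem_span_singleton] at hn ⊢
  obtain ⟨y, hy⟩ := hn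
  let f : 𝓞 E ≃+* 𝓞 C := RingOfIntegers.mapRingEquiv e.symm
  have h1 : f x ∈ (Ideal.span {(l : 𝓞 C)}).radical := by
    refine ⟨n, ?_⟩
    rw [Ideal.mem_span_singleton, ← map_pow, hy, map_mul, map_natCast]
    exact ⟨f y, rfl⟩
  have h2 := h h1
  rw [Ideal.mem_span_singleton] at h2
  obtain ⟨z, hz⟩ := h2
  refine ⟨f.symm z, ?_⟩
  apply f.injective
  rw [map_mul, map_natCast, RingEquiv.apply_symm_apply, hz]

/-- cyclic subfields of cyclotomic fields -/
theorem exists_sub (m d : ℕ) [NeZero m] (hcyc : IsCyclic (ZMod m)ˣ) (hd : d ∣ Nat.totient m) :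
    ∃ (E : Type) (_ : Field E) (_ : NumberField E), IsGalois ℚ E ∧ finrank ℚ E = d ∧
      ∀ l : ℕ, l.Prime → ¬ l ∣ m → Unram E l := by
  have hirr : Irreducible (Polynomial.cyclotomic m ℚ) :=
    Polynomial.cyclotomic.irreducible_rat (Nat.pos_of_ne_zero (NeZero.ne m))
  let C := CyclotomicField m ℚ
  have hC : IsCyclotomicExtension {m} ℚ C := CyclotomicField.isCyclotomicExtension m ℚ
  have hgal : IsGalois ℚ C := IsCyclotomicExtension.isGalois {m} ℚ C
  let e : Gal(C/ℚ) ≃* (ZMod m)ˣ := IsCyclotomicExtension.autEquivPow C hirr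
  have hcyc' : IsCyclic Gal(C/ℚ) := isCyclic_of_surjective e.symm e.symm.surjective
  have hcard : Nat.card Gal(C/ℚ) = Nat.totient m := by
    rw [Nat.card_congr e.toEquiv, Nat.card_eq_fintype_card, ZMod.card_units_eq_totient]
  obtain ⟨g, hg⟩ := hcyc'.exists_generator
  have hog : orderOf g = Nat.totient m := by
    rw [← hcard]
    exact orderOf_eq_card_of_forall_mem_zpowers hg
  let Hs : Subgroup Gal(C/ℚ) := Subgroup.zpowers (g ^ d)
  have htp : 0 < Nat.totient m := Nat.totient_pos.2 (Nat.pos_of_ne_zero (NeZero.ne m))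
  obtain ⟨r, hr⟩ := hd
  have hd0 : 0 < d := by
    rcases Nat.eq_zero_or_pos d with h | h
    · rw [h, zero_mul] at hr
      omega
    · exact h
  have hcH : Nat.card Hs = r := by
    rw [Nat.card_zpowers, orderOf_pow, hog, hr, Nat.gcd_eq_right (Dvd.intro r rfl),
      Nat.mul_div_cancel_left _ hd0]
  have hcomm : ∀ a b : Gal(C/ℚ), a * b = b * a := by
    intro a b
    apply e.injective
    rw [map_mul, map_mul, mul_comm]
  have hnorm : Hs.Normal := ⟨fun n hn a => by
    rw [hcomm a n, mul_assoc, mul_inv_cancel, mul_one]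
    exact hn⟩
  let E : IntermediateField ℚ C := IntermediateField.fixedField Hs
  have hgE : IsGalois ℚ E := IsGalois.of_fixedField_normal_subgroup Hs
  have hfE : finrank ℚ E = d := by
    have h1 : finrank E C = Nat.card Hs := IntermediateField.finrank_fixedField_eq_card Hs
    have h2 := finrank_mul_finrank ℚ E C
    have h3 : finrank ℚ C = Nat.totient m := by
      rw [← hcard]
      exact (IsGalois.card_aut_eq_finrank ℚ C).symm
    rw [h1, h3, hcH, hr] at h2
    have hr0 : 0 < r := by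
      rcases Nat.eq_zero_or_pos r with h | h
      · rw [h, mul_zero] at hr
        omega
      · exact h
    exact Nat.eq_of_mul_eq_mul_right hr0 h2
  have hU : ∀ l : ℕ, l.Prime → ¬ l ∣ m → Unram C l := by
    intro l hl hlm
    exact Pool.Agent.Y86.LC.cyc_radical (E := C) m
      hC hl hlm
  refine ⟨E, inferInstance, inferInstance, ?_, ?_, fun l hl hlm => ?_⟩
  · convert hgE
  · convert hfE
  · exact unram_sub (C := C) E hl (hU l hl hlm)

end Pool.Agent.K7.H76.SL
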