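import Mathlib
import Pool.Agent.K7.H76.SL.Sub

/-!
# Composites with an imaginary quadratic field
-/

set_option autoImplicit false

namespace Pool.Agent.K7.H76.SL

open NumberField IsDedekindDomain Module InfinitePlace
open Pool.Agent.Y18.LC (Unram)

/-- a Galois extension of `ℚ` of odd degree is totally real -/
lemma real_of_odd (F : Type) [Field F] [NumberField F] [IsGalois ℚ F] (h : Odd (finrank ℚ F)) :
    IsTotallyReal F := by
  have h1 : IsUnramifiedAtInfinitePlaces ℚ F := IsUnramifiedAtInfinitePlaces_of_odd_finrank h
  refine ⟨fun w => ?_⟩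
  rcases isUnramified_iff.1 (w.isUnramified ℚ) with h2 | h2
  · exact h2
  · exact absurd h2 (not_isComplex_iff_isReal.2 (IsTotallyReal.isReal _))

/-- the composite as an abstract field -/
lemma exists_K (k : Type) [Field k] [NumberField k] (E : Type) [Field E] [NumberField E] :
    ∃ (K : Type) (_ : Field K) (_ : NumberField K) (_ : Algebra k K) (ι : E →+* K),
      IntermediateField.adjoin k (Set.range ι) = ⊤ := by
  let Ω := AlgebraicClosure k
  let ι : E →ₐ[ℚ] Ω := IsAlgClosed.lift
  obtain ⟨θ, hθ⟩ := Field.exists_primitive_element ℚ E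
  let K : IntermediateField k Ω := IntermediateField.adjoin k {ι θ}
  have hint : IsIntegral k (ι θ) := (Algebra.IsIntegral.isIntegral (R := k) (ι θ))
  have hfd : FiniteDimensional k K := IntermediateField.adjoin.finiteDimensional hint
  have hNF : NumberField K := NumberField.of_module_finite k K
  have hmem : ∀ x : E, ι x ∈ K := by
    intro x
    have h1 : x ∈ IntermediateField.adjoin ℚ {θ} := by
      rw [hθ]
      trivial
    have h2 : IntermediateField.adjoin ℚ {θ} ≤ (K.restrictScalars ℚ).comap ι := by
      rw [IntermediateField.adjoin_simple_le_iff]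
      exact IntermediateField.mem_adjoin_simple_self k (ι θ)
    exact h2 h1
  let ι' : E →+* K := (ι : E →+* Ω).codRestrict K hmem
  refine ⟨K, inferInstance, hNF, inferInstance, ι', ?_⟩
  rw [eq_top_iff]
  rintro ⟨x, hx⟩ -
  have h3 : K ≤ (IntermediateField.adjoin k (Set.range ι')).map K.val := by
    rw [IntermediateField.adjoin_simple_le_iff]
    exact ⟨ι' θ, IntermediateField.subset_adjoin _ _ ⟨θ, rfl⟩, rfl⟩
  obtain ⟨y, hy, hyx⟩ := h3 hx
  have h4 : (⟨x, hx⟩ : K) = y := Subtype.ext hyx.symm
  rw [h4]
  exact hy

/-- the composite of an imaginary quadratic field and a Galois extension of `ℚ` of odd degree -/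
theorem exists_comp (k : Type) [Field k] [NumberField k] [IsTotallyComplex k]
    (h2 : finrank ℚ k = 2) (E : Type) [Field E] [NumberField E] [IsGalois ℚ E]
    (hodd : Odd (finrank ℚ E)) :
    ∃ (K : Type) (_ : Field K) (_ : NumberField K) (_ : Algebra k K) (F : IntermediateField ℚ K),
      Nonempty (E ≃+* F) ∧ IsGalois ℚ F ∧ finrank ℚ F = finrank ℚ E ∧ IsTotallyReal F ∧
      IsTotallyComplex K ∧ finrank F K = 2 ∧ IsGalois k K ∧ finrank k K = finrank ℚ E ∧
      IntermediateField.adjoin k (F : Set K) = ⊤ := by
  obtain ⟨K, _, _, _, ι, hι⟩ := exists_K k E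
  let F : IntermediateField ℚ K := (ι.toRatAlgHom).fieldRange
  let e : E ≃ₐ[ℚ] F := AlgEquiv.ofInjectiveField ι.toRatAlgHom
  have hF : (F : Set K) = Set.range ι := by
    ext x
    exact Iff.rfl
  have htop : IntermediateField.adjoin k (F : Set K) = ⊤ := by rw [hF, hι]
  have hG' : @IsGalois ℚ _ F _ (IntermediateField.algebra' F) := IsGalois.of_algEquiv e
  have hG : IsGalois ℚ F := Pool.Agent.Y447.LC.gal_alg' F hG'
  have hfin : finrank ℚ F = finrank ℚ E := by
    have h1 := e.toLinearEquiv.finrank_eq
    rw [h1]
  have hreal : IsTotallyReal F := real_of_odd F (by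
    convert hodd using 1)
  have hcpx : IsTotallyComplex K := isTotallyComplex_of_algebra k K
  have hdeg : finrank F K = 2 := by
    obtain ⟨θ, hθ⟩ := Field.exists_primitive_element ℚ k
    have hint : IsIntegral ℚ θ := Algebra.IsIntegral.isIntegral θ
    have hdegθ : (minpoly ℚ θ).natDegree = 2 := by
      rw [← IntermediateField.adjoin.finrank hint, hθ, ← h2]
      exact IntermediateField.finrank_top'
    set θ' : K := algebraMap k K θ with hθ'
    have h3 : IntermediateField.adjoin F {θ'} = ⊤ := by
      rw [eq_top_iff]
      intro x _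
      have hkL : ∀ y : k, algebraMap k K y ∈ IntermediateField.adjoin F {θ'} := by
        intro y
        have h4 : y ∈ IntermediateField.adjoin ℚ {θ} := by
          rw [hθ]
          trivial
        have h5 : IntermediateField.adjoin ℚ {θ} ≤
            ((IntermediateField.adjoin F {θ'}).restrictScalars ℚ).comap
              ((algebraMap k K).toRatAlgHom) := by
          rw [IntermediateField.adjoin_simple_le_iff]
          exact IntermediateField.mem_adjoin_simple_self F θ'
        exact h5 h4
      let L : IntermediateField k K :=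
        { (IntermediateField.adjoin F {θ'}).toSubfield with
          algebraMap_mem' := hkL }
      have h6 : IntermediateField.adjoin k (F : Set K) ≤ L := by
        rw [IntermediateField.adjoin_le_iff]
        intro y hy
        exact (IntermediateField.adjoin F {θ'}).algebraMap_mem ⟨y, hy⟩
      have h7 : x ∈ L := h6 (by rw [htop]; trivial)
      exact h7
    have hint' : IsIntegral F θ' := Algebra.IsIntegral.isIntegral θ'
    have h4 : finrank F K = (minpoly F θ').natDegree := by
      rw [← IntermediateField.adjoin.finrank hint', h3, IntermediateField.finrank_top']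
    have h5 : (minpoly F θ').natDegree ≤ 2 := by
      have h6 : minpoly F θ' ∣ (minpoly ℚ θ).map (algebraMap ℚ F) := by
        apply minpoly.dvd
        rw [Polynomial.aeval_map_algebraMap, hθ']
        have h7 := congrArg (algebraMap k K) (minpoly.aeval ℚ θ)
        rw [map_zero] at h7
        rw [← h7]
        exact Polynomial.aeval_algHom_apply ((algebraMap k K).toRatAlgHom) θ (minpoly ℚ θ)
      have h7 := Polynomial.natDegree_le_of_dvd h6 (by
        rw [Ne, Polynomial.map_eq_zero]
        exact minpoly.ne_zero hint)
      rwa [Polynomial.natDegree_map, hdegθ] at h7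
    have h6 : 0 < finrank F K := finrank_pos
    have h7 : finrank F K ≠ 1 := by
      intro h8
      have h9 := finrank_mul_finrank ℚ F K
      have h10 := IsTotallyComplex.finrank K
      rw [h8, mul_one, hfin] at h9
      rw [h9, h10] at hodd
      exact (Nat.not_odd_iff_even.2 (even_two_mul _)) hodd
    omega
  have hGK : IsGalois k K := Pool.Agent.Y447.LC.gal_comp hG htop
  refine ⟨K, inferInstance, inferInstance, inferInstance, F, ⟨e.toRingEquiv⟩, hG, ?_, hreal, hcpx,
    hdeg, hGK, ?_, htop⟩
  · convert hfin using 1
  · have h3 := finrank_mul_finrank ℚ F K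
    have h4 := finrank_mul_finrank ℚ k K
    rw [hdeg, hfin] at h3
    rw [h2] at h4
    omega

end Pool.Agent.K7.H76.SL
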