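import Mathlib
import Pool.Agent.K7.H76.SL.Plc

/-!
# Inert primes
-/

set_option autoImplicit false

namespace Pool.Agent.K7.H76.SL

open NumberField IsDedekindDomain Module

variable {k : Type} [Field k] [NumberField k]

/-- a square root of a negative integer -/
lemma exists_sqrt [IsTotallyComplex k] (h2 : finrank ℚ k = 2) :
    ∃ (θ : 𝓞 k) (D : ℕ), 0 < D ∧ θ ^ 2 = -(D : 𝓞 k) := by
  obtain ⟨ω, hω, hω0⟩ := exists_omega h2
  have hni : ∀ m : ℤ, ω ≠ (m : 𝓞 k) := by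
    intro m hm
    have h1 := hω0 (-m) 1 (by rw [hm]; push_cast; ring)
    exact one_ne_zero h1
  obtain ⟨t, m, hm, h3, h4⟩ := Pool.Agent.TH847.LS.quad_eq h2 ω hni
  have hdisc : discr k < 0 := by
    have h5 := sign_discr (K := k)
    have h6 : InfinitePlace.nrComplexPlaces k = 1 := by
      have h7 := IsTotallyComplex.finrank k
      omega
    rw [h6, pow_one] at h5
    exact Int.sign_eq_neg_one_iff_neg.1 h5
  have h5 : t ^ 2 - 4 * Algebra.norm ℤ ω < 0 := by
    rw [h4]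
    have : 0 < m ^ 2 := by positivity
    exact mul_neg_of_pos_of_neg this hdisc
  obtain ⟨D, hD⟩ : ∃ D : ℕ, t ^ 2 - 4 * Algebra.norm ℤ ω = -(D : ℤ) := by
    refine ⟨(t ^ 2 - 4 * Algebra.norm ℤ ω).natAbs, ?_⟩
    omega
  refine ⟨2 * ω - (t : 𝓞 k), D, by omega, ?_⟩
  rw [h3, hD]
  push_cast
  rfl

/-- a prime `ℓ` such that `-D` is not a square modulo `ℓ` is inert -/
lemma inert_of (h2 : finrank ℚ k = 2) {θ : 𝓞 k} {D : ℕ} (hθ : θ ^ 2 = -(D : 𝓞 k)) {l : ℕ}
    (hl : l.Prime) (hnr : ∀ x : ZMod l, x ^ 2 ≠ -(D : ZMod l)) :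
    ∃ q : HeightOneSpectrum (𝓞 k), q.asIdeal = Ideal.span {(l : 𝓞 k)} := by
  have : Fact l.Prime := ⟨hl⟩
  have hl0 : ((l : ℕ) : 𝓞 k) ≠ 0 := by exact_mod_cast hl.ne_zero
  have hne : Ideal.span {(l : 𝓞 k)} ≠ ⊤ := by
    intro h
    have h1 := congrArg Ideal.absNorm h
    rw [Ideal.absNorm_span_natCast, RingOfIntegers.rank, h2, Ideal.absNorm_top] at h1
    have := hl.one_lt
    nlinarith
  obtain ⟨q, hqm, hq⟩ := Ideal.exists_le_maximal _ hne
  have hlq : (l : 𝓞 k) ∈ q := hq (Ideal.mem_span_singleton_self _)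
  have hq0 : q ≠ ⊥ := by
    rintro rfl
    rw [Ideal.mem_bot] at hlq
    exact hl0 hlq
  let v : HeightOneSpectrum (𝓞 k) := ⟨q, hqm.isPrime, hq0⟩
  have hdvd := Ideal.absNorm_dvd_absNorm_of_le hq
  rw [Ideal.absNorm_span_natCast, RingOfIntegers.rank, h2, Nat.dvd_prime_pow hl] at hdvd
  obtain ⟨e, he, hqe⟩ := hdvd
  have he2 : e = 2 := by
    interval_cases e
    · rw [pow_zero, Ideal.absNorm_eq_one_iff] at hqe
      exact absurd hqe hqm.ne_top
    · exfalso
      rw [pow_one] at hqe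
      -- the residue field has `l` elements
      have hcard : Nat.card (𝓞 k ⧸ q) = l := by
        rw [← hqe, Ideal.absNorm_apply, Submodule.cardQuot_apply]
      have hfin : Finite (𝓞 k ⧸ q) := Nat.finite_of_card_ne_zero (by rw [hcard]; exact hl.ne_zero)
      have h0 : ((l : ℕ) : 𝓞 k ⧸ q) = 0 := by
        rw [← map_natCast (Ideal.Quotient.mk q)]
        exact Ideal.Quotient.eq_zero_iff_mem.2 hlq
      have hnt : Nontrivial (𝓞 k ⧸ q) := Ideal.Quotient.nontrivial_iff.2 hqm.ne_top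
      have hchar : CharP (𝓞 k ⧸ q) l := by
        have h1 : ringChar (𝓞 k ⧸ q) ∣ l := ringChar.dvd h0
        have h3 : ringChar (𝓞 k ⧸ q) ≠ 1 := CharP.ringChar_ne_one
        have h4 : ringChar (𝓞 k ⧸ q) = l := ((Nat.dvd_prime hl).1 h1).resolve_left h3
        rw [← h4]
        exact ringChar.charP _
      let f : ZMod l →+* 𝓞 k ⧸ q := ZMod.castHom (dvd_refl l) _
      have hf : Function.Bijective f := by
        rw [Nat.bijective_iff_injective_and_card]
        exact ⟨f.injective, by rw [hcard, Nat.card_zmod]⟩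
      obtain ⟨x, hx⟩ := hf.2 (Ideal.Quotient.mk q θ)
      apply hnr x
      apply hf.1
      rw [map_pow, hx, ← map_pow, hθ]
      simp
    · rfl
  rw [he2] at hqe
  refine ⟨v, ?_⟩
  -- equality
  obtain ⟨J, hJ⟩ := Ideal.dvd_iff_le.2 hq
  have h5 := congrArg Ideal.absNorm hJ
  rw [Ideal.absNorm_span_natCast, RingOfIntegers.rank, h2, map_mul, hqe] at h5
  have h6 : Ideal.absNorm J = 1 := by
    have h7 : 0 < l ^ 2 := pow_pos hl.pos 2
    exact Nat.eq_of_mul_eq_mul_left h7 (by rw [← h5, mul_one])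
  rw [Ideal.absNorm_eq_one_iff] at h6
  rw [hJ, h6]
  exact (Ideal.mul_top q).symm

/-- the Jacobi symbol -/
lemma jac (D : ℕ) (hD : 0 < D) {l : ℕ} (hl : l.Prime) (h : l % (4 * D) = 4 * D - 1) :
    ∀ x : ZMod l, x ^ 2 ≠ -(D : ZMod l) := by
  have : Fact l.Prime := ⟨hl⟩
  have hodd : Odd (4 * D - 1) := ⟨2 * D - 1, by omega⟩
  have hlodd : Odd l := by
    have h1 := Nat.div_add_mod l (4 * D)
    rw [h] at h1
    rw [← h1]
    exact Even.add_odd ⟨2 * D * (l / (4 * D)), by ring⟩ hodd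
  have h1 : jacobiSym (-(D : ℤ)) l = -1 := by
    rw [jacobiSym.mod_right _ hlodd]
    have h3 : (-(D : ℤ)).natAbs = D := by omega
    rw [h3, h]
    have h4 : jacobiSym (-(D : ℤ)) (4 * D - 1 : ℕ) =
        jacobiSym (-1) (4 * D - 1 : ℕ) * jacobiSym (D : ℤ) (4 * D - 1 : ℕ) := by
      rw [← jacobiSym.mul_left]
      congr 1
      ring
    have h5 : jacobiSym (-1) (4 * D - 1 : ℕ) = -1 := by
      rw [jacobiSym.at_neg_one hodd, ZMod.χ₄_nat_three_mod_four]
      omega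
    have h6 : jacobiSym (D : ℤ) (4 * D - 1 : ℕ) = 1 := by
      have h7 : jacobiSym ((4 : ℤ) * D) (4 * D - 1 : ℕ) = 1 := by
        have h8 : ((4 : ℤ) * D) % ((4 * D - 1 : ℕ) : ℤ) = 1 % ((4 * D - 1 : ℕ) : ℤ) := by
          have h10 : (4 : ℤ) * D = 1 + ((4 * D - 1 : ℕ) : ℤ) * 1 := by omega
          rw [h10, Int.add_mul_emod_self_left]
        rw [jacobiSym.mod_left, h8, ← jacobiSym.mod_left, jacobiSym.one_left]
      have h8 : jacobiSym (4 : ℤ) (4 * D - 1 : ℕ) = 1 := by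
        have h9 : (4 : ℤ) = 2 ^ 2 := by norm_num
        rw [h9]
        apply jacobiSym.sq_one'
        exact Nat.coprime_two_left.2 hodd
      rw [jacobiSym.mul_left, h8, one_mul] at h7
      exact h7
    rw [h4, h5, h6]
    norm_num
  intro x hx
  rw [← jacobiSym.legendreSym.to_jacobiSym, legendreSym.eq_neg_one_iff] at h1
  apply h1
  push_cast
  exact ⟨x, by rw [← hx, pow_two]⟩

end Pool.Agent.K7.H76.SL
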