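import Mathlib
import Pool.Agent.K7.H76.SL.Quad
import Pool.Agent.K7.H76.SL.Cls2

/-!
# The fields `ℚ(√(1 - 4p))`
-/

set_option autoImplicit false

namespace Pool.Agent.K7.H76.SL

open NumberField IsDedekindDomain Module
open Pool.Agent.W289.SL Pool.Agent.Y419.LC.LcpP

variable {p : ℕ} [hpf : Fact p.Prime]

variable {k : Type} [Field k] [NumberField k]

lemma norm_pi (h2 : finrank ℚ k = 2) (π : 𝓞 k) (hπ : π ^ 2 - π + (p : 𝓞 k) = 0) :
    Algebra.norm ℤ π = p := by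
  have hp := hpf.out
  have hni := pi_not_int hp π hπ
  obtain ⟨t, m, hm, h3, h4⟩ := Pool.Agent.TH847.LS.quad_eq h2 π hni
  set N := Algebra.norm ℤ π with hN
  have h5 : (((1 - t) * 4 : ℤ) : 𝓞 k) * π = ((t ^ 2 - 4 * N - t ^ 2 + 4 * p : ℤ) : 𝓞 k) := by
    push_cast at h3 ⊢
    linear_combination h3 - 4 * hπ
  have ht : t = 1 := by
    by_contra hne
    have hne' : ((1 - t) * 4 : ℤ) ≠ 0 := by
      intro h
      apply hne
      omega
    set c : ℤ := (1 - t) * 4 with hc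
    set e : ℤ := t ^ 2 - 4 * N - t ^ 2 + 4 * p with he
    have h6 : ((e ^ 2 - c * e + c ^ 2 * p : ℤ) : 𝓞 k) = ((0 : ℤ) : 𝓞 k) := by
      push_cast
      rw [← h5]
      linear_combination (c : 𝓞 k) ^ 2 * hπ
    have h7 := int_inj _ _ h6
    have h8 : (1 : ℤ) ≤ p := by exact_mod_cast hp.one_lt.le
    have h9 : 0 < c ^ 2 := by positivity
    nlinarith [sq_nonneg (2 * e - c)]
  rw [ht] at h3 h4
  have h6 : ((1 ^ 2 - 4 * N : ℤ) : 𝓞 k) = ((1 - 4 * p : ℤ) : 𝓞 k) := by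
    rw [← h3]
    push_cast
    linear_combination 4 * hπ
  have h7 := int_inj _ _ h6
  linarith

/-- the prime `(π)` -/
lemma prime_pi (h2 : finrank ℚ k = 2) (π : 𝓞 k) (hπ : π ^ 2 - π + (p : 𝓞 k) = 0) :
    ∃ v : HeightOneSpectrum (𝓞 k), v.asIdeal = Ideal.span {π} := by
  have hp := hpf.out
  have h1 : (Ideal.absNorm (Ideal.span {π})) = p := by
    rw [Ideal.absNorm_span_singleton, norm_pi h2 π hπ, Int.natAbs_natCast]
  have h3 : (Ideal.span {π} : Ideal (𝓞 k)).IsPrime := by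
    apply Ideal.isPrime_of_irreducible_absNorm
    rw [h1]
    exact hp
  refine ⟨⟨Ideal.span {π}, h3, ?_⟩, rfl⟩
  intro h4
  rw [h4, Ideal.absNorm_bot] at h1
  exact hp.ne_zero h1.symm

lemma pi_conj (π : 𝓞 k) (hπ : π ^ 2 - π + (p : 𝓞 k) = 0) :
    (1 - π) ^ 2 - (1 - π) + (p : 𝓞 k) = 0 := by
  linear_combination hπ

/-- the expansion -/
lemma pow_pi (π : 𝓞 k) (n : ℕ) : ∃ r : 𝓞 k, (1 - π) ^ n = 1 - n * π + π ^ 2 * r := by
  induction n with
  | zero => exact ⟨0, by simp⟩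
  | succ n ih =>
    obtain ⟨r, hr⟩ := ih
    refine ⟨n + r - π * r, ?_⟩
    rw [pow_succ, hr]
    push_cast
    ring

/-- **The fields `ℚ(√(1 - 4p))`.** -/
theorem pi_data (hp2 : p ≠ 2) (h2 : finrank ℚ k = 2) (π : 𝓞 k)
    (hπ : π ^ 2 - π + (p : 𝓞 k) = 0) : ∃ v v' : HeightOneSpectrum (𝓞 k),
      v.asIdeal = Ideal.span {π} ∧ v'.asIdeal = Ideal.span {1 - π} ∧ v ≠ v' ∧
      ((p : ℕ) : 𝓞 k) ∈ v.asIdeal ∧ ((p : ℕ) : 𝓞 k) ∈ v'.asIdeal ∧
      ¬ p ∣ Nat.card (ClassGroup (𝓞 k)) ∧ (1 - π) ^ (p - 1) - 1 ∉ v.asIdeal ^ 2 := by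
  have hp := hpf.out
  obtain ⟨v, hv⟩ := prime_pi h2 π hπ
  obtain ⟨v', hv'⟩ := prime_pi h2 (1 - π) (pi_conj π hπ)
  have hpm : (p : 𝓞 k) = π * (1 - π) := by linear_combination hπ
  have hπv : π ∈ v.asIdeal := by
    rw [hv]
    exact Ideal.mem_span_singleton_self π
  have hπv' : (1 - π) ∉ v.asIdeal := by
    intro h
    apply v.isPrime.ne_top
    rw [Ideal.eq_top_iff_one]
    have h3 := Ideal.add_mem _ h hπv
    rwa [sub_add_cancel] at h3
  refine ⟨v, v', hv, hv', ?_, ?_, ?_, ?_, ?_⟩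
  · intro h
    apply hπv'
    rw [h, hv']
    exact Ideal.mem_span_singleton_self _
  · rw [hpm]
    exact Ideal.mul_mem_right _ _ hπv
  · rw [hpm, hv']
    exact Ideal.mul_mem_left _ _ (Ideal.mem_span_singleton_self _)
  · intro h
    have h3 := class_lt h2 hp hp2 π hπ
    have h4 := Nat.le_of_dvd Nat.card_pos h
    omega
  · intro h
    obtain ⟨r, hr⟩ := pow_pi π (p - 1)
    have h3 : ((p - 1 : ℕ) : 𝓞 k) = π * (1 - π) - 1 := by
      rw [Nat.cast_sub hp.one_lt.le, hpm, Nat.cast_one]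
    rw [hv, Ideal.span_singleton_pow, Ideal.mem_span_singleton, hr, h3] at h
    obtain ⟨c, hc⟩ := h
    have hπ0 : π ≠ 0 := by
      rintro rfl
      rw [zero_mul] at hpm
      exact hp.ne_zero (by exact_mod_cast hpm)
    -- `π (1 + π (...)) = 0`
    have h4 : π * (1 - π * (1 - π - r + c)) = 0 := by linear_combination hc
    rcases mul_eq_zero.1 h4 with h5 | h5
    · exact hπ0 h5
    · apply v.isPrime.ne_top
      rw [Ideal.eq_top_iff_one]
      have h6 : (1 : 𝓞 k) = π * (1 - π - r + c) := by linear_combination h5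
      rw [h6]
      exact Ideal.mul_mem_right _ _ hπv

end Pool.Agent.K7.H76.SL
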