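import Mathlib
import Pool.Agent.K7.H76.SL.Pi
import Pool.Agent.K7.H76.SL.Add
import Pool.Agent.K7.H76.SL.Comp
import Pool.Agent.K7.H76.SL.Inert

/-!
# Unconditional families
-/

set_option autoImplicit false

namespace Pool.Agent.K7.H76.SL

open NumberField IsDedekindDomain Module
open Pool.Agent.W289.SL Pool.Agent.Y419.LC.LcpP
open Pool.Agent.Y18.LC (Unram)

variable {p : ℕ} [hpf : Fact p.Prime]

lemma upS_stable {K H : Type} [Field K] [NumberField K] [Field H] [NumberField H] [Algebra K H]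
    {S : Set (K →+* ℂ_[p])} (hS : PlaceStable S) : PlaceStable (upS H S) := by
  intro τ hτ τ' hττ'
  refine hS _ hτ _ fun x => ?_
  exact hττ' (algebraMap (𝓞 K) (𝓞 H) x)

section cm

variable {k : Type} [Field k] [NumberField k]

/-- the two embeddings of a quadratic field are exchanged by the complex conjugation of `K` -/
theorem cm_type [IsTotallyComplex k] (h2 : finrank ℚ k = 2) (φ : k →+* ℂ_[p])
    (F K : Type) [Field F] [NumberField F] [Field K] [NumberField K] [Algebra F K] [Algebra k K]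
    [IsTotallyReal F] (hFK : finrank F K = 2) : IsCMType p F K (upS K {φ}) := by
  intro c hc σ
  -- `c` is not trivial on `k`
  have hck : (c : K →+* K).comp (algebraMap k K) ≠ algebraMap k K := by
    intro hcon
    let L : IntermediateField F K := IntermediateField.fixedField (Subgroup.zpowers c)
    have hL : L = ⊥ ∨ L = ⊤ := by
      have h3 := IntermediateField.isSimpleOrder_of_finrank_prime F K (by
        rw [hFK]
        exact Nat.prime_two)
      exact h3.eq_bot_or_eq_top L
    have hLmem : ∀ x : K, x ∈ L ↔ c x = x := by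
      intro x
      constructor
      · intro h
        exact h ⟨c, Subgroup.mem_zpowers c⟩
      · rintro h ⟨g, n, rfl⟩
        have h4 : c ∈ MulAction.stabilizer (K ≃ₐ[F] K) x := h
        exact Subgroup.zpow_mem _ h4 n
    rcases hL with hL | hL
    · obtain ⟨ψ⟩ : Nonempty (K →+* ℂ) := inferInstance
      have h3 := IsTotallyReal.complexEmbedding_isReal (ψ.comp (algebraMap F K))
      apply IsTotallyComplex.complexEmbedding_not_isReal (ψ.comp (algebraMap k K))
      rw [ComplexEmbedding.isReal_iff] at h3 ⊢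
      ext y
      have h4 : algebraMap k K y ∈ L := by
        rw [hLmem]
        exact congrArg (fun f : k →+* K => f y) hcon
      rw [hL, IntermediateField.mem_bot] at h4
      obtain ⟨z, hz⟩ := h4
      have h5 := congrArg (fun f : F →+* ℂ => f z) h3
      change ComplexEmbedding.conjugate (ψ.comp (algebraMap F K)) z = ψ (algebraMap F K z) at h5
      rw [ComplexEmbedding.conjugate_coe_eq] at h5 ⊢
      change (starRingEnd ℂ) (ψ (algebraMap F K z)) = _ at h5
      change (starRingEnd ℂ) (ψ (algebraMap k K y)) = ψ (algebraMap k K y)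
      rw [← hz]
      exact h5
    · apply hc
      ext x
      have h4 : x ∈ L := by
        rw [hL]
        trivial
      exact (hLmem x).1 h4
  have hne : (σ.comp (c : K →+* K)).comp (algebraMap k K) ≠ σ.comp (algebraMap k K) := by
    intro h
    apply hck
    ext y
    apply σ.injective
    exact congrArg (fun f : k →+* ℂ_[p] => f y) h
  change σ.comp (algebraMap k K) ∈ ({φ} : Set _) ↔ ¬ (σ.comp (c : K →+* K)).comp (algebraMap k K) ∈
    ({φ} : Set _)
  rw [Set.mem_singleton_iff, Set.mem_singleton_iff]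
  constructor
  · intro h h'
    exact hne (h'.trans h.symm)
  · intro h
    by_contra hcon
    have h3 : Fintype.card (k →+* ℂ_[p]) = 2 := two_emb h2
    classical
    have h4 : ({φ, σ.comp (algebraMap k K), (σ.comp (c : K →+* K)).comp (algebraMap k K)} :
        Finset (k →+* ℂ_[p])).card = 3 := by
      rw [Finset.card_eq_three]
      exact ⟨_, _, _, fun h5 => hcon h5.symm, fun h5 => h h5.symm, fun h5 => hne h5.symm, rfl⟩
    have h5 := Finset.card_le_univ ({φ, σ.comp (algebraMap k K),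
      (σ.comp (c : K →+* K)).comp (algebraMap k K)} : Finset (k →+* ℂ_[p]))
    rw [h4, h3] at h5
    omega

end cm

section family

variable {k : Type} [Field k] [NumberField k]

/-- **The defect in the families.** -/
theorem family {φ : k →+* ℂ_[p]} (hNT : NoTor φ) (hPS : PlaceStable {φ})
    {S₀ : Set (HeightOneSpectrum (𝓞 k))} (hV : VTriv {φ} S₀) {K H : Type} [Field K] [NumberField K]
    [Algebra k K] [IsGalois k K] [Field H] [NumberField H] [Algebra K H] [IsGalois K H]
    (hGK : ∃ n : ℕ, Nat.card (K ≃ₐ[k] K) = p ^ n)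
    (hK : ∀ w : HeightOneSpectrum (𝓞 k), w ∉ S₀ → ¬ Induced w φ → Unr K w)
    (hGH : ∃ n : ℕ, Nat.card (H ≃ₐ[K] H) = p ^ n) (T : Finset (HeightOneSpectrum (𝓞 K)))
    (hH : ∀ w : HeightOneSpectrum (𝓞 K), w ∉ T → w ∉ up0 K S₀ →
      (∀ σ ∈ upS K {φ}, ¬ Induced w σ) → Unr H w)
    (χ : (H ≃ₐ[K] H) →* ℂ_[p]ˣ) (L : ℂ_[p] → ℂ_[p]) (hL : IsIwasawaLog p L)
    (x : Fin (T.card + 1) → UM p H)
    (hx1 : ∀ i, ∀ g : H ≃ₐ[K] H, actLin p (g : H →+* H) (x i) = ((χ g : ℂ_[p]ˣ) : ℂ_[p]) • x i)
    (hx2 : ∀ i, ∀ σ : H →+* ℂ_[p], σ.comp (algebraMap K H) ∈ upS K {φ} → logLin hL σ (x i) = 0) :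
    ¬ LinearIndependent ℂ_[p] x := by
  have hG2 : ∃ n : ℕ, ∀ g : K ≃ₐ[k] K, g ^ p ^ n = 1 := by
    obtain ⟨n, hn⟩ := hGK
    exact ⟨n, fun g => by rw [← hn]; exact pow_card_eq_one'⟩
  obtain ⟨σ₀, hσ₀⟩ := exists_ext (H := K) φ
  have hne : (upS K {φ}).Nonempty := ⟨σ₀, hσ₀⟩
  have hNT' : ∀ σ ∈ upS K {φ}, NoTor σ := by
    intro σ hσ
    refine (loc_aux hG2 σ ?_).1
    have h1 : σ.comp (algebraMap k K) = φ := hσ
    rw [h1]
    exact hNT
  have hVK : VTriv (upS K {φ}) (up0 K S₀) := by
    refine going_up_triv hGK hne ?_ ?_ ?_ hV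
    · intro σ hσ
      rw [Set.mem_singleton_iff] at hσ
      rw [hσ]
      exact hNT
    · intro σ _
      exact exists_ext σ
    · intro w hw hw'
      exact hK w hw (hw' φ rfl)
  have hB := bound_add hVK.bound T
  rw [zero_add] at hB
  refine defect_bound hGH (upS_stable hPS) hne hNT' ?_ T.card hB χ L hL x hx1 hx2
  intro w hw hw'
  exact hH w (fun h => hw (Or.inr h)) (fun h => hw (Or.inl h)) hw'

/-- unramified primes of a composite -/
theorem unr_of {K : Type} [Field K] [NumberField K] [Algebra k K] (F : IntermediateField ℚ K)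
    (hG : IsGalois ℚ F) (htop : IntermediateField.adjoin k (F : Set K) = ⊤) (m : ℕ)
    (hU : ∀ l : ℕ, l.Prime → ¬ l ∣ m → Unram F l) (v : HeightOneSpectrum (𝓞 k))
    (hv : (m : 𝓞 k) ∉ v.asIdeal) : Unr K v := by
  obtain ⟨l, hl, hlv⟩ : ∃ l : ℕ, l.Prime ∧ (l : 𝓞 k) ∈ v.asIdeal := by
    have h1 := Ideal.absNorm_mem v.asIdeal
    have h3 : Ideal.absNorm v.asIdeal ≠ 0 := by
      rw [Ne, Ideal.absNorm_eq_zero_iff]
      exact v.ne_bot
    have h4 := Nat.prod_primeFactorsList h3
    rw [← h4] at h1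
    have h5 : ∀ L : List ℕ, (∀ l ∈ L, l.Prime) → ((L.prod : ℕ) : 𝓞 k) ∈ v.asIdeal →
        ∃ l : ℕ, l.Prime ∧ (l : 𝓞 k) ∈ v.asIdeal := by
      intro L
      induction L with
      | nil =>
        intro _ h
        rw [List.prod_nil, Nat.cast_one] at h
        exact absurd ((Ideal.eq_top_iff_one _).2 h) v.isPrime.ne_top
      | cons a L ih =>
        intro hL h
        rw [List.prod_cons, Nat.cast_mul] at h
        rcases v.isPrime.mem_or_mem h with h6 | h6
        · exact ⟨a, hL a (by simp), h6⟩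
        · exact ih (fun l hl => hL l (by simp [hl])) h6
    exact h5 _ (fun l hl => Nat.prime_of_mem_primeFactorsList hl) h1
  have hlm : ¬ l ∣ m := by
    rintro ⟨c, rfl⟩
    apply hv
    rw [Nat.cast_mul]
    exact Ideal.mul_mem_right _ _ hlv
  exact Pool.Agent.Y447.LC.ram k K F hG htop l hl (hU l hl hlm) v hlv

end family

end Pool.Agent.K7.H76.SL
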