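import Mathlib
import Pool.Agent.K7.H76.SL.Fam

/-!
# Primes above, discriminants
-/

set_option autoImplicit false

namespace Pool.Agent.K7.H76.SL

open NumberField IsDedekindDomain Module
open Pool.Agent.W289.SL Pool.Agent.Y419.LC.LcpP
open Pool.Agent.Y18.LC (Unram)

section

variable {k K : Type} [Field k] [NumberField k] [Field K] [NumberField K] [Algebra k K]

/-- a prime containing `v` is above `v` -/
lemma above_of_le {v : HeightOneSpectrum (𝓞 k)} {w : HeightOneSpectrum (𝓞 K)}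
    (h : ∀ x ∈ v.asIdeal, algebraMap (𝓞 k) (𝓞 K) x ∈ w.asIdeal) : Above v w := by
  have h1 : v.asIdeal ≤ w.asIdeal.comap (algebraMap (𝓞 k) (𝓞 K)) := h
  have h2 : w.asIdeal.comap (algebraMap (𝓞 k) (𝓞 K)) ≠ ⊤ := by
    rw [Ne, Ideal.comap_eq_top_iff]
    exact w.isPrime.ne_top
  have h3 := v.isMaximal.eq_of_le h2 h1
  intro x
  rw [h3]
  exact Iff.rfl

/-- the primes above `v` are induced by embeddings above `φ` -/
theorem ind_above {p : ℕ} [hpf : Fact p.Prime] [IsGalois k K] {v : HeightOneSpectrum (𝓞 k)}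
    {φ : k →+* ℂ_[p]} (hφ : Induced v φ) {w : HeightOneSpectrum (𝓞 K)} (hw : Above v w) :
    ∃ σ ∈ upS K {φ}, Induced w σ := by
  classical
  by_contra hcon
  push Not at hcon
  choose u hu using fun σ : K →+* ℂ_[p] => exists_ind σ
  have hne : ∀ σ ∈ upS K {φ}, u σ ≠ w := by
    intro σ hσ h
    exact hcon σ hσ (h ▸ (hu σ).1)
  let s : Finset (K →+* ℂ_[p]) := Finset.univ.filter (fun σ => σ ∈ upS K {φ})
  obtain ⟨σ₀, hσ₀⟩ := exists_ext (H := K) φ
  have hsub : ¬ ((w.asIdeal : Set (𝓞 K)) ⊆ ⋃ i ∈ (↑s : Set (K →+* ℂ_[p])),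
      ((u i).asIdeal : Set (𝓞 K))) := by
    rw [Ideal.subset_union_prime σ₀ σ₀ (fun i _ _ _ => (u i).isPrime)]
    rintro ⟨σ, hσ, hle⟩
    refine hne σ (Finset.mem_filter.1 hσ).2 ?_
    exact HeightOneSpectrum.ext (w.isMaximal.eq_of_le (u σ).isPrime.ne_top hle).symm
  rw [Set.not_subset] at hsub
  obtain ⟨x, hxw, hx⟩ := hsub
  have hx1 : ∀ σ ∈ upS K {φ}, ‖σ (x : K)‖ = 1 := by
    intro σ hσ
    have h1 : x ∉ (u σ).asIdeal := by
      intro h
      apply hx
      rw [Set.mem_iUnion₂]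
      exact ⟨σ, by simpa [s] using hσ, h⟩
    rw [(hu σ).1 x] at h1
    exact le_antisymm (norm_emb_le σ x) (not_lt.1 h1)
  let _ : Algebra k ℂ_[p] := φ.toAlgebra
  have hN := Algebra.norm_eq_prod_embeddings k (ℂ_[p]) (x : K)
  have hN1 : ‖φ ((RingOfIntegers.norm k x : 𝓞 k) : k)‖ = 1 := by
    rw [RingOfIntegers.coe_norm]
    have h1 : φ (Algebra.norm k (x : K)) = ∏ σ : K →ₐ[k] ℂ_[p], σ (x : K) := hN
    rw [h1, norm_prod]
    refine Finset.prod_eq_one fun σ _ => hx1 (σ : K →+* ℂ_[p]) ?_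
    exact σ.comp_algebraMap
  have hNw : algebraMap (𝓞 k) (𝓞 K) (RingOfIntegers.norm k x) ∈ w.asIdeal :=
    w.asIdeal.mem_of_dvd (RingOfIntegers.dvd_norm k x) hxw
  rw [hw, hφ] at hNw
  linarith

end

section

variable {E : Type} [Field E] [NumberField E] [IsGalois ℚ E]

/-- unramified primes do not divide the discriminant -/
lemma not_dvd_discr {q : ℕ} (hq : q.Prime) (hU : Unram E q) : ¬ (q : ℤ) ∣ discr E := by
  have hqI : Prime (q : ℤ) := Nat.prime_iff_prime_int.1 hq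
  rw [not_dvd_discr_iff_forall_mem E (𝓞 E) hqI]
  intro P hP hqP
  have h1 := Pool.Agent.Y447.LC.ram_one hq hU P (by exact_mod_cast hqP)
  exact Ideal.ramificationIdx_eq_one_iff.1 h1

/-- a field ramified at one prime at most -/
lemma dvd_discr_iff (l : ℕ) (hl : l.Prime) (hU : ∀ r : ℕ, r.Prime → r ≠ l → Unram E r)
    (hd : 1 < finrank ℚ E) (r : ℕ) (hr : r.Prime) : (r : ℤ) ∣ discr E ↔ r = l := by
  constructor
  · intro h
    by_contra hne
    exact not_dvd_discr hr (hU r hr hne) h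
  · rintro rfl
    have h1 : 2 < |discr E| := abs_discr_gt_two hd
    have h2 : (discr E).natAbs ≠ 1 := by
      intro h
      rw [Int.abs_eq_natAbs, h] at h1
      norm_num at h1
    obtain ⟨s, hs, hsd⟩ := Nat.exists_prime_and_dvd h2
    have h3 : (s : ℤ) ∣ discr E := Int.natCast_dvd.2 hsd
    have h4 : s = r := by
      by_contra hne
      exact not_dvd_discr hs (hU s hs hne) h3
    rw [← h4]
    exact h3

end

end Pool.Agent.K7.H76.SL
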