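import Mathlib
import Pool.Agent.K7.H76.SL.Abv

/-!
# The final statements
-/

set_option autoImplicit false

namespace Pool.Agent.K7.H76.SL

open NumberField IsDedekindDomain Module
open Pool.Agent.W289.SL Pool.Agent.Y419.LC.LcpP
open Pool.Agent.Y18.LC (Unram)

lemma leo_of_defect {p : ℕ} [Fact p.Prime] {K H : Type} [Field K] [Field H] [NumberField H]
    [Algebra K H] {S : Set (K →+* ℂ_[p])} {χ : (H ≃ₐ[K] H) →* ℂ_[p]ˣ}
    (h : DefectLE p K H S χ 0) : SigmaLeopoldt p K H S χ := by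
  intro L hL x hx1 hx2
  by_contra hne
  have hsub : Subsingleton (Fin (0 + 1)) := inferInstanceAs (Subsingleton (Fin 1))
  refine h L hL (fun _ => x) (fun _ => hx1) (fun _ => hx2) ?_
  exact LinearIndependent.of_subsingleton (0 : Fin (0 + 1)) hne

variable {p : ℕ} [hpf : Fact p.Prime]

section one

variable {k : Type} [Field k] [NumberField k]

/-- the prime below -/
lemma exists_below {K : Type} [Field K] [NumberField K] [Algebra k K] {n : ℕ} (hn : n ≠ 0)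
    {w : HeightOneSpectrum (𝓞 K)} (hw : (n : 𝓞 K) ∈ w.asIdeal) :
    ∃ v : HeightOneSpectrum (𝓞 k), Above v w ∧ (n : 𝓞 k) ∈ v.asIdeal := by
  have hmem : (n : 𝓞 k) ∈ w.asIdeal.comap (algebraMap (𝓞 k) (𝓞 K)) := by
    rw [Ideal.mem_comap, map_natCast]
    exact hw
  have hpr : (w.asIdeal.comap (algebraMap (𝓞 k) (𝓞 K))).IsPrime :=
    Ideal.IsPrime.comap _ (hK := w.isPrime)
  refine ⟨⟨w.asIdeal.comap (algebraMap (𝓞 k) (𝓞 K)), hpr, ?_⟩, fun x => Iff.rfl, hmem⟩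
  intro h
  rw [h, Ideal.mem_bot] at hmem
  exact hn (by exact_mod_cast hmem)

/-- the primes above `p` of a quadratic field -/
lemma two_primes (h2 : finrank ℚ k = 2) {v v' : HeightOneSpectrum (𝓞 k)} (hne : v ≠ v')
    (hv : ((p : ℕ) : 𝓞 k) ∈ v.asIdeal) (hv' : ((p : ℕ) : 𝓞 k) ∈ v'.asIdeal)
    {w : HeightOneSpectrum (𝓞 k)} (hw : ((p : ℕ) : 𝓞 k) ∈ w.asIdeal) : w = v ∨ w = v' := by
  obtain ⟨φ, φ', h1, h3, hall⟩ := split_emb h2 hne hv hv'
  exact prime_ind hall hw h1 h3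

/-- the general family -/
theorem general [IsTotallyComplex k] (hp2 : p ≠ 2) (h2 : finrank ℚ k = 2)
    {v v' q : HeightOneSpectrum (𝓞 k)} (hne : v ≠ v') (hv : ((p : ℕ) : 𝓞 k) ∈ v.asIdeal)
    (hv' : ((p : ℕ) : 𝓞 k) ∈ v'.asIdeal) (hcl : ¬ p ∣ Nat.card (ClassGroup (𝓞 k))) (hqv : q ≠ v)
    {α : 𝓞 k} {h : ℕ} (hh : ¬ p ∣ h) (hα : Ideal.span {α} = q.asIdeal ^ h)
    (hα2 : α ^ (p - 1) - 1 ∉ v.asIdeal ^ 2) {φ : k →+* ℂ_[p]} (hφ : Induced v φ)
    (K : Type) [Field K] [NumberField K] [Algebra k K] [IsGalois k K]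
    (hGK : ∃ n : ℕ, finrank k K = p ^ n)
    (hK : ∀ w : HeightOneSpectrum (𝓞 k), w ≠ v → w ≠ q → Unr K w) :
    PlaceStable (upS K {φ}) ∧ Bounded p K (upS K {φ}) {w | Above q w} := by
  obtain ⟨hNT, hPS, hV⟩ := crit hp2 h2 hne hv hv' hcl hqv hh hα hα2 hφ
  refine ⟨upS_stable hPS, ?_⟩
  intro H _ _ _ _ hGH T hH χ
  have hGK' : ∃ n : ℕ, Nat.card (K ≃ₐ[k] K) = p ^ n := by
    obtain ⟨n, hn⟩ := hGK
    exact ⟨n, by rw [IsGalois.card_aut_eq_finrank, hn]⟩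
  have hGH' : ∃ n : ℕ, Nat.card (H ≃ₐ[K] H) = p ^ n := by
    obtain ⟨n, hn⟩ := hGH
    exact ⟨n, by rw [IsGalois.card_aut_eq_finrank, hn]⟩
  have hD : DefectLE p K H (upS K {φ}) χ T.card := by
    intro L hL x hx1 hx2
    refine family hNT hPS hV hGK' ?_ hGH' T ?_ χ L hL x hx1 hx2
    · intro w hw hw'
      refine hK w ?_ hw
      rintro rfl
      exact hw' hφ
    · intro w hw hw' hw''
      exact hH w (fun h => hw' ⟨q, rfl, h⟩) hw hw''
  refine ⟨hD, ?_⟩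
  rintro rfl
  exact leo_of_defect hD

end one

section two

variable {k : Type} [Field k] [NumberField k]

lemma pi_phi (hp2 : p ≠ 2) (h2 : finrank ℚ k = 2) (π : 𝓞 k)
    (hπ : π ^ 2 - π + (p : 𝓞 k) = 0) (φ : k →+* ℂ_[p]) :
    ∃ (v v' : HeightOneSpectrum (𝓞 k)) (α : 𝓞 k), Induced v φ ∧ v ≠ v' ∧
      ((p : ℕ) : 𝓞 k) ∈ v.asIdeal ∧ ((p : ℕ) : 𝓞 k) ∈ v'.asIdeal ∧
      ¬ p ∣ Nat.card (ClassGroup (𝓞 k)) ∧ Ideal.span {α} = v'.asIdeal ^ 1 ∧
      α ^ (p - 1) - 1 ∉ v.asIdeal ^ 2 := by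
  obtain ⟨v, v', hv, hv', hne, hpv, hpv', hcl, hpi⟩ := pi_data hp2 h2 π hπ
  obtain ⟨w, w', hw, hw', -, -, -, -, hpi'⟩ := pi_data hp2 h2 (1 - π) (pi_conj π hπ)
  obtain ⟨φ₁, φ₂, h1, h3, hall⟩ := split_emb h2 hne hpv hpv'
  have hwv : w = v' := HeightOneSpectrum.ext (by rw [hw, hv'])
  rcases hall φ with rfl | rfl
  · exact ⟨v, v', 1 - π, h1, hne, hpv, hpv', hcl, by rw [pow_one, hv'], hpi⟩
  · refine ⟨v', v, π, h3, hne.symm, hpv', hpv, hcl, by rw [pow_one, hv], ?_⟩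
    rw [← hwv]
    have h5 : 1 - (1 - π) = π := by ring
    rw [h5] at hpi'
    exact hpi'

theorem tower [IsTotallyComplex k] (hp2 : p ≠ 2) (h2 : finrank ℚ k = 2) (π : 𝓞 k)
    (hπ : π ^ 2 - π + (p : 𝓞 k) = 0) (n : ℕ) :
    ∃ (K : Type) (_ : Field K) (_ : NumberField K) (_ : Algebra k K) (F : IntermediateField ℚ K),
      CMData p K F n ∧ (∀ r : ℕ, r.Prime → (r : ℤ) ∣ discr F → r = p) ∧
      ∀ φ : k →+* ℂ_[p], IsCMType p F K (upS K {φ}) ∧ PlaceStable (upS K {φ}) ∧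
        Bounded p K (upS K {φ}) {w | ((p : ℕ) : 𝓞 K) ∈ w.asIdeal} := by
  have hp := hpf.out
  have hne0 : NeZero (p ^ (n + 1)) := ⟨pow_ne_zero _ hp.ne_zero⟩
  obtain ⟨E, _, _, hG, hdE, hUE⟩ := exists_sub (p ^ (n + 1)) (p ^ n)
    (ZMod.isCyclic_units_of_prime_pow p hp hp2 (n + 1)) (by
      rw [Nat.totient_prime_pow_succ hp]
      exact dvd_mul_right _ _)
  have hodd : Odd (finrank ℚ E) := by
    rw [hdE]
    exact (hp.odd_of_ne_two hp2).pow
  obtain ⟨K, _, _, _, F, ⟨e⟩, hFG, hFd, hFR, hKC, hFK, hKG, hKd, htop⟩ := exists_comp k h2 E hodd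
  have hUF : ∀ l : ℕ, l.Prime → l ≠ p → Unram F l := by
    intro l hl hlp
    refine unram_equiv e (hUE l hl ?_)
    intro h
    exact hlp ((Nat.prime_dvd_prime_iff_eq hl hp).1 (hl.dvd_of_dvd_pow h))
  have hUnr : ∀ w : HeightOneSpectrum (𝓞 k), ((p : ℕ) : 𝓞 k) ∉ w.asIdeal → Unr K w := by
    intro w hw
    exact unr_of F hFG htop p (fun l hl hlp => hUF l hl (fun h => hlp (h ▸ dvd_refl _))) w hw
  refine ⟨K, inferInstance, inferInstance, inferInstance, F,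
    ⟨hFG, hFd.trans hdE, hFR, hKC, hFK⟩, ?_, ?_⟩
  · intro r hr hrd
    by_contra hne
    exact not_dvd_discr hr (hUF r hr hne) hrd
  · intro φ
    obtain ⟨v, v', α, hφ, hne, hv, hv', hcl, hα, hα2⟩ := pi_phi hp2 h2 π hπ φ
    have hp1 : ¬ p ∣ 1 := fun h => hp.one_lt.ne' (Nat.dvd_one.1 h)
    obtain ⟨hPS, hB⟩ := general hp2 h2 hne hv hv' hcl hne.symm hp1 hα hα2 hφ K
      ⟨n, hKd.trans hdE⟩ (by
        intro w hwv hwv'
        refine hUnr w fun hpw => ?_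
        rcases two_primes h2 hne hv hv' hpw with h | h
        · exact hwv h
        · exact hwv' h)
    refine ⟨cm_type h2 φ F K hFK, hPS, ?_⟩
    intro H _ _ _ _ hGH T hH χ
    refine hB H hGH T ?_ χ
    intro w hwR hwT hwS
    refine hH w ?_ hwT hwS
    intro hpw
    obtain ⟨w₀, hab, hp0⟩ := exists_below (k := k) hp.ne_zero hpw
    rcases two_primes h2 hne hv hv' hp0 with h | h
    · subst h
      obtain ⟨σ, hσ, hind⟩ := ind_above hφ hab
      exact hwS σ hσ hind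
    · subst h
      exact hwR hab

end two

section three

variable {k : Type} [Field k] [NumberField k]

/-- a square root of a negative integer prime to `p` -/
lemma exists_sqrt' [IsTotallyComplex k] (h2 : finrank ℚ k = 2) {v v' : HeightOneSpectrum (𝓞 k)}
    (hne : v ≠ v') (hv : ((p : ℕ) : 𝓞 k) ∈ v.asIdeal) (hv' : ((p : ℕ) : 𝓞 k) ∈ v'.asIdeal) :
    ∃ (θ : 𝓞 k) (D : ℕ), 0 < D ∧ ¬ p ∣ D ∧ θ ^ 2 = -(D : 𝓞 k) := by
  have hp := hpf.out
  -- `(p) = v v'`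
  have hvv : Ideal.span {((p : ℕ) : 𝓞 k)} = v.asIdeal * v'.asIdeal := by
    have h1 : v.asIdeal * v'.asIdeal ∣ Ideal.span {((p : ℕ) : 𝓞 k)} := by
      apply IsCoprime.mul_dvd
      · rw [Ideal.isCoprime_iff_sup_eq]
        exact v.isMaximal.coprime_of_ne v'.isMaximal fun h => hne (HeightOneSpectrum.ext h)
      · rw [Ideal.dvd_span_singleton]
        exact hv
      · rw [Ideal.dvd_span_singleton]
        exact hv'
    obtain ⟨J, hJ⟩ := h1
    have h3 := congrArg Ideal.absNorm hJ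
    rw [Ideal.absNorm_span_natCast, RingOfIntegers.rank, h2, map_mul, map_mul] at h3
    obtain ⟨a, ha⟩ := absNorm_dvd_of_mem hv
    obtain ⟨b, hb⟩ := absNorm_dvd_of_mem hv'
    have h4 : Ideal.absNorm J ∣ 1 := by
      refine ⟨a * b, ?_⟩
      have h5 : p ^ 2 * 1 = p ^ 2 * (Ideal.absNorm J * (a * b)) := by
        rw [mul_one]
        conv_lhs => rw [h3, ha, hb]
        ring
      exact Nat.eq_of_mul_eq_mul_left (pow_pos hp.pos 2) h5
    rw [Nat.dvd_one, Ideal.absNorm_eq_one_iff] at h4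
    rw [hJ, h4]
    exact Ideal.mul_top _
  obtain ⟨θ, D, hD, hθ⟩ := exists_sqrt h2
  induction D using Nat.strong_induction_on generalizing θ with
  | _ D ih =>
    by_cases hpD : p ∣ D
    · obtain ⟨D', rfl⟩ := hpD
      have h1 : ∀ w : HeightOneSpectrum (𝓞 k), ((p : ℕ) : 𝓞 k) ∈ w.asIdeal → θ ∈ w.asIdeal := by
        intro w hw
        apply w.isPrime.mem_of_pow_mem 2
        rw [hθ, Nat.cast_mul, ← mul_neg]
        exact Ideal.mul_mem_right _ _ hw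
      have h3 : θ ∈ Ideal.span {((p : ℕ) : 𝓞 k)} := by
        rw [hvv, Ideal.mul_eq_inf_of_isCoprime]
        · exact ⟨h1 v hv, h1 v' hv'⟩
        · rw [Ideal.isCoprime_iff_sup_eq]
          exact v.isMaximal.coprime_of_ne v'.isMaximal fun h => hne (HeightOneSpectrum.ext h)
      rw [Ideal.mem_span_singleton] at h3
      obtain ⟨θ', rfl⟩ := h3
      have hp0 : ((p : ℕ) : 𝓞 k) ≠ 0 := by exact_mod_cast hp.ne_zero
      have h4 : (p : 𝓞 k) * θ' ^ 2 = -(D' : 𝓞 k) := by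
        apply mul_left_cancel₀ hp0
        have h5 : ((p : ℕ) : 𝓞 k) * ((p : 𝓞 k) * θ' ^ 2) = (((p : ℕ) : 𝓞 k) * θ') ^ 2 := by ring
        rw [h5, hθ]
        push_cast
        ring
      -- `p ∣ D'`
      have h5 : p ∣ D' := by
        apply dvd_of_natCast_mem hv
        have h6 : (D' : 𝓞 k) = ((p : ℕ) : 𝓞 k) * (-θ' ^ 2) := by linear_combination h4
        rw [h6]
        exact Ideal.mul_mem_right _ _ hv
      obtain ⟨D'', rfl⟩ := h5
      have hD'' : 0 < D'' := by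
        rcases Nat.eq_zero_or_pos D'' with h | h
        · subst h
          simp at hD
        · exact h
      refine ih D'' ?_ θ' hD'' ?_
      · have h7 := hp.two_le
        have h8 : 2 * (2 * D'') ≤ p * (p * D'') := by gcongr
        omega
      · apply mul_left_cancel₀ hp0
        rw [h4]
        push_cast
        ring
    · exact ⟨θ, D, hD, hpD, hθ⟩

/-- primes in arithmetic progressions -/
lemma exists_l (hp2 : p ≠ 2) {D : ℕ} (hD : 0 < D) (hpD : ¬ p ∣ D) (B : ℕ) :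
    ∃ l : ℕ, B < l ∧ l.Prime ∧ l % (4 * D) = 4 * D - 1 ∧ l % p ^ 2 = 1 + p := by
  have hp := hpf.out
  have hcop : Nat.Coprime (p ^ 2) (4 * D) := by
    apply Nat.Coprime.pow_left
    rw [hp.coprime_iff_not_dvd, hp.dvd_mul]
    rintro (h | h)
    · have h4 : (4 : ℕ) = 2 ^ 2 := by norm_num
      rw [h4] at h
      exact hp2 ((Nat.prime_dvd_prime_iff_eq hp Nat.prime_two).1 (hp.dvd_of_dvd_pow h))
    · exact hpD h
  obtain ⟨a, ha1, ha2⟩ := Nat.chineseRemainder hcop (1 + p) (4 * D - 1)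
  have hpos : 0 < p ^ 2 := pow_pos hp.pos 2
  have hac : Nat.Coprime a (p ^ 2 * (4 * D)) := by
    apply Nat.Coprime.mul_right
    · apply Nat.Coprime.pow_right
      rw [Nat.coprime_comm, hp.coprime_iff_not_dvd]
      intro h
      have h3 : a ≡ 1 + p [MOD p] := ha1.of_dvd (dvd_pow_self p two_ne_zero)
      have h4 : (1 + p) % p = 0 := by
        rw [← h3]
        exact Nat.mod_eq_zero_of_dvd h
      rw [Nat.add_mod_right, Nat.mod_eq_of_lt hp.one_lt] at h4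
      exact one_ne_zero h4
    · have h3 : Nat.gcd (a) (4 * D) = Nat.gcd (4 * D - 1) (4 * D) := ha2.gcd_eq
      rw [Nat.coprime_iff_gcd_eq_one, h3, ← Nat.coprime_iff_gcd_eq_one]
      have h4 : Nat.Coprime (4 * D - 1) (4 * D - 1 + 1) := by simp
      have h5 : 4 * D - 1 + 1 = 4 * D := by omega
      rwa [h5] at h4
  obtain ⟨l, hl, hlp, hla⟩ := Nat.forall_exists_prime_gt_and_modEq B
    (q := p ^ 2 * (4 * D)) (a := a) (by positivity) hac
  refine ⟨l, hl, hlp, ?_, ?_⟩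
  · have h3 : l ≡ 4 * D - 1 [MOD 4 * D] := (hla.of_dvd (Dvd.intro_left _ rfl)).trans ha2
    have h4 : (4 * D - 1) % (4 * D) = 4 * D - 1 := Nat.mod_eq_of_lt (by omega)
    rw [← h4]
    exact h3
  · have h3 : l ≡ 1 + p [MOD p ^ 2] := (hla.of_dvd (Dvd.intro _ rfl)).trans ha1
    have h4 : (1 + p) % (p ^ 2) = 1 + p := Nat.mod_eq_of_lt (by
      have := hp.two_le
      nlinarith)
    rw [← h4]
    exact h3

/-- the infinite families of degree `p` -/
theorem inert_family [IsTotallyComplex k] (hp2 : p ≠ 2) (h2 : finrank ℚ k = 2)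
    {v v' : HeightOneSpectrum (𝓞 k)} (hne : v ≠ v') (hv : ((p : ℕ) : 𝓞 k) ∈ v.asIdeal)
    (hv' : ((p : ℕ) : 𝓞 k) ∈ v'.asIdeal) (hcl : ¬ p ∣ Nat.card (ClassGroup (𝓞 k))) (B : ℕ) :
    ∃ l : ℕ, B < l ∧ l.Prime ∧
    ∃ (K : Type) (_ : Field K) (_ : NumberField K) (_ : Algebra k K) (F : IntermediateField ℚ K),
      CMData p K F 1 ∧ (∀ r : ℕ, r.Prime → ((r : ℤ) ∣ discr F ↔ r = l)) ∧
      ∀ φ : k →+* ℂ_[p], IsCMType p F K (upS K {φ}) ∧ PlaceStable (upS K {φ}) ∧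
        Bounded p K (upS K {φ}) {w | (l : 𝓞 K) ∈ w.asIdeal} := by
  have hp := hpf.out
  obtain ⟨θ, D, hD, hpD, hθ⟩ := exists_sqrt' h2 hne hv hv'
  obtain ⟨l, hBl, hl, hlD, hlp⟩ := exists_l hp2 hD hpD B
  obtain ⟨q, hq⟩ := inert_of h2 hθ hl (jac D hD hl hlD)
  have hlpp : ∃ s : ℕ, l = 1 + p + p ^ 2 * s := by
    refine ⟨l / p ^ 2, ?_⟩
    have h1 := Nat.mod_add_div l (p ^ 2)
    rw [hlp] at h1
    exact h1.symm
  obtain ⟨s, hs⟩ := hlpp
  have hNE : NeZero l := ⟨hl.ne_zero⟩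
  have hpl1 : p ∣ l - 1 := by
    refine ⟨1 + p * s, ?_⟩
    rw [hs]
    have : 1 + p + p ^ 2 * s - 1 = p + p ^ 2 * s := by omega
    rw [this]
    ring
  have : Fact l.Prime := ⟨hl⟩
  obtain ⟨E, _, _, hG, hdE, hUE⟩ := exists_sub l p
    (by infer_instance) (by rw [Nat.totient_prime hl]; exact hpl1)
  have hodd : Odd (finrank ℚ E) := by
    rw [hdE]
    exact hp.odd_of_ne_two hp2
  obtain ⟨K, _, _, _, F, ⟨e⟩, hFG, hFd, hFR, hKC, hFK, hKG, hKd, htop⟩ := exists_comp k h2 E hodd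
  have hUF : ∀ r : ℕ, r.Prime → r ≠ l → Unram F r := by
    intro r hr hrl
    refine unram_equiv e (hUE r hr ?_)
    intro h
    exact hrl ((Nat.prime_dvd_prime_iff_eq hr hl).1 h)
  have hUnr : ∀ w : HeightOneSpectrum (𝓞 k), w ≠ q → Unr K w := by
    intro w hw
    refine unr_of F hFG htop l (fun r hr hrl => hUF r hr (fun h => hrl (h ▸ dvd_refl _))) w ?_
    intro hlw
    apply hw
    have h3 : q.asIdeal ≤ w.asIdeal := by
      rw [hq]
      exact (Ideal.span_singleton_le_iff_mem _).2 hlw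
    exact (HeightOneSpectrum.ext (q.isMaximal.eq_of_le w.isPrime.ne_top h3)).symm
  have hpl : p ≠ l := by
    rintro rfl
    have h3 : p ^ 2 ≤ p := by
      by_contra hcon
      push Not at hcon
      rw [Nat.mod_eq_of_lt hcon] at hlp
      omega
    have := hp.one_lt
    nlinarith
  -- the primes above `p` are not `q`
  have hqne : ∀ u : HeightOneSpectrum (𝓞 k), ((p : ℕ) : 𝓞 k) ∈ u.asIdeal → q ≠ u := by
    rintro u hu rfl
    have h3 : (l : 𝓞 k) ∈ q.asIdeal := by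
      rw [hq]
      exact Ideal.mem_span_singleton_self _
    exact hpl ((Nat.prime_dvd_prime_iff_eq hp hl).1 (dvd_of_natCast_mem hu h3))
  -- the condition on `l`
  have hcond : ∀ u u' : HeightOneSpectrum (𝓞 k), u ≠ u' → ((p : ℕ) : 𝓞 k) ∈ u.asIdeal →
      ((p : ℕ) : 𝓞 k) ∈ u'.asIdeal → ((l : ℕ) : 𝓞 k) ^ (p - 1) - 1 ∉ u.asIdeal ^ 2 := by
    intro u u' huu hu hu' hmem
    have hvp := val_p h2 huu hu hu'
    -- `l ^ (p - 1) - 1 = p (-1 + p r)`
    have hexp : ∀ n : ℕ, ∃ r : ℤ, ((l : ℤ)) ^ n = 1 + n * p + p ^ 2 * r := by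
      intro n
      induction n with
      | zero => exact ⟨0, by simp⟩
      | succ n ih =>
        obtain ⟨r, hr⟩ := ih
        refine ⟨s + n + n * p * s + r * l, ?_⟩
        rw [pow_succ, hr, hs]
        push_cast
        ring
    obtain ⟨r, hr⟩ := hexp (p - 1)
    have h3 : ((l : ℕ) : 𝓞 k) ^ (p - 1) - 1 = ((p : ℕ) : 𝓞 k) * (((-1 + p * (1 + r) : ℤ)) : 𝓞 k) := by
      have h4 := congrArg (fun t : ℤ => (t : 𝓞 k)) hr
      push_cast at h4
      rw [h4, Nat.cast_sub hp.one_lt.le]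
      push_cast
      ring
    have h4 : (((-1 + p * (1 + r) : ℤ)) : 𝓞 k) ∉ u.asIdeal := by
      intro h5
      apply u.isPrime.ne_top
      rw [Ideal.eq_top_iff_one]
      have h6 : (1 : 𝓞 k) = ((p : ℕ) : 𝓞 k) * (1 + (r : 𝓞 k)) - (((-1 + p * (1 + r) : ℤ)) : 𝓞 k) := by
        push_cast
        ring
      rw [h6]
      exact Ideal.sub_mem _ (Ideal.mul_mem_right _ _ hu) h5
    have h5 : u.intValuation (((-1 + p * (1 + r) : ℤ)) : 𝓞 k) = 1 :=
      HeightOneSpectrum.intValuation_eq_one_iff.2 h4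
    have h6 : u.intValuation ((p : ℕ) : 𝓞 k) = WithZero.exp (-1) := by
      rw [← hvp, ← u.valuation_of_algebraMap (K := k)]
      rfl
    rw [h3, ← u.intValuation_le_pow_iff_mem, map_mul, h5, h6, mul_one,
      WithZero.exp_le_exp] at hmem
    norm_num at hmem
  refine ⟨l, hBl, hl, K, inferInstance, inferInstance, inferInstance, F,
    ⟨hFG, by rw [pow_one, hFd, hdE], hFR, hKC, hFK⟩, ?_, ?_⟩
  · intro r hr
    exact dvd_discr_iff l hl hUF (by
      have h3 : finrank ℚ F = p := hFd.trans hdE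
      have h4 := hp.one_lt
      omega) r hr
  · intro φ
    obtain ⟨φ₁, φ₂, hφ₁, hφ₂, hall⟩ := split_emb h2 hne hv hv'
    obtain ⟨u, u', hφ, huu, hu, hu'⟩ : ∃ u u' : HeightOneSpectrum (𝓞 k), Induced u φ ∧ u ≠ u' ∧
        ((p : ℕ) : 𝓞 k) ∈ u.asIdeal ∧ ((p : ℕ) : 𝓞 k) ∈ u'.asIdeal := by
      rcases hall φ with rfl | rfl
      · exact ⟨v, v', hφ₁, hne, hv, hv'⟩
      · exact ⟨v', v, hφ₂, hne.symm, hv', hv⟩
    have hp1 : ¬ p ∣ 1 := fun h => hp.one_lt.ne' (Nat.dvd_one.1 h)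
    obtain ⟨hPS, hB⟩ := general hp2 h2 huu hu hu' hcl (hqne u hu) hp1
      (by rw [pow_one, hq]) (hcond u u' huu hu hu') hφ K ⟨1, by rw [pow_one, hKd, hdE]⟩
      (fun w _ hwq => hUnr w hwq)
    refine ⟨cm_type h2 φ F K hFK, hPS, ?_⟩
    intro H _ _ _ _ hGH T hH χ
    refine hB H hGH T ?_ χ
    intro w hwR hwT hwS
    refine hH w ?_ hwT hwS
    intro hlw
    apply hwR
    refine above_of_le ?_
    intro x hx
    rw [hq, Ideal.mem_span_singleton] at hx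
    obtain ⟨y, rfl⟩ := hx
    rw [map_mul, map_natCast]
    exact Ideal.mul_mem_right _ _ hlw

end three

end Pool.Agent.K7.H76.SL
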