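import Mathlib
import Pool.Agent.K7.H76.SL.Thm

/-!
# Existence of the quadratic fields
-/

set_option autoImplicit false

namespace Pool.Agent.K7.H76.SL

open NumberField IsDedekindDomain Module Polynomial

/-- the fields `ℚ(√(1 - 4p))` -/
theorem exists_k (p : ℕ) (hp : p.Prime) : ∃ (k : Type) (_ : Field k) (_ : NumberField k),
    IsTotallyComplex k ∧ finrank ℚ k = 2 ∧ ∃ π : 𝓞 k, π ^ 2 - π + (p : 𝓞 k) = 0 := by
  obtain ⟨f, hf⟩ : ∃ f : ℚ[X], f = X ^ 2 - X + C (p : ℚ) := ⟨_, rfl⟩
  have hdeg : f.natDegree = 2 := by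
    rw [hf]
    compute_degree!
  have hp1 : (1 : ℚ) ≤ p := by exact_mod_cast hp.one_lt.le
  have hirr : Irreducible f := by
    apply Polynomial.irreducible_of_degree_le_three_of_not_isRoot
    · rw [hdeg]
      decide
    · intro x hx
      rw [Polynomial.IsRoot.def] at hx
      simp only [hf, eval_add, eval_sub, eval_pow, eval_X, eval_C] at hx
      nlinarith [sq_nonneg (2 * x - 1)]
  have hfact : Fact (Irreducible f) := ⟨hirr⟩
  have hf0 : f ≠ 0 := hirr.ne_zero
  let k := AdjoinRoot f
  have hchar : CharZero k := charZero_of_injective_algebraMap (algebraMap ℚ k).injective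
  have hfd' : FiniteDimensional ℚ k := (AdjoinRoot.powerBasis hf0).finite
  have hNF : NumberField k := by
    refine @NumberField.mk k _ hchar ?_
    convert hfd'
  have hfin : finrank ℚ k = 2 := by
    have h1 : finrank ℚ (AdjoinRoot f) = f.natDegree := by
      rw [(AdjoinRoot.powerBasis hf0).finrank, AdjoinRoot.powerBasis_dim hf0]
    rw [hdeg] at h1
    exact h1
  have hroot : (AdjoinRoot.root f : k) ^ 2 - AdjoinRoot.root f + (p : k) = 0 := by
    have h1 : AdjoinRoot.mk f (X ^ 2 - X + C (p : ℚ)) = 0 := by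
      conv_lhs => rw [← hf]
      exact AdjoinRoot.mk_self
    rw [map_add, map_sub, map_pow, AdjoinRoot.mk_X, AdjoinRoot.mk_C, map_natCast] at h1
    exact h1
  have hint : IsIntegral ℤ (AdjoinRoot.root f : k) := by
    refine ⟨X ^ 2 - X + C (p : ℤ), by monicity!, ?_⟩
    simp only [eval₂_add, eval₂_sub, eval₂_pow, eval₂_X, eval₂_C]
    rw [map_natCast]
    exact hroot
  refine ⟨k, inferInstance, hNF, ⟨fun w => ?_⟩, ?_, ⟨⟨AdjoinRoot.root f, hint⟩, ?_⟩⟩
  · rw [← InfinitePlace.not_isReal_iff_isComplex]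
    intro hw
    have h1 := congrArg (InfinitePlace.embedding_of_isReal hw) hroot
    rw [map_add, map_sub, map_pow, map_natCast, map_zero] at h1
    have hp1' : (1 : ℝ) ≤ p := by exact_mod_cast hp.one_lt.le
    nlinarith [sq_nonneg (2 * InfinitePlace.embedding_of_isReal hw (AdjoinRoot.root f) - 1)]
  · convert hfin
  · apply RingOfIntegers.ext
    exact hroot

end Pool.Agent.K7.H76.SL
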